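import Mathlib

set_option autoImplicit false

namespace Pool.FS79

open SimpleGraph

variable {V : Type*} {G : SimpleGraph V}

/-- The neighbour of `v` closer to `r` is unique in a tree. -/
theorem parent_unique (hG : G.IsTree) {r v u u' : V} (hu : G.Adj u v) (hu' : G.Adj u' v)
    (h : G.dist r v = G.dist r u + 1) (h' : G.dist r v = G.dist r u' + 1) : u = u' := by
  obtain ⟨p, hp⟩ := (hG.connected r u).exists_walk_length_eq_dist
  obtain ⟨p', hp'⟩ := (hG.connected r u').exists_walk_length_eq_dist
  have h1 : (p.concat hu).length = G.dist r v := by rw [Walk.length_concat, hp, h]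
  have h2 : (p'.concat hu').length = G.dist r v := by rw [Walk.length_concat, hp', h']
  have e : p.concat hu = p'.concat hu' :=
    (hG.existsUnique_path r v).unique (Walk.isPath_of_length_eq_dist _ h1)
      (Walk.isPath_of_length_eq_dist _ h2)
  have := congrArg Walk.penultimate e
  simpa using this

theorem exists_parent (hG : G.IsTree) {r v : V} (hv : v ≠ r) :
    ∃ u, G.Adj u v ∧ G.dist r v = G.dist r u + 1 := by
  obtain ⟨p, hp⟩ := (hG.connected r v).exists_walk_length_eq_dist
  have hn : ¬ p.Nil := by
    intro hn
    exact hv hn.eq.symm
  have ha : G.Adj p.penultimate v := p.adj_penultimate hn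
  refine ⟨p.penultimate, ha, ?_⟩
  rcases hG.dist_eq_dist_add_one_of_adj r ha with h | h
  · exfalso
    have h1 : G.dist r p.penultimate ≤ p.dropLast.length := SimpleGraph.dist_le _
    have h2 : p.dropLast.length + 1 = p.length := by
      have := p.length_dropLast_add_one hn
      exact this
    omega
  · exact h

/-- Induction along a rooted tree. -/
theorem tree_induction (hG : G.IsTree) (r : V) {P : V → Prop} (h0 : P r)
    (hs : ∀ u v, G.Adj u v → G.dist r v = G.dist r u + 1 → P u → P v) : ∀ v, P v := by
  have key : ∀ k v, G.dist r v = k → P v := by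
    intro k
    induction k with
    | zero =>
      intro v hv
      have : r = v := by
        rcases (SimpleGraph.dist_eq_zero_iff_eq_or_not_reachable.mp hv) with h | h
        · exact h
        · exact absurd (hG.connected r v) h
      subst this
      exact h0
    | succ k ih =>
      intro v hv
      have hvr : v ≠ r := by
        rintro rfl
        simp at hv
      obtain ⟨u, hu, hd⟩ := exists_parent hG hvr
      exact hs u v hu hd (ih u (by omega))
  exact fun v => key _ v rfl

/-- Recursion along a rooted tree. -/
theorem exists_rec (hG : G.IsTree) (r : V) {α : Type*} (a0 : α) (f : V → V → α → α) :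
    ∃ F : V → α, F r = a0 ∧
      ∀ u v, G.Adj u v → G.dist r v = G.dist r u + 1 → F v = f u v (F u) := by
  classical
  let par : V → V := fun v => if h : v ≠ r then Classical.choose (exists_parent hG h) else v
  have hpar : ∀ u v, G.Adj u v → G.dist r v = G.dist r u + 1 → par v = u := by
    intro u v hu hd
    have hvr : v ≠ r := by
      rintro rfl
      simp at hd
    have hs := Classical.choose_spec (exists_parent hG hvr)
    have : par v = Classical.choose (exists_parent hG hvr) := dif_pos hvr
    rw [this]
    exact parent_unique hG hs.1 hu hs.2 hd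
  let R : ℕ → V → α := fun k => Nat.rec (fun _ => a0) (fun _ g v => f (par v) v (g (par v))) k
  have hR : ∀ k v, R (k + 1) v = f (par v) v (R k (par v)) := fun k v => rfl
  refine ⟨fun v => R (G.dist r v) v, ?_, ?_⟩
  · have h0 : R 0 r = a0 := rfl
    show R (G.dist r r) r = a0
    rw [SimpleGraph.dist_self, h0]
  · intro u v hu hd
    show R (G.dist r v) v = f u v (R (G.dist r u) u)
    rw [hd, hR, hpar u v hu hd]

end Pool.FS79
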