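import Pool.Agent.H79.FS.Frm
import Pool.Agent.H79.FS.Tree

set_option autoImplicit false

/-! Coordinates of planar states of orthogonal trees. -/

namespace Pool.FS79

open SimpleGraph Set Module

variable {V : Type*} {G : SimpleGraph V}

/-- the link `a b` is horizontal or vertical -/
def Axis (x y : V → ℝ) (a b : V) : Prop := (x a ≠ x b ∧ y a = y b) ∨ (x a = x b ∧ y a ≠ y b)

theorem Axis.symm {x y : V → ℝ} {a b : V} (h : Axis x y a b) : Axis x y b a := by
  rcases h with ⟨h1, h2⟩ | ⟨h1, h2⟩
  · exact Or.inl ⟨h1.symm, h2.symm⟩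
  · exact Or.inr ⟨h1.symm, h2.symm⟩

theorem pl_inner {c u w : E3} (h : (u, w) ∈ OP) (x y : V → ℝ) (a b d : V) :
    inner ℝ (pl c u w x y b - pl c u w x y a) (pl c u w x y d - pl c u w x y a) =
      (x b - x a) * (x d - x a) + (y b - y a) * (y d - y a) := by
  obtain ⟨z, hz, h1, h2⟩ := exists_perp_pair u w
  have hg : Orthonormal ℝ ![u, w, z] := frame_of h.1 h.2.1 hz h.2.2 h1 h2
  have e : ∀ b, pl c u w x y b - pl c u w x y a =
      (x b - x a) • (![u, w, z] 0) + (y b - y a) • (![u, w, z] 1) + (0:ℝ) • (![u, w, z] 2) := by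
    intro b
    simp only [pl, Matrix.cons_val_zero, Matrix.cons_val_one, Matrix.cons_val]
    module
  rw [e b, e d, inner_frame hg]
  ring

theorem pl_ext {c u w : E3} (h : (u, w) ∈ OP) (x y : V → ℝ) (a b : V) :
    pl c u w x y a = pl c u w x y b ↔ x a = x b ∧ y a = y b := by
  constructor
  · intro he
    have h1 := pl_inner (c := c) h x y a b b
    rw [he, sub_self, inner_zero_left] at h1
    constructor
    · nlinarith [sq_nonneg (x b - x a), sq_nonneg (y b - y a)]
    · nlinarith [sq_nonneg (x b - x a), sq_nonneg (y b - y a)]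
  · rintro ⟨h1, h2⟩
    simp [pl, h1, h2]

theorem planar_coords (hG : G.IsTree) {p : V → E3} {r s : V} (hrs : G.Adj r s)
    (hnd : ∀ a b, G.Adj a b → p a ≠ p b)
    (hperp : ∀ u v w, G.Adj u v → G.Adj u w → inner ℝ (p v - p u) (p w - p u) = 0 ∨
      (inner ℝ (p v - p u) (p w - p u)) ^ 2 = inner ℝ (p v - p u) (p v - p u) *
        inner ℝ (p w - p u) (p w - p u))
    (hfr : finrank ℝ (vectorSpan ℝ (Set.range p)) ≤ 2) :
    ∃ (u w : E3) (x y : V → ℝ), (u, w) ∈ OP ∧ p = pl (p r) u w x y ∧ x r = 0 ∧ y r = 0 ∧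
      0 < x s ∧ y s = 0 ∧ ∀ a b, G.Adj a b → Axis x y a b := by
  obtain ⟨g2, hg2, hg2'⟩ := exists_unit_perp (vectorSpan ℝ (Set.range p)) (by omega)
  set d := p s - p r with hd
  have hd0 : d ≠ 0 := sub_ne_zero.mpr (hnd r s hrs).symm
  have hnorm : ‖d‖ ≠ 0 := norm_ne_zero_iff.mpr hd0
  set g0 := (‖d‖)⁻¹ • d with hg0
  have hg0n : ‖g0‖ = 1 := by rw [hg0, norm_smul, norm_inv, norm_norm, inv_mul_cancel₀ hnorm]
  have hdW : ∀ v, p v - p r ∈ vectorSpan ℝ (Set.range p) := fun v =>
    vsub_mem_vectorSpan ℝ (mem_range_self v) (mem_range_self r)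
  have h02 : inner ℝ g0 g2 = 0 := by
    rw [hg0, inner_smul_left, hg2' d (hdW s), mul_zero]
  obtain ⟨g1, hg1, h01, h21⟩ := exists_perp_pair g0 g2
  have h12 : inner ℝ g1 g2 = 0 := by rw [real_inner_comm]; exact h21
  have hg : Orthonormal ℝ ![g0, g1, g2] := frame_of hg0n hg1 hg2 h01 h02 h12
  have hspan : (⊤ : Submodule ℝ E3) ≤ Submodule.span ℝ (Set.range ![g0, g1, g2]) := by
    rw [hg.linearIndependent.span_eq_top_of_card_eq_finrank (by simp)]
  have hdec : ∀ z : E3, inner ℝ z g2 = 0 → z = (inner ℝ g0 z) • g0 + (inner ℝ g1 z) • g1 := by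
    intro z hz
    have h := (OrthonormalBasis.mk hg hspan).sum_repr' z
    rw [Fin.sum_univ_three] at h
    simp only [OrthonormalBasis.coe_mk, Matrix.cons_val_zero, Matrix.cons_val_one,
      Matrix.cons_val] at h
    have hz' : inner ℝ g2 z = 0 := by rw [real_inner_comm]; exact hz
    rw [hz', zero_smul, add_zero] at h
    exact h.symm
  set x : V → ℝ := fun v => inner ℝ g0 (p v - p r) with hx
  set y : V → ℝ := fun v => inner ℝ g1 (p v - p r) with hy
  have hop : (g0, g1) ∈ OP := ⟨hg0n, hg1, h01⟩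
  have hpl : p = pl (p r) g0 g1 x y := by
    funext v
    have := hdec (p v - p r) (hg2' _ (hdW v))
    show p v = p r + _
    rw [← this]
    abel
  have hin : ∀ a b c, inner ℝ (p b - p a) (p c - p a) =
      (x b - x a) * (x c - x a) + (y b - y a) * (y c - y a) := by
    intro a b c
    have := pl_inner (c := p r) hop x y a b c
    rw [← hpl] at this
    exact this
  have hxr : x r = 0 := by simp [hx]
  have hyr : y r = 0 := by simp [hy]
  have hdg : d = ‖d‖ • g0 := by
    rw [hg0, smul_smul, mul_inv_cancel₀ hnorm, one_smul]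
  have hxs : x s = ‖d‖ := by
    show inner ℝ g0 d = ‖d‖
    rw [hdg, inner_smul_right, real_inner_self_eq_norm_sq, hg0n]
    simp [norm_smul, hg0n]
  have hys : y s = 0 := by
    show inner ℝ g1 d = 0
    rw [hdg, inner_smul_right, real_inner_comm, h01, mul_zero]
  have hne : ∀ a b, G.Adj a b → ¬ (x a = x b ∧ y a = y b) := by
    intro a b hab h
    apply hnd a b hab
    rw [hpl]
    exact (pl_ext hop x y a b).mpr h
  have step : ∀ u v w, G.Adj u v → G.Adj u w → Axis x y u v → Axis x y u w := by
    intro u v w huv huw hA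
    have h1 := hperp u v w huv huw
    have h2 := hne u w huw
    have h3 := hin u v w
    have h4 := hin u v v
    have h5 := hin u w w
    rcases hA with ⟨a1, a2⟩ | ⟨a1, a2⟩
    · rw [← a2] at h3 h4
      have a3 : x v - x u ≠ 0 := sub_ne_zero.mpr a1.symm
      rcases h1 with h1 | h1
      · rw [h3] at h1
        have h6 : x w - x u = 0 := by
          have : (x v - x u) * (x w - x u) = 0 := by linarith
          exact (mul_eq_zero.mp this).resolve_left a3
        right
        have h7 : x u = x w := by linarith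
        exact ⟨h7, fun h => h2 ⟨h7, h⟩⟩
      · rw [h3, h4, h5] at h1
        left
        have h6 : (x v - x u) ^ 2 * (y w - y u) ^ 2 = 0 := by linarith
        have h7 : y w - y u = 0 := by
          have := (mul_eq_zero.mp h6).resolve_left (pow_ne_zero 2 a3)
          exact pow_eq_zero_iff (two_ne_zero) |>.mp this
        have h8 : y u = y w := by linarith
        exact ⟨fun h => h2 ⟨h, h8⟩, h8⟩
    · rw [← a1] at h3 h4
      have a3 : y v - y u ≠ 0 := sub_ne_zero.mpr a2.symm
      rcases h1 with h1 | h1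
      · rw [h3] at h1
        have h6 : y w - y u = 0 := by
          have : (y v - y u) * (y w - y u) = 0 := by linarith
          exact (mul_eq_zero.mp this).resolve_left a3
        left
        have h7 : y u = y w := by linarith
        exact ⟨fun h => h2 ⟨h, h7⟩, h7⟩
      · rw [h3, h4, h5] at h1
        right
        have h6 : (y v - y u) ^ 2 * (x w - x u) ^ 2 = 0 := by linarith
        have h7 : x w - x u = 0 := by
          have := (mul_eq_zero.mp h6).resolve_left (pow_ne_zero 2 a3)
          exact pow_eq_zero_iff (two_ne_zero) |>.mp this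
        have h8 : x u = x w := by linarith
        exact ⟨h8, fun h => h2 ⟨h8, h⟩⟩
  have hxs0 : 0 < x s := by rw [hxs]; positivity
  refine ⟨g0, g1, x, y, hop, hpl, hxr, hyr, hxs0, hys, ?_⟩
  have all : ∀ u w, G.Adj u w → Axis x y u w := by
    refine tree_induction hG r (P := fun u => ∀ w, G.Adj u w → Axis x y u w) ?_ ?_
    · intro w hw
      refine step r s w hrs hw (Or.inl ⟨?_, ?_⟩)
      · rw [hxr]; exact hxs0.ne
      · rw [hyr, hys]
    · intro u v huv _ ih w hw
      exact step v u w huv.symm hw (ih v huv).symm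
  exact all

/-- the same type in both states -/
def Ax2 (x y x' y' : V → ℝ) (a b : V) : Prop :=
  (x a ≠ x b ∧ y a = y b ∧ x' a ≠ x' b ∧ y' a = y' b) ∨
  (x a = x b ∧ y a ≠ y b ∧ x' a = x' b ∧ y' a ≠ y' b)

theorem Ax2.symm {x y x' y' : V → ℝ} {a b : V} (h : Ax2 x y x' y' a b) : Ax2 x y x' y' b a := by
  rcases h with ⟨h1, h2, h3, h4⟩ | ⟨h1, h2, h3, h4⟩
  · exact Or.inl ⟨h1.symm, h2.symm, h3.symm, h4.symm⟩
  · exact Or.inr ⟨h1.symm, h2.symm, h3.symm, h4.symm⟩

theorem types (hG : G.IsTree) {x y x' y' : V → ℝ} {r s : V} (hrs : G.Adj r s)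
    (hA : ∀ a b, G.Adj a b → Axis x y a b) (hA' : ∀ a b, G.Adj a b → Axis x' y' a b)
    (hin : ∀ u v w, G.Adj u v → G.Adj u w →
      (x v - x u) * (x w - x u) + (y v - y u) * (y w - y u) =
      (x' v - x' u) * (x' w - x' u) + (y' v - y' u) * (y' w - y' u))
    (h0 : y r = y s) (h0' : y' r = y' s) :
    ∀ a b, G.Adj a b → Ax2 x y x' y' a b := by
  have step : ∀ u v w, G.Adj u v → G.Adj u w → Ax2 x y x' y' u v → Ax2 x y x' y' u w := by
    intro u v w huv huw h
    have h1 := hin u v w huv huw
    rcases hA u w huw with ⟨b1, b2⟩ | ⟨b1, b2⟩ <;> rcases hA' u w huw with ⟨c1, c2⟩ | ⟨c1, c2⟩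
    · exact Or.inl ⟨b1, b2, c1, c2⟩
    · exfalso
      rcases h with ⟨a1, a2, a3, a4⟩ | ⟨a1, a2, a3, a4⟩
      · rw [← a2, ← a4, ← c1] at h1
        have : (x v - x u) * (x w - x u) = 0 := by linarith
        rcases mul_eq_zero.mp this with h | h
        · exact a1 (by linarith)
        · exact b1 (by linarith)
      · rw [← a1, ← a3, ← b2] at h1
        have : (y' v - y' u) * (y' w - y' u) = 0 := by linarith
        rcases mul_eq_zero.mp this with h | h
        · exact a4 (by linarith)
        · exact c2 (by linarith)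
    · exfalso
      rcases h with ⟨a1, a2, a3, a4⟩ | ⟨a1, a2, a3, a4⟩
      · rw [← a2, ← a4, ← b1] at h1
        have : (x' v - x' u) * (x' w - x' u) = 0 := by linarith
        rcases mul_eq_zero.mp this with h | h
        · exact a3 (by linarith)
        · exact c1 (by linarith)
      · rw [← a1, ← a3, ← c2] at h1
        have : (y v - y u) * (y w - y u) = 0 := by linarith
        rcases mul_eq_zero.mp this with h | h
        · exact a2 (by linarith)
        · exact b2 (by linarith)
    · exact Or.inr ⟨b1, b2, c1, c2⟩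
  have all : ∀ u w, G.Adj u w → Ax2 x y x' y' u w := by
    refine tree_induction hG r (P := fun u => ∀ w, G.Adj u w → Ax2 x y x' y' u w) ?_ ?_
    · intro w hw
      refine step r s w hrs hw (Or.inl ⟨?_, h0, ?_, h0'⟩)
      · rcases hA r s hrs with h | h
        · exact h.1
        · exact absurd h0 h.2
      · rcases hA' r s hrs with h | h
        · exact h.1
        · exact absurd h0' h.2
    · intro u v huv _ ih w hw
      exact step v u w huv.symm hw (ih v huv).symm
  exact all

/-- sign of the change of the horizontal links at a vertex -/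
theorem sign_exists {x x' : V → ℝ} (T : V → V → Prop)
    (hsq : ∀ u v, T u v → (x' v - x' u) ^ 2 = (x v - x u) ^ 2)
    (hne : ∀ u v, T u v → x v - x u ≠ 0)
    (hin : ∀ u v w, T u v → T u w →
      (x v - x u) * (x w - x u) = (x' v - x' u) * (x' w - x' u)) :
    ∃ e : V → ℝ, (∀ u, e u = 1 ∨ e u = -1) ∧
      ∀ u v, T u v → x' v - x' u = e u * (x v - x u) := by
  classical
  have key : ∀ u, ∃ e : ℝ, (e = 1 ∨ e = -1) ∧ ∀ v, T u v → x' v - x' u = e * (x v - x u) := by
    intro u
    by_cases h : ∃ v, T u v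
    · obtain ⟨v, hv⟩ := h
      have h1 := hsq u v hv
      have h2 := hne u v hv
      have h3 : x' v - x' u = x v - x u ∨ x' v - x' u = -(x v - x u) := sq_eq_sq_iff_eq_or_eq_neg.mp h1
      rcases h3 with h3 | h3
      · refine ⟨1, Or.inl rfl, fun w hw => ?_⟩
        have h4 := hin u v w hv hw
        rw [h3] at h4
        rw [one_mul]
        exact (mul_left_cancel₀ h2 h4).symm
      · refine ⟨-1, Or.inr rfl, fun w hw => ?_⟩
        have h4 := hin u v w hv hw
        rw [h3] at h4
        have : x w - x u = -(x' w - x' u) := mul_left_cancel₀ h2 (by linarith)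
        linarith
    · exact ⟨1, Or.inl rfl, fun v hv => absurd ⟨v, hv⟩ h⟩
  choose e he using key
  exact ⟨e, fun u => (he u).1, fun u v h => (he u).2 v h⟩

end Pool.FS79
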