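import Mathlib

set_option autoImplicit false

/-! Non-crossing states in coordinates. -/

namespace Pool.FS79

open SimpleGraph Set

/-- 3-space. -/
abbrev E3 := EuclideanSpace ℝ (Fin 3)

variable {V : Type*}

/-- Two links meet only at a shared endpoint. -/
def NC (G : SimpleGraph V) (r : V → E3) : Prop :=
  ∀ a b c d, G.Adj a b → G.Adj c d → ¬ ((a = c ∧ b = d) ∨ (a = d ∧ b = c)) →
    ∀ x, x ∈ segment ℝ (r a) (r b) → x ∈ segment ℝ (r c) (r d) →
      ∃ v, (v = a ∨ v = b) ∧ (v = c ∨ v = d) ∧ x = r v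

/-- The free space of the linkage of shape `p`. -/
def Free (G : SimpleGraph V) (p : V → E3) : Set (V → E3) :=
  {r | (∀ u v w, G.Adj u v → G.Adj u w →
        inner ℝ (r v - r u) (r w - r u) = inner ℝ (p v - p u) (p w - p u)) ∧ NC G r}

/-- Value of a vertex function at the point with parameter `s` of the link `a b`. -/
def Lv (F : V → ℝ) (a b : V) (s : ℝ) : ℝ := (1 - s) * F a + s * F b

/-- The points `(a b, s)` and `(c d, t)` are one and the same endpoint. -/
def Same (a b : V) (s : ℝ) (c d : V) (t : ℝ) : Prop :=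
  ∃ v, (v = a ∧ s = 0 ∨ v = b ∧ s = 1) ∧ (v = c ∧ t = 0 ∨ v = d ∧ t = 1)

theorem Same.lv {a b c d : V} {s t : ℝ} (h : Same a b s c d t) (F : V → ℝ) :
    Lv F a b s = Lv F c d t := by
  obtain ⟨v, h1, h2⟩ := h
  unfold Lv
  rcases h1 with ⟨rfl, rfl⟩ | ⟨rfl, rfl⟩ <;> rcases h2 with ⟨rfl, rfl⟩ | ⟨rfl, rfl⟩ <;> simp

/-- Non-crossing in terms of three coordinate functions. -/
def Sep (G : SimpleGraph V) (X Y Z : V → ℝ) : Prop :=
  ∀ a b c d, G.Adj a b → G.Adj c d → ¬ ((a = c ∧ b = d) ∨ (a = d ∧ b = c)) →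
    ∀ s t, s ∈ Icc (0:ℝ) 1 → t ∈ Icc (0:ℝ) 1 →
      Lv X a b s = Lv X c d t → Lv Y a b s = Lv Y c d t → Lv Z a b s = Lv Z c d t →
      Same a b s c d t

/-- The state with coordinates `X, Y, Z` in the frame `g` at `c`. -/
def st (c : E3) (g : Fin 3 → E3) (X Y Z : V → ℝ) : V → E3 :=
  fun v => c + (X v • g 0 + Y v • g 1 + Z v • g 2)

theorem st_line (c : E3) (g : Fin 3 → E3) (X Y Z : V → ℝ) (a b : V) (s : ℝ) :
    (1 - s) • st c g X Y Z a + s • st c g X Y Z b =
      c + (Lv X a b s • g 0 + Lv Y a b s • g 1 + Lv Z a b s • g 2) := by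
  unfold st Lv
  module

theorem frame_inj {g : Fin 3 → E3} (hg : Orthonormal ℝ g) {x y z x' y' z' : ℝ}
    (h : x • g 0 + y • g 1 + z • g 2 = x' • g 0 + y' • g 1 + z' • g 2) :
    x = x' ∧ y = y' ∧ z = z' := by
  have hli := hg.linearIndependent
  have h0 : (x - x') • g 0 + (y - y') • g 1 + (z - z') • g 2 = 0 := by
    have : (x - x') • g 0 + (y - y') • g 1 + (z - z') • g 2 =
      (x • g 0 + y • g 1 + z • g 2) - (x' • g 0 + y' • g 1 + z' • g 2) := by module
    rw [this, h, sub_self]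
  rw [Fintype.linearIndependent_iff] at hli
  have := hli ![x - x', y - y', z - z'] (by
    simpa [Fin.sum_univ_three] using h0)
  refine ⟨?_, ?_, ?_⟩
  · simpa [sub_eq_zero] using this 0
  · simpa [sub_eq_zero] using this 1
  · simpa [sub_eq_zero] using this 2

theorem mem_segment_param {a b x : E3} (h : x ∈ segment ℝ a b) :
    ∃ s ∈ Icc (0:ℝ) 1, (1 - s) • a + s • b = x := by
  obtain ⟨α, β, hα, hβ, hs, rfl⟩ := h
  refine ⟨β, ⟨hβ, by linarith⟩, ?_⟩
  have : α = 1 - β := by linarith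
  rw [this]

theorem param_mem_segment (a b : E3) {s : ℝ} (hs : s ∈ Icc (0:ℝ) 1) :
    (1 - s) • a + s • b ∈ segment ℝ a b :=
  ⟨1 - s, s, by linarith [hs.2], hs.1, by ring, rfl⟩

theorem Sep.nc {G : SimpleGraph V} {X Y Z : V → ℝ} (h : Sep G X Y Z) (c : E3)
    {g : Fin 3 → E3} (hg : Orthonormal ℝ g) : NC G (st c g X Y Z) := by
  intro a b a' b' hab hab' hne x hx hx'
  obtain ⟨s, hs, rfl⟩ := mem_segment_param hx
  obtain ⟨t, ht, ht'⟩ := mem_segment_param hx'
  rw [st_line, st_line] at ht'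
  have := frame_inj hg (add_left_cancel ht')
  obtain ⟨v, h1, h2⟩ := h a b a' b' hab hab' hne s t hs ht this.1.symm this.2.1.symm this.2.2.symm
  rcases h1 with ⟨rfl, rfl⟩ | ⟨rfl, rfl⟩
  · refine ⟨v, Or.inl rfl, ?_, by simp⟩
    rcases h2 with ⟨h2, _⟩ | ⟨h2, _⟩
    · exact Or.inl h2
    · exact Or.inr h2
  · refine ⟨v, Or.inr rfl, ?_, by simp⟩
    rcases h2 with ⟨h2, _⟩ | ⟨h2, _⟩
    · exact Or.inl h2
    · exact Or.inr h2

theorem param_end {a b : E3} (hab : a ≠ b) {s : ℝ} :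
    ((1 - s) • a + s • b = a → s = 0) ∧ ((1 - s) • a + s • b = b → s = 1) := by
  constructor
  · intro h
    have h2 : s • (b - a) = 0 := by
      have : s • (b - a) = ((1 - s) • a + s • b) - a := by module
      rw [this, h, sub_self]
    rcases smul_eq_zero.mp h2 with h3 | h3
    · exact h3
    · exact absurd (sub_eq_zero.mp h3).symm hab
  · intro h
    have h2 : (1 - s) • (b - a) = 0 := by
      have : (1 - s) • (b - a) = b - ((1 - s) • a + s • b) := by module
      rw [this, h, sub_self]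
    rcases smul_eq_zero.mp h2 with h3 | h3
    · linarith
    · exact absurd (sub_eq_zero.mp h3).symm hab

theorem NC.sep {G : SimpleGraph V} {X Y Z : V → ℝ} {c : E3} {g : Fin 3 → E3}
    (h : NC G (st c g X Y Z)) (hnd : ∀ a b, G.Adj a b → st c g X Y Z a ≠ st c g X Y Z b) :
    Sep G X Y Z := by
  intro a b a' b' hab hab' hne s t hs ht hX hY hZ
  have e : (1 - s) • st c g X Y Z a + s • st c g X Y Z b =
      (1 - t) • st c g X Y Z a' + t • st c g X Y Z b' := by
    rw [st_line, st_line, hX, hY, hZ]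
  obtain ⟨v, h1, h2, h3⟩ := h a b a' b' hab hab' hne _ (param_mem_segment _ _ hs)
    (e ▸ param_mem_segment _ _ ht)
  refine ⟨v, ?_, ?_⟩
  · rcases h1 with rfl | rfl
    · exact Or.inl ⟨rfl, (param_end (hnd _ _ hab)).1 h3⟩
    · exact Or.inr ⟨rfl, (param_end (hnd _ _ hab)).2 h3⟩
  · rw [e] at h3
    rcases h2 with rfl | rfl
    · exact Or.inl ⟨rfl, (param_end (hnd _ _ hab')).1 h3⟩
    · exact Or.inr ⟨rfl, (param_end (hnd _ _ hab')).2 h3⟩

theorem inner_frame {g : Fin 3 → E3} (hg : Orthonormal ℝ g) (x y z x' y' z' : ℝ) :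
    inner ℝ (x • g 0 + y • g 1 + z • g 2) (x' • g 0 + y' • g 1 + z' • g 2) =
      x * x' + y * y' + z * z' := by
  have h : ∀ i j, inner ℝ (g i) (g j) = if i = j then (1:ℝ) else 0 :=
    orthonormal_iff_ite.mp hg
  simp only [inner_add_left, inner_add_right, inner_smul_left, inner_smul_right, h]
  simp
  ring

theorem st_sub (c : E3) (g : Fin 3 → E3) (X Y Z : V → ℝ) (u v : V) :
    st c g X Y Z v - st c g X Y Z u =
      (X v - X u) • g 0 + (Y v - Y u) • g 1 + (Z v - Z u) • g 2 := by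
  unfold st
  module

/-- Coordinate version of the free space: states with the inner products of the planar state
`(x, y)`. -/
def CF (G : SimpleGraph V) (x y : V → ℝ) : Set (V → ℝ × ℝ × ℝ) :=
  {f | (∀ u v w, G.Adj u v → G.Adj u w →
      ((f v).1 - (f u).1) * ((f w).1 - (f u).1)
        + ((f v).2.1 - (f u).2.1) * ((f w).2.1 - (f u).2.1)
        + ((f v).2.2 - (f u).2.2) * ((f w).2.2 - (f u).2.2)
      = (x v - x u) * (x w - x u) + (y v - y u) * (y w - y u)) ∧
    Sep G (fun v => (f v).1) (fun v => (f v).2.1) (fun v => (f v).2.2)}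

/-- From coordinates to space. -/
def toE (c : E3) (g : Fin 3 → E3) (f : V → ℝ × ℝ × ℝ) : V → E3 :=
  fun v => c + ((f v).1 • g 0 + (f v).2.1 • g 1 + (f v).2.2 • g 2)

theorem continuous_toE (c : E3) (g : Fin 3 → E3) :
    Continuous (toE c g : (V → ℝ × ℝ × ℝ) → (V → E3)) := by
  unfold toE
  fun_prop

theorem toE_mem {G : SimpleGraph V} {x y : V → ℝ} {p : V → E3} {c : E3} {g : Fin 3 → E3}
    (hg : Orthonormal ℝ g)
    (hp : ∀ u v w, G.Adj u v → G.Adj u w → inner ℝ (p v - p u) (p w - p u) =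
      (x v - x u) * (x w - x u) + (y v - y u) * (y w - y u))
    {f : V → ℝ × ℝ × ℝ} (hf : f ∈ CF G x y) : toE c g f ∈ Free G p := by
  refine ⟨?_, ?_⟩
  · intro u v w huv huw
    have e1 := st_sub c g (fun v => (f v).1) (fun v => (f v).2.1) (fun v => (f v).2.2) u v
    have e2 := st_sub c g (fun v => (f v).1) (fun v => (f v).2.1) (fun v => (f v).2.2) u w
    show inner ℝ (st c g (fun v => (f v).1) (fun v => (f v).2.1) (fun v => (f v).2.2) v
      - st c g (fun v => (f v).1) (fun v => (f v).2.1) (fun v => (f v).2.2) u) _ = _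
    rw [e1]
    have e3 : toE c g f w - toE c g f u = ((f w).1 - (f u).1) • g 0 +
      ((f w).2.1 - (f u).2.1) • g 1 + ((f w).2.2 - (f u).2.2) • g 2 := e2
    rw [e3, inner_frame hg, hp u v w huv huw]
    exact hf.1 u v w huv huw
  · exact hf.2.nc c hg

theorem joined_toE {G : SimpleGraph V} {x y : V → ℝ} {p : V → E3} (c : E3) {g : Fin 3 → E3}
    (hg : Orthonormal ℝ g)
    (hp : ∀ u v w, G.Adj u v → G.Adj u w → inner ℝ (p v - p u) (p w - p u) =
      (x v - x u) * (x w - x u) + (y v - y u) * (y w - y u))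
    {f f' : V → ℝ × ℝ × ℝ} (h : JoinedIn (CF G x y) f f') :
    JoinedIn (Free G p) (toE c g f) (toE c g f') := by
  have h2 := h.map_continuousOn (f := toE c g) (continuous_toE c g).continuousOn
  exact h2.mono (by
    rintro _ ⟨f, hf, rfl⟩
    exact toE_mem hg hp hf)

end Pool.FS79
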