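import Pool.Agent.H79.FS.Tree
import Pool.Agent.H79.FS.Crs

set_option autoImplicit false

/-! Turns along vertex lists. -/

namespace Pool.FS79

open SimpleGraph

variable {V : Type*}

open Classical in
/-- Number of right angles at the interior vertices of a vertex list. -/
noncomputable def turns (p : V → E3) : List V → ℕ
  | a :: b :: c :: l =>
      (if inner ℝ (p a - p b) (p c - p b) = 0 then 1 else 0) + turns p (b :: c :: l)
  | _ => 0

/-- Vertex lists of walks without immediate backtracking. -/
def NB (G : SimpleGraph V) : List V → Prop
  | a :: b :: c :: l => G.Adj a b ∧ a ≠ c ∧ NB G (b :: c :: l)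
  | [a, b] => G.Adj a b
  | _ => True

theorem turns_cons (p : V → E3) (a b c : V) (l : List V) :
    turns p (a :: b :: c :: l) = turns p [a, b, c] + turns p (b :: c :: l) := by
  rw [turns, turns]
  simp [turns]

theorem nb_cons (G : SimpleGraph V) (a b c : V) (l : List V) :
    NB G (a :: b :: c :: l) ↔ (G.Adj a b ∧ a ≠ c) ∧ NB G (b :: c :: l) := by
  rw [NB, and_assoc]

theorem nb_walk {G : SimpleGraph V} (l : List V) : ∀ a, NB G (a :: l) →
    ∃ b, ∃ w : G.Walk a b, w.support = a :: l ∧ List.IsChain (· ≠ ·) w.edges := by
  induction l with
  | nil =>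
    intro a _
    exact ⟨a, Walk.nil, by simp, by simp⟩
  | cons b l ih =>
    intro a h
    cases l with
    | nil =>
      have h' : G.Adj a b := h
      refine ⟨b, Walk.cons h' Walk.nil, by simp, by simp⟩
    | cons c l =>
      obtain ⟨⟨h1, h2⟩, h3⟩ := (nb_cons G a b c l).mp h
      obtain ⟨d, w, hw, hw'⟩ := ih b h3
      refine ⟨d, Walk.cons h1 w, by simp [hw], ?_⟩
      rw [Walk.edges_cons, List.isChain_cons]
      refine ⟨?_, hw'⟩
      intro e he
      cases w with
      | nil => simp at hw
      | cons hh w' =>
        rw [Walk.support_cons] at hw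
        have hw2 : w'.support = c :: l := by
          simpa using hw
        rw [Walk.edges_cons] at he
        simp only [List.head?_cons, Option.mem_def, Option.some.injEq] at he
        rw [← he]
        rename_i v'
        have hv' : v' = c := by
          have h7 := w'.cons_tail_support
          rw [hw2] at h7
          exact (List.cons.inj h7).1
        subst hv'
        intro hEq
        rw [Sym2.eq_iff] at hEq
        rcases hEq with ⟨h4, h5⟩ | ⟨h4, _⟩
        · exact h2 (h4.trans h5)
        · exact h2 h4

theorem nb_path {G : SimpleGraph V} (hG : G.IsTree) {a : V} {l : List V} (h : NB G (a :: l)) :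
    ∃ b, ∃ w : G.Walk a b, w.support = a :: l ∧ w.IsPath := by
  obtain ⟨b, w, hw, hw'⟩ := nb_walk l a h
  exact ⟨b, w, hw, (hG.isAcyclic.isPath_iff_isChain w).mpr hw'⟩

theorem turns_append (p : V → E3) (r s : V) (B : List V) : ∀ A : List V,
    turns p (A ++ r :: s :: B) = turns p (A ++ [r, s]) + turns p (r :: s :: B) := by
  intro A
  induction A with
  | nil => simp [turns]
  | cons a A ih =>
    cases A with
    | nil =>
      simp only [List.cons_append, List.nil_append] at ih ⊢
      rw [turns_cons]
    | cons b A =>
      cases A with
      | nil =>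
        simp only [List.cons_append, List.nil_append] at ih ⊢
        rw [turns_cons, ih, turns_cons p a b r [s]]
        ring
      | cons c A =>
        simp only [List.cons_append] at ih ⊢
        rw [turns_cons, ih, turns_cons p a b c (A ++ [r, s])]
        ring

theorem nb_append (G : SimpleGraph V) (r s : V) (B : List V) : ∀ A : List V,
    NB G (A ++ r :: s :: B) ↔ NB G (A ++ [r, s]) ∧ NB G (r :: s :: B) := by
  intro A
  induction A with
  | nil =>
    simp only [List.nil_append]
    constructor
    · intro h
      refine ⟨?_, h⟩
      cases B with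
      | nil => exact h
      | cons c B => exact ((nb_cons G r s c B).mp h).1.1
    · exact fun h => h.2
  | cons a A ih =>
    cases A with
    | nil =>
      simp only [List.cons_append, List.nil_append] at ih ⊢
      rw [nb_cons, nb_cons, ih]
      tauto
    | cons b A =>
      cases A with
      | nil =>
        simp only [List.cons_append, List.nil_append] at ih ⊢
        rw [nb_cons, ih, nb_cons G a b r [s]]
        tauto
      | cons c A =>
        simp only [List.cons_append] at ih ⊢
        rw [nb_cons, ih, nb_cons G a b c (A ++ [r, s])]
        tauto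

theorem turns_three (p : V → E3) (a b c : V) : turns p [a, b, c] = turns p [c, b, a] := by
  simp only [turns]
  rw [real_inner_comm]

theorem turns_reverse (p : V → E3) : ∀ l : List V, turns p l.reverse = turns p l
  | a :: b :: c :: l => by
    have ih := turns_reverse p (b :: c :: l)
    have e : (a :: b :: c :: l).reverse = l.reverse ++ c :: b :: [a] := by simp
    have e2 : (b :: c :: l).reverse = l.reverse ++ [c, b] := by simp
    rw [e, turns_append, ← e2, ih, turns_cons p a b c l, turns_three p c b a]
    ring
  | [a, b] => by simp [turns]
  | [a] => by simp [turns]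
  | [] => by simp [turns]

theorem nb_three (G : SimpleGraph V) (a b c : V) : NB G [a, b, c] ↔ NB G [c, b, a] := by
  simp only [NB, G.adj_comm a b, G.adj_comm c b, ne_comm (a := a) (b := c)]
  tauto

theorem nb_two (G : SimpleGraph V) (a b : V) : NB G [a, b] ↔ NB G [b, a] := by
  simp only [NB, G.adj_comm a b]

theorem nb_reverse (G : SimpleGraph V) : ∀ l : List V, NB G l.reverse ↔ NB G l
  | a :: b :: c :: l => by
    have ih := nb_reverse G (b :: c :: l)
    have e : (a :: b :: c :: l).reverse = l.reverse ++ c :: b :: [a] := by simp
    have e2 : (b :: c :: l).reverse = l.reverse ++ [c, b] := by simp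
    rw [e, nb_append, ← e2, ih, nb_three G c b a, nb_cons G a b c l]
    constructor
    · rintro ⟨h1, h2⟩
      exact ⟨⟨h2.1, h2.2.1⟩, h1⟩
    · rintro ⟨h1, h2⟩
      refine ⟨h2, h1.1, h1.2, ?_⟩
      cases l with
      | nil => exact h2
      | cons d l => exact ((nb_cons G b c d l).mp h2).1.1
  | [a, b] => by
    have : [a, b].reverse = [b, a] := by simp
    rw [this]
    exact nb_two G b a
  | [a] => by simp [NB]
  | [] => by simp [NB]

/-- cut a list at a given number of turns -/
theorem exists_cut (p : V → E3) : ∀ (m : List V) (k : ℕ), 2 ≤ m.length → k ≤ turns p m →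
    ∃ m1 r s m2, m = m1 ++ r :: s :: m2 ∧ turns p (m1 ++ [r, s]) = k
  | [], k, h, _ => by simp at h
  | [a], k, h, _ => by simp at h
  | [a, b], k, _, h => by
    have : k = 0 := by simpa [turns] using h
    subst this
    exact ⟨[], a, b, [], rfl, by simp [turns]⟩
  | a :: b :: c :: l, k, _, h => by
    rcases Nat.eq_zero_or_pos k with h0 | h0
    · subst h0
      exact ⟨[], a, b, c :: l, rfl, by simp [turns]⟩
    · have ih := exists_cut p (b :: c :: l)
      rw [turns_cons] at h
      have h1 : turns p [a, b, c] ≤ 1 := by
        simp only [turns]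
        split_ifs <;> simp
      obtain ⟨m1, r, s, m2, e1, e2⟩ := ih (k - turns p [a, b, c]) (by simp) (by omega)
      refine ⟨a :: m1, r, s, m2, by rw [e1]; rfl, ?_⟩
      have e3 : turns p (a :: m1 ++ [r, s]) = turns p [a, b, c] + turns p (m1 ++ [r, s]) := by
        cases m1 with
        | nil =>
          simp only [List.nil_append, List.cons.injEq] at e1
          obtain ⟨rfl, rfl, _⟩ := e1
          simp [turns]
        | cons b' m1 =>
          cases m1 with
          | nil =>
            simp only [List.cons_append, List.nil_append, List.cons.injEq] at e1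
            obtain ⟨rfl, rfl, _⟩ := e1
            simp only [List.cons_append, List.nil_append]
            rw [turns_cons]
          | cons c' m1 =>
            simp only [List.cons_append, List.cons.injEq] at e1
            obtain ⟨rfl, rfl, _⟩ := e1
            simp only [List.cons_append]
            rw [turns_cons]
      rw [e3, e2]
      omega

/-- Centre: if no non-backtracking list turns more than four times, there is a link from which
every non-backtracking list turns at most twice. -/
theorem exists_centre {G : SimpleGraph V} (p : V → E3) {a0 b0 : V} (hab : G.Adj a0 b0)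
    (h4 : ∀ l, NB G l → turns p l ≤ 4) :
    ∃ r s, G.Adj r s ∧ (∀ l, NB G (l ++ [r, s]) → turns p (l ++ [r, s]) ≤ 2) ∧
      (∀ l, NB G (l ++ [s, r]) → turns p (l ++ [s, r]) ≤ 2) := by
  classical
  let P : ℕ → Prop := fun k => ∃ m, NB G m ∧ turns p m = k
  have hP0 : P 0 := ⟨[], by simp [NB], by simp [turns]⟩
  set t := Nat.findGreatest P 4 with ht
  have hPt : P t := Nat.findGreatest_spec (Nat.zero_le _) hP0
  have hmax : ∀ l, NB G l → turns p l ≤ t := by
    intro l hl
    exact Nat.le_findGreatest (h4 l hl) ⟨l, hl, rfl⟩
  rcases Nat.lt_or_ge 2 t with h2 | h2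
  · obtain ⟨m, hm, hmt⟩ := hPt
    have hlen : 2 ≤ m.length := by
      by_contra hc
      have : turns p m = 0 := by
        match m, hc with
        | [], _ => simp [turns]
        | [a], _ => simp [turns]
        | a :: b :: l, hc => exact absurd (by simp) hc
      omega
    obtain ⟨m1, r, s, m2, e1, e2⟩ := exists_cut p m 2 hlen (by omega)
    rw [e1, nb_append] at hm
    rw [e1, turns_append, e2] at hmt
    have hrs : G.Adj r s := by
      have h := hm.2
      cases m2 with
      | nil => exact h
      | cons c l => exact ((nb_cons G r s c l).mp h).1.1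
    refine ⟨r, s, hrs, ?_, ?_⟩
    · intro l hl
      have h5 := hmax (l ++ r :: s :: m2) ((nb_append G r s m2 l).mpr ⟨hl, hm.2⟩)
      rw [turns_append] at h5
      have := h4 _ hm.1
      have h6 : t ≤ 4 := Nat.findGreatest_le 4
      omega
    · intro l hl
      have hrev : NB G (s :: r :: m1.reverse) := by
        have := (nb_reverse G (m1 ++ [r, s])).mpr hm.1
        simpa using this
      have hrt : turns p (s :: r :: m1.reverse) = 2 := by
        have := turns_reverse p (m1 ++ [r, s])
        rw [e2] at this
        simpa using this
      have h5 := hmax (l ++ s :: r :: m1.reverse) ((nb_append G s r _ l).mpr ⟨hl, hrev⟩)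
      rw [turns_append, hrt] at h5
      have h6 : t ≤ 4 := Nat.findGreatest_le 4
      omega
  · exact ⟨a0, b0, hab, fun l hl => (hmax _ hl).trans h2, fun l hl => (hmax _ hl).trans h2⟩

end Pool.FS79
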