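import Pool.Agent.H79.FS.Two
import Pool.Agent.H79.FS.Coord
import Pool.Agent.H79.FS.Turns

set_option autoImplicit false

/-! Construction of the spine data. -/

namespace Pool.FS79

open SimpleGraph Set

variable {V : Type*} {G : SimpleGraph V}

/-- Record of the recursion along the tree. -/
structure Rc (V : Type*) where
  lev : ℕ
  foot : V
  rho : V
  L : List V

open Classical in
/-- The step of the recursion. -/
noncomputable def stepf (y : V → ℝ) (r s : V) (u v : V) (D : Rc V) : Rc V :=
  let l' := if (y u = y v ↔ Even D.lev) then D.lev else D.lev + 1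
  { lev := l'
    foot := if l' = 0 then v else D.foot
    rho := if l' ≤ 1 then v else D.rho
    L := if v = s then [s, r] else v :: D.L }

theorem turn_iff {x y x' y' : V → ℝ} {c e f : E3} (hop : (e, f) ∈ OP)
    {u v w : V} (hv : Ax2 x y x' y' u v) (hw : Ax2 x y x' y' u w) :
    inner ℝ (pl c e f x y v - pl c e f x y u) (pl c e f x y w - pl c e f x y u) = 0 ↔
      ¬ (y u = y v ↔ y u = y w) := by
  rw [pl_inner hop]
  rcases hv with ⟨a1, a2, _, _⟩ | ⟨a1, a2, _, _⟩ <;> rcases hw with ⟨b1, b2, _, _⟩ | ⟨b1, b2, _, _⟩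
  · have h1 : x v - x u ≠ 0 := sub_ne_zero.mpr a1.symm
    have h2 : x w - x u ≠ 0 := sub_ne_zero.mpr b1.symm
    constructor
    · intro h
      rw [← a2] at h
      exfalso
      have : (x v - x u) * (x w - x u) = 0 := by linarith
      rcases mul_eq_zero.mp this with h | h
      · exact h1 h
      · exact h2 h
    · intro h
      exact absurd ⟨fun _ => b2, fun _ => a2⟩ h
  · have h2 : y u ≠ y w := b2
    constructor
    · intro _ h
      exact h2 (h.mp a2)
    · intro _
      rw [← a2, ← b1]; ring
  · have h2 : y u ≠ y v := a2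
    constructor
    · intro _ h
      exact h2 (h.mpr b2)
    · intro _
      rw [← b2, ← a1]; ring
  · have h1 : y v - y u ≠ 0 := sub_ne_zero.mpr a2.symm
    have h2 : y w - y u ≠ 0 := sub_ne_zero.mpr b2.symm
    constructor
    · intro h
      rw [← a1] at h
      exfalso
      have : (y v - y u) * (y w - y u) = 0 := by linarith
      rcases mul_eq_zero.mp this with h | h
      · exact h1 h
      · exact h2 h
    · intro h
      exfalso
      exact h ⟨fun h => absurd h a2, fun h => absurd h b2⟩

/-- The list invariant. -/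
theorem list_inv (hG : G.IsTree) {x y x' y' : V → ℝ} {c e f : E3} (hop : (e, f) ∈ OP) {r s : V}
    (hrs : G.Adj r s) (hys : y r = y s) (hA : ∀ a b, G.Adj a b → Ax2 x y x' y' a b)
    (F : V → Rc V) (hF0 : F r = ⟨0, r, r, [r, s]⟩)
    (hF : ∀ u v, G.Adj u v → G.dist r v = G.dist r u + 1 → F v = stepf y r s u v (F u)) :
    ∀ v, ∃ t l, (F v).L = v :: t :: l ∧ NB G (v :: t :: l) ∧
      turns (pl c e f x y) (v :: t :: l) = (F v).lev ∧ G.Adj v t ∧
      (y v = y t ↔ Even (F v).lev) ∧
      ((∃ l0, v :: t :: l = l0 ++ [r, s]) ∨ (∃ l0, v :: t :: l = l0 ++ [s, r])) ∧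
      ((v = r ∧ t = s) ∨ G.dist r v = G.dist r t + 1) := by
  classical
  refine tree_induction hG r (P := fun v => ∃ t l, (F v).L = v :: t :: l ∧ NB G (v :: t :: l) ∧
      turns (pl c e f x y) (v :: t :: l) = (F v).lev ∧ G.Adj v t ∧
      (y v = y t ↔ Even (F v).lev) ∧
      ((∃ l0, v :: t :: l = l0 ++ [r, s]) ∨ (∃ l0, v :: t :: l = l0 ++ [s, r])) ∧
      ((v = r ∧ t = s) ∨ G.dist r v = G.dist r t + 1)) ?_ ?_
  · refine ⟨s, [], by rw [hF0], hrs, by rw [hF0]; simp [turns], hrs, by rw [hF0]; simp [hys],
      Or.inl ⟨[], rfl⟩, Or.inl ⟨rfl, rfl⟩⟩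
  · rintro u v huv hd ⟨t, l, e1, e2, e3, e4, e5, e6, e7⟩
    have hFv := hF u v huv hd
    by_cases hvs : v = s
    · subst hvs
      have hr : u = r := by
        refine parent_unique hG huv hrs hd ?_
        rw [SimpleGraph.dist_self, SimpleGraph.dist_eq_one_iff_adj.mpr hrs]
      subst hr
      have hlev : (F v).lev = 0 := by
        rw [hFv, hF0]
        simp [stepf, hys]
      refine ⟨u, [], ?_, hrs.symm, ?_, hrs.symm, ?_, Or.inr ⟨[], rfl⟩, Or.inr hd⟩
      · rw [hFv]; simp [stepf]
      · rw [hlev]; simp [turns]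
      · rw [hlev]; simp [hys]
    · have hLv : (F v).L = v :: u :: t :: l := by
        rw [hFv]
        show (if v = s then [s, r] else v :: (F u).L) = _
        rw [if_neg hvs, e1]
      have hvt : v ≠ t := by
        rcases e7 with ⟨_, h⟩ | h
        · rw [h]; exact hvs
        · rintro rfl
          omega
      have hlev : (F v).lev = if (y u = y v ↔ Even (F u).lev) then (F u).lev else (F u).lev + 1 := by
        rw [hFv]
        rfl
      have hturn := turn_iff (c := c) hop (hA u v huv) (hA u t e4)
      refine ⟨u, t :: l, hLv, ?_, ?_, huv.symm, ?_, ?_, Or.inr hd⟩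
      · exact (nb_cons G v u t l).mpr ⟨⟨huv.symm, hvt⟩, e2⟩
      · rw [turns_cons, e3, hlev]
        have : turns (pl c e f x y) [v, u, t] =
            if inner ℝ (pl c e f x y v - pl c e f x y u) (pl c e f x y t - pl c e f x y u) = 0
            then 1 else 0 := by
          simp [turns]
        rw [this]
        by_cases hc : (y u = y v ↔ y u = y t)
        · rw [if_neg (fun h => (hturn.mp h) hc), if_pos (hc.trans e5)]
          omega
        · rw [if_pos (hturn.mpr hc), if_neg (fun h => hc (h.trans e5.symm))]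
          omega
      · rw [hlev]
        by_cases hc : (y u = y v ↔ Even (F u).lev)
        · rw [if_pos hc]
          rw [← hc]
          exact eq_comm
        · rw [if_neg hc, Nat.even_add_one]
          have h3 : (y v = y u) ↔ (y u = y v) := eq_comm
          tauto
      · rcases e6 with ⟨l0, h⟩ | ⟨l0, h⟩
        · exact Or.inl ⟨v :: l0, by rw [h]; rfl⟩
        · exact Or.inr ⟨v :: l0, by rw [h]; rfl⟩

/-- The main invariant. -/
structure Inv (x y x' y' e1 e2 : V → ℝ) (F : V → Rc V) (v : V) : Prop where
  i0 : (F v).lev = 0 → (F v).foot = v ∧ y v = 0 ∧ e2 v = 1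
  i1 : (F v).lev ≤ 1 → (F v).rho = v ∧ x v = x (F v).foot ∧ e1 v = e1 (F v).foot
  i2 : (F (F v).foot).lev = 0
  i3 : (F v).lev ≠ 0 → (F (F v).rho).lev = 1 ∧ y v = y (F v).rho ∧ e2 v = e2 (F v).rho
  i4 : x' v = x (F v).foot + e2 (F v).rho * (x v - x (F v).foot)
  i5 : y' v = e1 (F v).foot * y v

theorem inv_all (hG : G.IsTree) {x y x' y' : V → ℝ} {r s : V} (hrs : G.Adj r s)
    (hys : y r = y s) (hyr : y r = 0) (hxr' : x' r = x r) (hyr' : y' r = 0)
    (hxs : x r < x s) (hxs' : x' r < x' s)
    (hA : ∀ a b, G.Adj a b → Ax2 x y x' y' a b)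
    {e1 e2 : V → ℝ}
    (he1 : ∀ u v, G.Adj u v → y u ≠ y v → y' v - y' u = e1 u * (y v - y u))
    (he2s : ∀ u, e2 u = 1 ∨ e2 u = -1)
    (he2 : ∀ u v, G.Adj u v → y u = y v → x' v - x' u = e2 u * (x v - x u))
    (F : V → Rc V) (hF0 : F r = ⟨0, r, r, [r, s]⟩)
    (hF : ∀ u v, G.Adj u v → G.dist r v = G.dist r u + 1 → F v = stepf y r s u v (F u))
    (hlev : ∀ v, (F v).lev ≤ 2) : ∀ v, Inv x y x' y' e1 e2 F v := by
  classical
  refine tree_induction hG r (P := fun v => Inv x y x' y' e1 e2 F v) ?_ ?_
  · have h2 : e2 r = 1 := by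
      have := he2 r s hrs hys
      rcases he2s r with h | h
      · exact h
      · rw [h] at this
        exfalso
        linarith
    have hl : (F r).lev = 0 := by rw [hF0]
    have hf : (F r).foot = r := by rw [hF0]
    have hr : (F r).rho = r := by rw [hF0]
    refine ⟨fun _ => ⟨hf, hyr, h2⟩, fun _ => ⟨hr, by rw [hf], by rw [hf]⟩, by rw [hf, hl],
      fun h => absurd hl h, ?_, ?_⟩
    · rw [hf, hxr']; ring
    · rw [hyr', hyr]; ring
  · intro u v huv hd I
    have hFv := hF u v huv hd
    have hl : (F v).lev = if (y u = y v ↔ Even (F u).lev) then (F u).lev else (F u).lev + 1 := by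
      rw [hFv]; rfl
    have hf : (F v).foot = if (F v).lev = 0 then v else (F u).foot := by
      rw [hFv]; rfl
    have hr : (F v).rho = if (F v).lev ≤ 1 then v else (F u).rho := by
      rw [hFv]; rfl
    have hl2 := hlev v
    have hlu := hlev u
    have hax := hA u v huv
    -- signs along the link
    have sg2 : y u = y v → e2 v = e2 u := by
      intro h
      have h1 := he2 u v huv h
      have h2 := he2 v u huv.symm h.symm
      have h3 : x v - x u ≠ 0 := by
        rcases hax with ⟨a1, _, _, _⟩ | ⟨_, a2, _, _⟩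
        · exact sub_ne_zero.mpr a1.symm
        · exact absurd h a2
      have h4 : e2 v * (x v - x u) = e2 u * (x v - x u) := by linarith
      exact mul_right_cancel₀ h3 h4
    have sg1 : y u ≠ y v → e1 v = e1 u := by
      intro h
      have h1 := he1 u v huv h
      have h2 := he1 v u huv.symm h.symm
      have h3 : y v - y u ≠ 0 := sub_ne_zero.mpr h.symm
      have h4 : e1 v * (y v - y u) = e1 u * (y v - y u) := by linarith
      exact mul_right_cancel₀ h3 h4
    have hxy : y u = y v ∨ (y u ≠ y v ∧ x u = x v ∧ x' u = x' v) := by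
      rcases hax with ⟨_, a2, _, _⟩ | ⟨a1, a2, a3, _⟩
      · exact Or.inl a2
      · exact Or.inr ⟨a2, a1, a3⟩
    have hyy : y u = y v → y' u = y' v := by
      intro h
      rcases hax with ⟨_, _, _, a4⟩ | ⟨_, a2, _, _⟩
      · exact a4
      · exact absurd h a2
    have hcase : ((F v).lev = 0 ∧ (F u).lev = 0 ∧ y u = y v) ∨
        ((F v).lev = 1 ∧ (F u).lev ≤ 1 ∧ y u ≠ y v) ∨
        ((F v).lev = 2 ∧ (F u).lev ≠ 0 ∧ y u = y v) := by
      by_cases hc : (y u = y v ↔ Even (F u).lev)
      · rw [if_pos hc] at hl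
        have h012 : (F u).lev = 0 ∨ (F u).lev = 1 ∨ (F u).lev = 2 := by omega
        rcases h012 with h | h | h
        · left; rw [h] at hl hc; exact ⟨hl, h, by simpa using hc⟩
        · right; left
          rw [h] at hl hc
          refine ⟨hl, by omega, ?_⟩
          intro h'
          have := hc.mp h'
          simp at this
        · right; right
          rw [h] at hl hc
          refine ⟨hl, by omega, hc.mpr (by simp)⟩
      · rw [if_neg hc] at hl
        have h01 : (F u).lev = 0 ∨ (F u).lev = 1 := by omega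
        rcases h01 with h | h
        · right; left
          rw [h] at hl hc
          refine ⟨hl, by omega, ?_⟩
          intro h'
          exact hc ⟨fun _ => by simp, fun _ => h'⟩
        · right; right
          rw [h] at hl hc
          refine ⟨hl, by omega, ?_⟩
          by_contra h'
          exact hc ⟨fun h => absurd h h', fun h => by simp at h⟩
    rcases hcase with ⟨l1, l2, hy⟩ | ⟨l1, l2, hy⟩ | ⟨l1, l2, hy⟩
    · -- on the spine
      rw [l1] at hf hr
      simp only [if_true] at hf
      have hr' : (F v).rho = v := by rw [hr]; simp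
      obtain ⟨j1, j2, j3⟩ := I.i0 l2
      have j4 := I.i1 (by omega)
      have hxu : x' u = x u := by
        have := I.i4
        rw [j1, j4.1, sub_self, mul_zero, add_zero] at this
        exact this
      have hxv : x' v = x v := by
        have := he2 u v huv hy
        rw [j3] at this
        linarith
      refine ⟨fun _ => ⟨hf, by rw [← hy]; exact j2, by rw [sg2 hy]; exact j3⟩,
        fun _ => ⟨hr', by rw [hf], by rw [hf]⟩, by rw [hf, l1], fun h => absurd l1 h, ?_, ?_⟩
      · rw [hf, hxv]; ring
      · rw [← hyy hy, I.i5, j2, ← hy, j2]; ring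
    · -- first level
      have hf' : (F v).foot = (F u).foot := by rw [hf, if_neg (by omega)]
      have hr' : (F v).rho = v := by rw [hr, if_pos (by omega)]
      obtain ⟨j1, j2, j3⟩ := I.i1 l2
      have hxx : x u = x v ∧ x' u = x' v := by
        rcases hxy with h | h
        · exact absurd h hy
        · exact h.2
      refine ⟨fun h => by omega, fun _ => ⟨hr', by rw [hf', ← hxx.1]; exact j2, ?_⟩,
        by rw [hf']; exact I.i2, fun _ => ⟨by rw [hr']; exact l1, by rw [hr'], by rw [hr']⟩, ?_, ?_⟩
      · rw [hf', sg1 hy]; exact j3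
      · have h4 := I.i4
        rw [← j2, sub_self, mul_zero, add_zero] at h4
        rw [hf', ← j2, ← hxx.1, ← hxx.2, h4]; ring
      · rw [hf']
        have h5 := I.i5
        have h6 := he1 u v huv hy
        rw [j3] at h6
        linarith
    · -- second level
      have hf' : (F v).foot = (F u).foot := by rw [hf, if_neg (by omega)]
      have hr' : (F v).rho = (F u).rho := by rw [hr, if_neg (by omega)]
      obtain ⟨j1, j2, j3⟩ := I.i3 l2
      refine ⟨fun h => by omega, fun h => by omega, by rw [hf']; exact I.i2,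
        fun _ => ⟨by rw [hr']; exact j1, by rw [hr', ← hy]; exact j2,
          by rw [hr', sg2 hy]; exact j3⟩, ?_, ?_⟩
      · have h4 := I.i4
        have h6 := he2 u v huv hy
        rw [j3] at h6
        rw [hf', hr']
        linarith
      · rw [hf', ← hyy hy, I.i5, hy]

end Pool.FS79
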