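import Pool.Agent.H79.FS.Rone

set_option autoImplicit false

/-! Half-turns of the parts hanging at the vertices of one segment. -/

namespace Pool.FS79

open SimpleGraph Set

variable {V : Type*} {G : SimpleGraph V}

/-- A segment (abscissa `a`), with parts hanging on it; each part is kept (`S = 1`) or turned by a
half-turn in the plane (`S = -1`). -/
structure Hang (G : SimpleGraph V) (a h y S : V → ℝ) : Prop where
  sgn : ∀ v, S v = 1 ∨ S v = -1
  dep : ∀ u v, a u = a v → S u = S v
  edge : ∀ u v, G.Adj u v → (h u = 0 ∧ h v = 0 ∧ y u = 0 ∧ y v = 0) ∨ a u = a v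
  perp : ∀ u v w, G.Adj u v → G.Adj u w → a u ≠ a v → a u = a w → h w = 0

theorem rotation_inv {b h b' h' c s : ℝ} (hcs : s ^ 2 + c ^ 2 = 1)
    (h1 : b * c - h * s = b' * c - h' * s) (h2 : b * s + h * c = b' * s + h' * c) :
    b = b' ∧ h = h' := by
  constructor
  · have : (b - b') * (s ^ 2 + c ^ 2) = 0 := by linear_combination c * h1 + s * h2
    rw [hcs, mul_one] at this
    linarith
  · have : (h - h') * (s ^ 2 + c ^ 2) = 0 := by linear_combination c * h2 - s * h1
    rw [hcs, mul_one] at this
    linarith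

namespace Hang

variable {a h y S : V → ℝ}

theorem cases (D : Hang G a h y S) (u v : V) (huv : G.Adj u v) :
    (h u = 0 ∧ h v = 0 ∧ y u = 0 ∧ y v = 0 ∧ a u ≠ a v) ∨ a u = a v := by
  by_cases ha : a u = a v
  · exact Or.inr ha
  · rcases D.edge u v huv with ⟨h1, h2, h3, h4⟩ | h1
    · exact Or.inl ⟨h1, h2, h3, h4, ha⟩
    · exact absurd h1 ha

/-- folding about the segment, for the state with signs `σ` -/
theorem fold (D : Hang G a h y S) (σ : V → ℝ) (hσ : ∀ v, σ v = 1 ∨ σ v = -1)
    (hσa : ∀ u v, a u = a v → σ u = σ v)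
    (hp : (fun v => (a v + σ v * h v, σ v * y v, (0:ℝ))) ∈ CF G (fun v => a v + h v) y) :
    JoinedIn (CF G (fun v => a v + h v) y)
      (fun v => (a v + σ v * h v, σ v * y v, (0:ℝ))) (fun v => (a v, σ v * y v, σ v * h v)) := by
  let F : ℝ → V → ℝ × ℝ × ℝ := fun t v =>
    (a v + σ v * h v * Real.cos t, σ v * y v, σ v * h v * Real.sin t)
  have hpi := Real.pi_pos
  have j : JoinedIn (CF G (fun v => a v + h v) y) (F 0) (F (Real.pi / 2)) := by
    refine joined_path F (fun v => by simp only [F]; fun_prop) (by linarith) ?_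
    intro t ht
    refine ⟨?_, ?_⟩
    · intro u v w huv huw
      have hcs := Real.sin_sq_add_cos_sq t
      simp only [F]
      have e1 : σ u ^ 2 = 1 := by rcases hσ u with h | h <;> rw [h] <;> norm_num
      rcases D.cases u v huv with ⟨a1, a2, a3, a4, a5⟩ | a1 <;>
        rcases D.cases u w huw with ⟨b1, b2, b3, b4, b5⟩ | b1
      · simp only [a1, a2, a3, a4, b2, b4]; ring
      · have := D.perp u v w huv huw a5 b1
        simp only [a1, a2, a3, a4, this, ← b1]; ring
      · have := D.perp u w v huw huv b5 a1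
        simp only [b1, b2, b3, b4, this, ← a1]; ring
      · rw [← hσa u v a1, ← hσa u w b1, ← a1, ← b1]
        linear_combination (h v - h u) * (h w - h u) * σ u ^ 2 * hcs +
          ((h v - h u) * (h w - h u) + (y v - y u) * (y w - y u)) * e1
    · intro u v u' v' huv huv' hne s s' hs hs' hX hY hZ
      simp only [F] at hX hY hZ
      rw [lv_comb, lv_comb] at hX
      rw [lv_mul, lv_mul] at hZ
      refine hp.2 u v u' v' huv huv' hne s s' hs hs' ?_ hY (by simp [Lv])
      show Lv (fun v => a v + σ v * h v) u v s = Lv (fun v => a v + σ v * h v) u' v' s'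
      rw [lv_add, lv_add]
      rcases eq_or_lt_of_le ht.1 with h1 | h1
      · subst h1
        rw [Real.cos_zero] at hX
        linarith
      · have hsin : Real.sin t ≠ 0 :=
          (Real.sin_pos_of_pos_of_lt_pi h1 (by linarith [ht.2])).ne'
        have := mul_right_cancel₀ hsin hZ
        rw [this] at hX ⊢
        linarith
  have e0 : F 0 = fun v => (a v + σ v * h v, σ v * y v, (0:ℝ)) := by
    funext v; simp [F]
  have e1 : F (Real.pi / 2) = fun v => (a v, σ v * y v, σ v * h v) := by
    funext v; simp [F]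
  rw [e0, e1] at j
  exact j

theorem lvrot (D : Hang G a h y S) (t : ℝ) (u v : V) (huv : G.Adj u v) (s : ℝ) :
    (Lv (fun v => y v * Real.cos ((1 - S v) / 2 * t) - h v * Real.sin ((1 - S v) / 2 * t)) u v s =
        Lv y u v s * Real.cos ((1 - S u) / 2 * t) - Lv h u v s * Real.sin ((1 - S u) / 2 * t)) ∧
      (Lv (fun v => y v * Real.sin ((1 - S v) / 2 * t) + h v * Real.cos ((1 - S v) / 2 * t)) u v s =
        Lv y u v s * Real.sin ((1 - S u) / 2 * t) + Lv h u v s * Real.cos ((1 - S u) / 2 * t)) ∧
      ((Lv y u v s = 0 ∧ Lv h u v s = 0) ∨ Lv a u v s = a u) := by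
  rcases D.cases u v huv with ⟨a1, a2, a3, a4, a5⟩ | a1
  · refine ⟨?_, ?_, Or.inl ⟨?_, ?_⟩⟩
    · simp only [Lv, a1, a2, a3, a4]; simp
    · simp only [Lv, a1, a2, a3, a4]; simp
    · simp only [Lv, a3, a4]; simp
    · simp only [Lv, a1, a2]; simp
  · have hS := D.dep u v a1
    refine ⟨?_, ?_, Or.inr ?_⟩
    · simp only [Lv, ← hS]; ring
    · simp only [Lv, ← hS]; ring
    · simp only [Lv, ← a1]; ring

theorem joined (D : Hang G a h y S)
    (hp : (fun v => (a v + h v, y v, (0:ℝ))) ∈ CF G (fun v => a v + h v) y)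
    (hq : (fun v => (a v + S v * h v, S v * y v, (0:ℝ))) ∈ CF G (fun v => a v + h v) y) :
    JoinedIn (CF G (fun v => a v + h v) y)
      (fun v => (a v + h v, y v, (0:ℝ))) (fun v => (a v + S v * h v, S v * y v, (0:ℝ))) := by
  have hpi := Real.pi_pos
  have j1 := D.fold (fun _ => 1) (fun _ => Or.inl rfl) (fun _ _ _ => rfl) (by simpa using hp)
  have j3 := D.fold S D.sgn D.dep hq
  simp only [one_mul] at j1
  let F : ℝ → V → ℝ × ℝ × ℝ := fun t v =>
    (a v, y v * Real.cos ((1 - S v) / 2 * t) - h v * Real.sin ((1 - S v) / 2 * t),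
      y v * Real.sin ((1 - S v) / 2 * t) + h v * Real.cos ((1 - S v) / 2 * t))
  have hmem0 := j1.target_mem
  have j2 : JoinedIn (CF G (fun v => a v + h v) y) (F 0) (F Real.pi) := by
    refine joined_path F (fun v => by simp only [F]; fun_prop) hpi.le ?_
    intro t _
    refine ⟨?_, ?_⟩
    · intro u v w huv huw
      have hcs := Real.sin_sq_add_cos_sq ((1 - S u) / 2 * t)
      simp only [F]
      rcases D.cases u v huv with ⟨a1, a2, a3, a4, a5⟩ | a1 <;>
        rcases D.cases u w huw with ⟨b1, b2, b3, b4, b5⟩ | b1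
      · simp only [a1, a2, a3, a4, b2, b4]; ring
      · have := D.perp u v w huv huw a5 b1
        simp only [a1, a2, a3, a4, this, ← b1]; ring
      · have := D.perp u w v huw huv b5 a1
        simp only [b1, b2, b3, b4, this, ← a1]; ring
      · rw [← D.dep u v a1, ← D.dep u w b1, ← a1, ← b1]
        linear_combination ((h v - h u) * (h w - h u) + (y v - y u) * (y w - y u)) * hcs
    · intro u v u' v' huv huv' hne s s' hs hs' hX hY hZ
      obtain ⟨e1, e2, e3⟩ := D.lvrot t u v huv s
      obtain ⟨e1', e2', e3'⟩ := D.lvrot t u' v' huv' s'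
      simp only [F] at hX hY hZ
      rw [e1, e1'] at hY
      rw [e2, e2'] at hZ
      have hX' : Lv a u v s = Lv a u' v' s' := hX
      have hbh : Lv y u v s = Lv y u' v' s' ∧ Lv h u v s = Lv h u' v' s' := by
        rcases e3 with ⟨z1, z2⟩ | z2
        · rw [z1, z2] at hY hZ
          have := rotation_inv (b := 0) (h := 0) (b' := Lv y u' v' s') (h' := Lv h u' v' s')
            (Real.sin_sq_add_cos_sq ((1 - S u') / 2 * t)) (by linarith) (by linarith)
          rw [z1, z2]
          exact this
        · rcases e3' with ⟨w1, w2⟩ | w2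
          · rw [w1, w2] at hY hZ
            have := rotation_inv (b := Lv y u v s) (h := Lv h u v s) (b' := 0) (h' := 0)
              (Real.sin_sq_add_cos_sq ((1 - S u) / 2 * t)) (by linarith) (by linarith)
            rw [w1, w2]
            exact this
          · have hf : S u = S u' := D.dep u u' (by rw [← z2, ← w2]; exact hX')
            rw [← hf] at hY hZ
            exact rotation_inv (Real.sin_sq_add_cos_sq _) hY hZ
      exact hmem0.2 u v u' v' huv huv' hne s s' hs hs' hX' hbh.1 hbh.2
  have f0 : F 0 = fun v => (a v, y v, h v) := by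
    funext v; simp [F]
  have f1 : F Real.pi = fun v => (a v, S v * y v, S v * h v) := by
    funext v
    rcases D.sgn v with h | h
    · simp [F, h]
    · simp [F, h]
  rw [f0, f1] at j2
  exact (j1.trans j2).trans j3.symm

end Hang

end Pool.FS79
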