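import Pool.Agent.H79.FS.Leaf
import Pool.Agent.H79.FS.Coord

set_option autoImplicit false

/-! The leaf theorem for trees. -/

namespace Pool.FS79

open SimpleGraph Set

variable {V : Type*} {G : SimpleGraph V}

theorem vertex_inj {X Y : V → ℝ} (hS : Sep G X Y (fun _ => 0))
    (hnd : ∀ a b, G.Adj a b → ¬ (X a = X b ∧ Y a = Y b)) (hnb : ∀ w, ∃ w', G.Adj w w') :
    ∀ u v, X u = X v → Y u = Y v → u = v := by
  intro u v h1 h2
  by_contra hne
  obtain ⟨u', hu'⟩ := hnb u
  obtain ⟨v', hv'⟩ := hnb v
  by_cases hs : (u = v ∧ u' = v') ∨ (u = v' ∧ u' = v)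
  · rcases hs with ⟨h, _⟩ | ⟨_, h⟩
    · exact hne h
    · rw [h] at hu'
      exact hnd u v hu' ⟨h1, h2⟩
  · obtain ⟨w, w1, w2⟩ := hS u u' v v' hu' hv' hs 0 0 ⟨le_refl _, zero_le_one⟩
        ⟨le_refl _, zero_le_one⟩ (by simp [Lv, h1]) (by simp [Lv, h2]) (by simp [Lv])
    have a1 : w = u := by
      rcases w1 with ⟨h, _⟩ | ⟨_, h⟩
      · exact h
      · exact absurd h (by norm_num)
    have a2 : w = v := by
      rcases w2 with ⟨h, _⟩ | ⟨_, h⟩
      · exact h
      · exact absurd h (by norm_num)
    exact hne (a1.symm.trans a2)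

/-- In a tree, a connected vertex set containing the root is closed under parents. -/
theorem parent_mem (hG : G.IsTree) {C : Set V} (hC : (G.induce C).Preconnected) {r : V}
    (hr : r ∈ C) {u v : V} (hv : v ∈ C) (huv : G.Adj u v) (hd : G.dist r v = G.dist r u + 1) :
    u ∈ C := by
  obtain ⟨w, hw⟩ := (hC ⟨r, hr⟩ ⟨v, hv⟩).exists_isPath
  obtain ⟨p, hp⟩ := (hG.connected r u).exists_walk_length_eq_dist
  have h1 : (p.concat huv).length = G.dist r v := by rw [Walk.length_concat, hp, hd]
  have h2 : (p.concat huv).IsPath := Walk.isPath_of_length_eq_dist _ h1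
  let φ : G.induce C →g G := (Embedding.induce C).toHom
  have hφ : Function.Injective φ := fun a b h => Subtype.ext h
  let q : G.Walk r v := w.map φ
  have h3 : q.IsPath := (Walk.isPath_map_iff_of_injective hφ).mpr hw
  have h4 : q = p.concat huv := (hG.existsUnique_path r v).unique h3 h2
  have h5 : u ∈ q.support := by
    rw [h4, Walk.support_concat]
    simp
  have h6 : q.support = w.support.map φ := Walk.support_map φ w
  rw [h6, List.mem_map] at h5
  obtain ⟨z, _, hz⟩ := h5
  rw [← hz]
  exact z.2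

/-- data of the two flat states for the leaf theorem -/
structure LData (G : SimpleGraph V) (C : Set V) (x y x' y' : V → ℝ) (r s : V) : Prop where
  rC : r ∈ C
  sC : s ∈ C
  rs : G.Adj r s
  conn : (G.induce C).Preconnected
  ax : ∀ a b, G.Adj a b → Ax2 x y x' y' a b
  core : ∀ a b c, G.Adj b a → G.Adj b c → a ∈ C → b ∈ C → c ∉ C → ¬ (y b = y a ↔ y b = y c)
  out : ∀ a b c, G.Adj b a → G.Adj b c → b ∉ C → (y b = y a ↔ y b = y c)
  hx : ∀ v ∈ C, x' v = x v
  hy : ∀ v ∈ C, y' v = y v

theorem leaf_main (hG : G.IsTree) {C : Set V} {x y x' y' : V → ℝ} {r s : V}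
    (L : LData G C x y x' y' r s)
    (hp : (fun v => (x v, y v, (0:ℝ))) ∈ CF G x y)
    (hq : (fun v => (x' v, y' v, (0:ℝ))) ∈ CF G x y) :
    JoinedIn (CF G x y) (fun v => (x v, y v, (0:ℝ))) (fun v => (x' v, y' v, (0:ℝ))) := by
  classical
  obtain ⟨F, hF0, hF⟩ := exists_rec hG r r (fun _ v D => if v ∈ C then v else D)
  have hin := hq.1
  simp only at hin
  obtain ⟨e1, he1s, he1'⟩ := sign_exists (x := y) (x' := y') (fun u v => G.Adj u v ∧ y u ≠ y v)
    (by
      rintro u v ⟨huv, hne⟩
      have h := hin u v v huv huv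
      rcases L.ax u v huv with ⟨_, a2, _, _⟩ | ⟨a1, _, a3, _⟩
      · exact absurd a2 hne
      · rw [← a1, ← a3] at h
        nlinarith)
    (by
      rintro u v ⟨_, hne⟩
      exact sub_ne_zero.mpr hne.symm)
    (by
      rintro u v w ⟨huv, hne⟩ ⟨huw, hne'⟩
      have h := hin u v w huv huw
      rcases L.ax u v huv with ⟨_, a2, _, _⟩ | ⟨a1, _, a3, _⟩
      · exact absurd a2 hne
      · rw [← a1, ← a3] at h
        linarith)
  obtain ⟨e2, he2s, he2'⟩ := sign_exists (x := x) (x' := x') (fun u v => G.Adj u v ∧ y u = y v)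
    (by
      rintro u v ⟨huv, hne⟩
      have h := hin u v v huv huv
      rcases L.ax u v huv with ⟨_, a2, _, a4⟩ | ⟨_, a2, _, _⟩
      · rw [← a2, ← a4] at h
        nlinarith
      · exact absurd hne a2)
    (by
      rintro u v ⟨huv, hne⟩
      rcases L.ax u v huv with ⟨a1, a2, _, a4⟩ | ⟨_, a2, _, _⟩
      · exact sub_ne_zero.mpr a1.symm
      · exact absurd hne a2)
    (by
      rintro u v w ⟨huv, hne⟩ ⟨huw, hne'⟩
      have h := hin u v w huv huw
      rcases L.ax u v huv with ⟨_, a2, _, a4⟩ | ⟨_, a2, _, _⟩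
      · rw [← a2, ← a4] at h
        linarith
      · exact absurd hne a2)
  have he1 : ∀ u v, G.Adj u v → y u ≠ y v → y' v - y' u = e1 u * (y v - y u) :=
    fun u v h h' => he1' u v ⟨h, h'⟩
  have he2 : ∀ u v, G.Adj u v → y u = y v → x' v - x' u = e2 u * (x v - x u) :=
    fun u v h h' => he2' u v ⟨h, h'⟩
  have hFC : ∀ v, v ∈ C → F v = v := by
    refine tree_induction hG r (P := fun v => v ∈ C → F v = v) (fun _ => hF0) ?_
    intro u v huv hd _ hv
    rw [hF u v huv hd, if_pos hv]
  have hFm : ∀ v, F v ∈ C := by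
    refine tree_induction hG r (P := fun v => F v ∈ C) (by rw [hF0]; exact L.rC) ?_
    intro u v huv hd ih
    rw [hF u v huv hd]
    split_ifs with h
    · exact h
    · exact ih
  have hFF : ∀ v, F (F v) = F v := fun v => hFC _ (hFm v)
  have hFstep : ∀ u v, G.Adj u v → G.dist r v = G.dist r u + 1 → v ∉ C → F v = F u := by
    intro u v huv hd hv
    rw [hF u v huv hd, if_neg hv]
  set hor0 : V → Prop := fun f => ∃ g ∈ C, G.Adj f g ∧ y f ≠ y g with hhor0
  -- every core vertex has a core neighbour
  have hcn : ∀ v ∈ C, ∃ g ∈ C, G.Adj v g := by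
    intro v hv
    by_cases h : v = r
    · exact ⟨s, L.sC, h ▸ L.rs⟩
    · obtain ⟨u, hu, hd⟩ := exists_parent hG h
      exact ⟨u, parent_mem hG L.conn L.rC hv hu hd, hu.symm⟩
  -- signs along a link
  have sg2 : ∀ u v, G.Adj u v → y u = y v → e2 v = e2 u := by
    intro u v huv h
    have h1 := he2 u v huv h
    have h2 := he2 v u huv.symm h.symm
    have h3 : x v - x u ≠ 0 := by
      rcases L.ax u v huv with ⟨a1, _, _, _⟩ | ⟨_, a2, _, _⟩
      · exact sub_ne_zero.mpr a1.symm
      · exact absurd h a2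
    have h4 : e2 v * (x v - x u) = e2 u * (x v - x u) := by linarith
    exact mul_right_cancel₀ h3 h4
  have sg1 : ∀ u v, G.Adj u v → y u ≠ y v → e1 v = e1 u := by
    intro u v huv h
    have h1 := he1 u v huv h
    have h2 := he1 v u huv.symm h.symm
    have h3 : y v - y u ≠ 0 := sub_ne_zero.mpr h.symm
    have h4 : e1 v * (y v - y u) = e1 u * (y v - y u) := by linarith
    exact mul_right_cancel₀ h3 h4
  -- invariant outside the core
  have inv : ∀ v, v ∉ C →
      (∀ t, G.Adj t v → G.dist r v = G.dist r t + 1 →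
        ((hor0 (F v) → y t = y v) ∧ (¬ hor0 (F v) → y t ≠ y v))) ∧
      (hor0 (F v) → y v = y (F v) ∧ e2 v = e2 (F v) ∧ y' v = y (F v) ∧
        x' v = x (F v) + e2 (F v) * (x v - x (F v))) ∧
      (¬ hor0 (F v) → x v = x (F v) ∧ e1 v = e1 (F v) ∧ x' v = x (F v) ∧
        y' v = y (F v) + e1 (F v) * (y v - y (F v))) := by
    refine tree_induction hG r (P := fun v => v ∉ C →
      (∀ t, G.Adj t v → G.dist r v = G.dist r t + 1 →
        ((hor0 (F v) → y t = y v) ∧ (¬ hor0 (F v) → y t ≠ y v))) ∧
      (hor0 (F v) → y v = y (F v) ∧ e2 v = e2 (F v) ∧ y' v = y (F v) ∧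
        x' v = x (F v) + e2 (F v) * (x v - x (F v))) ∧
      (¬ hor0 (F v) → x v = x (F v) ∧ e1 v = e1 (F v) ∧ x' v = x (F v) ∧
        y' v = y (F v) + e1 (F v) * (y v - y (F v)))) (fun h => absurd L.rC h) ?_
    intro u v huv hd ih hv
    have hFv := hFstep u v huv hd hv
    have hax := L.ax u v huv
    -- type of the link `u v`
    have ty : (hor0 (F v) → y u = y v) ∧ (¬ hor0 (F v) → y u ≠ y v) := by
      rw [hFv]
      by_cases hu : u ∈ C
      · rw [hFC u hu]
        constructor
        · rintro ⟨g, hg, hug, hne⟩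
          have := L.core g u v hug huv hg hu hv
          by_contra hc
          exact this ⟨fun h => absurd h hne, fun h => absurd h hc⟩
        · intro hno
          obtain ⟨g, hg, hug⟩ := hcn u hu
          have hgh : y u = y g := by
            by_contra hc
            exact hno ⟨g, hg, hug, hc⟩
          have := L.core g u v hug huv hg hu hv
          intro hc
          exact this ⟨fun _ => hc, fun _ => hgh⟩
      · have hur : u ≠ r := fun h => hu (h ▸ L.rC)
        obtain ⟨t, ht, htd⟩ := exists_parent hG hur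
        obtain ⟨i1, _, _⟩ := ih hu
        have i1' := i1 t ht htd
        have ho := L.out t u v ht.symm huv hu
        constructor
        · intro h
          exact ho.mp (i1'.1 h).symm
        · intro h h'
          exact (i1'.2 h) (ho.mpr h').symm
    refine ⟨?_, ?_, ?_⟩
    · intro t ht htd
      have : t = u := parent_unique hG ht huv htd hd
      rw [this]
      exact ty
    · intro hh
      have hyuv := ty.1 hh
      have hy'uv : y' u = y' v := by
        rcases hax with ⟨_, _, _, a4⟩ | ⟨_, a2, _, _⟩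
        · exact a4
        · exact absurd hyuv a2
      have h6 := he2 u v huv hyuv
      rw [hFv] at hh ⊢
      by_cases hu : u ∈ C
      · rw [hFC u hu]
        rw [L.hx u hu] at h6
        refine ⟨hyuv.symm, sg2 u v huv hyuv, by rw [← hy'uv, L.hy u hu], by linarith⟩
      · obtain ⟨_, i2, _⟩ := ih hu
        obtain ⟨j1, j2, j3, j4⟩ := i2 hh
        refine ⟨hyuv.symm.trans j1, (sg2 u v huv hyuv).trans j2, hy'uv.symm.trans j3, ?_⟩
        rw [j2] at h6
        linarith
    · intro hh
      have hyuv := ty.2 hh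
      have hxuv : x u = x v ∧ x' u = x' v := by
        rcases hax with ⟨_, a2, _, _⟩ | ⟨a1, _, a3, _⟩
        · exact absurd a2 hyuv
        · exact ⟨a1, a3⟩
      have h6 := he1 u v huv hyuv
      rw [hFv] at hh ⊢
      by_cases hu : u ∈ C
      · rw [hFC u hu]
        rw [L.hy u hu] at h6
        refine ⟨hxuv.1.symm, sg1 u v huv hyuv, by rw [← hxuv.2, L.hx u hu], by linarith⟩
      · obtain ⟨_, _, i3⟩ := ih hu
        obtain ⟨j1, j2, j3, j4⟩ := i3 hh
        refine ⟨hxuv.1.symm.trans j1, (sg1 u v huv hyuv).trans j2, hxuv.2.symm.trans j3, ?_⟩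
        rw [j2] at h6
        linarith
  -- the orientation of the links
  have orient : ∀ a b, G.Adj a b → G.dist r b = G.dist r a + 1 →
      (F a = a ∧ F b = b ∧ a ∈ C ∧ b ∈ C) ∨ (F a = F b ∧ b ∉ C) := by
    intro a b hab hd
    by_cases hb : b ∈ C
    · have ha := parent_mem hG L.conn L.rC hb hab hd
      exact Or.inl ⟨hFC a ha, hFC b hb, ha, hb⟩
    · exact Or.inr ⟨(hFstep a b hab hd hb).symm, hb⟩
  have edge0 : ∀ a b, G.Adj a b → (F a = a ∧ F b = b) ∨ F a = F b := by
    intro a b hab
    rcases hG.dist_eq_dist_add_one_of_adj r hab with hd | hd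
    · rcases orient b a hab.symm hd with h | h
      · exact Or.inl ⟨h.2.1, h.1⟩
      · exact Or.inr h.1.symm
    · rcases orient a b hab hd with h | h
      · exact Or.inl ⟨h.1, h.2.1⟩
      · exact Or.inr h.1
  have hFid : ∀ a, F a = a → a ∈ C := fun a h => h ▸ hFm a
  have hxz : ∀ v, ¬ hor0 (F v) → x v - x (F v) = 0 := by
    intro v h
    by_cases hv : v ∈ C
    · rw [hFC v hv, sub_self]
    · rw [((inv v hv).2.2 h).1, sub_self]
  have hyz : ∀ v, hor0 (F v) → y v - y (F v) = 0 := by
    intro v h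
    by_cases hv : v ∈ C
    · rw [hFC v hv, sub_self]
    · rw [((inv v hv).2.1 h).1, sub_self]
  -- intermediate points
  have hint : ∀ v, v ∉ C → ∀ τ ∈ uIcc 0 ((x v - x (F v)) + (y v - y (F v))),
      ∃ c d μ, G.Adj c d ∧ μ ∈ Icc (0:ℝ) 1 ∧ F c = F v ∧ F d = F v ∧
        Lv (fun v => (x v - x (F v)) + (y v - y (F v))) c d μ = τ := by
    refine tree_induction hG r (P := fun v => v ∉ C →
      ∀ τ ∈ uIcc 0 ((x v - x (F v)) + (y v - y (F v))),
      ∃ c d μ, G.Adj c d ∧ μ ∈ Icc (0:ℝ) 1 ∧ F c = F v ∧ F d = F v ∧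
        Lv (fun v => (x v - x (F v)) + (y v - y (F v))) c d μ = τ) (fun h => absurd L.rC h) ?_
    intro u v huv hd ih hv τ hτ
    have hFv := hFstep u v huv hd hv
    set mu := (x u - x (F u)) + (y u - y (F u)) with hmu
    set mv := (x v - x (F v)) + (y v - y (F v)) with hmv
    have hne : mv - mu ≠ 0 := by
      have hax := L.ax u v huv
      obtain ⟨i1, _, _⟩ := inv v hv
      have i1' := i1 u huv hd
      by_cases hh : hor0 (F v)
      · have h1 := hyz v hh
        have h2 := hyz u (hFv ▸ hh)
        rw [hmv, hmu, h1, h2, hFv]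
        rcases hax with ⟨a1, _, _, _⟩ | ⟨_, a2, _, _⟩
        · intro h
          exact a1 (by linarith)
        · exact absurd (i1'.1 hh) a2
      · have h1 := hxz v hh
        have h2 := hxz u (hFv ▸ hh)
        rw [hmv, hmu, h1, h2, hFv]
        intro h
        exact i1'.2 hh (by linarith)
    have new : τ ∈ uIcc mu mv → ∃ c d μ, G.Adj c d ∧ μ ∈ Icc (0:ℝ) 1 ∧ F c = F v ∧ F d = F v ∧
        Lv (fun v => (x v - x (F v)) + (y v - y (F v))) c d μ = τ := by
      intro hm
      refine ⟨u, v, (τ - mu) / (mv - mu), huv, ?_, hFv.symm, rfl, ?_⟩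
      · rcases le_total mu mv with hle | hle
        · rw [uIcc_of_le hle] at hm
          have hpos : 0 < mv - mu := lt_of_le_of_ne (by linarith) hne.symm
          constructor
          · exact div_nonneg (by linarith [hm.1]) hpos.le
          · rw [div_le_one hpos]; linarith [hm.2]
        · rw [uIcc_of_ge hle] at hm
          have hneg : mv - mu < 0 := lt_of_le_of_ne (by linarith) hne
          constructor
          · exact div_nonneg_of_nonpos (by linarith [hm.2]) hneg.le
          · rw [div_le_one_of_neg hneg]; linarith [hm.1]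
      · show (1 - (τ - mu) / (mv - mu)) * mu + (τ - mu) / (mv - mu) * mv = τ
        field_simp
        ring
    by_cases hu : u ∈ C
    · apply new
      have : mu = 0 := by rw [hmu, hFC u hu]; ring
      rw [this]
      exact hτ
    · rcases uIcc_subset_uIcc_union_uIcc (a := (0:ℝ)) (b := mu) hτ with h | h
      · obtain ⟨c, d, μ, g1, g2, g3, g4, g5⟩ := ih hu τ h
        exact ⟨c, d, μ, g1, g2, g3.trans hFv.symm, g4.trans hFv.symm, g5⟩
      · exact new h
  have mk : ∀ dl : V → ℝ, (∀ v, dl v = 1 ∨ dl v = -1) → (∀ v, dl v = dl (F v)) →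
      ∃ D : Teeth G, D.fx = (fun v => x (F v)) ∧ D.fy = (fun v => y (F v)) ∧
        D.u = (fun v => x v - x (F v)) ∧ D.w = (fun v => y v - y (F v)) ∧ D.δ = dl := by
    intro dl hdl hdF
    refine ⟨{ fx := fun v => x (F v)
              fy := fun v => y (F v)
              u := fun v => x v - x (F v)
              w := fun v => y v - y (F v)
              δ := dl
              foot := F
              hor := fun v => hor0 (F v)
              hδ := hdl
              hu := fun v h => hxz v h
              hw := fun v h => hyz v h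
              foot_fx := fun v => by rw [hFF]
              foot_fy := fun v => by rw [hFF]
              foot_δ := hdF
              foot_hor := fun v => by rw [hFF]
              foot_u := fun v => by rw [hFF, sub_self]
              foot_w := fun v => by rw [hFF, sub_self]
              edge := edge0
              perp := ?_
              int := ?_ }, rfl, rfl, rfl, rfl, rfl⟩
    · intro a b c hab hac ha hb hac'
      have haC := hFid a ha
      have hbC := hFid b hb
      have hcC : c ∉ C := by
        intro h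
        have h1 := hFC c h
        rw [ha, h1] at hac'
        exact hac.ne hac'
      have hco := L.core b a c hab hac hbC haC hcC
      have hd : G.dist r c = G.dist r a + 1 := by
        rcases hG.dist_eq_dist_add_one_of_adj r hac with hd | hd
        · exact absurd (parent_mem hG L.conn L.rC haC hac.symm hd) hcC
        · exact hd
      have i1 := (inv c hcC).1 a hac hd
      rw [← hac'] at i1
      show (hor0 (F a) → x (F a) = x (F b)) ∧ (¬ hor0 (F a) → y (F a) = y (F b))
      constructor
      · intro h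
        have h1 := i1.1 h
        rw [ha, hb]
        rcases L.ax a b hab with ⟨_, a2, _, _⟩ | ⟨a1, _, _, _⟩
        · exact absurd ⟨fun _ => h1, fun _ => a2⟩ hco
        · exact a1
      · intro h
        have h1 := i1.2 h
        rw [ha, hb]
        by_contra hc
        exact hco ⟨fun h => absurd h hc, fun h => absurd h h1⟩
    · intro a b hab hfab τ hτ
      have key : ∀ a, τ ∈ uIcc 0 ((x a - x (F a)) + (y a - y (F a))) → a ∉ C →
          ∃ c d μ, G.Adj c d ∧ μ ∈ Icc (0:ℝ) 1 ∧ F c = F a ∧ F d = F a ∧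
          Lv (fun v => (x v - x (F v)) + (y v - y (F v))) c d μ = τ := fun a h h' =>
        hint a h' τ h
      have hz : ∀ a, a ∈ C → τ ∈ uIcc 0 ((x a - x (F a)) + (y a - y (F a))) → τ = 0 := by
        intro a ha h
        rw [hFC a ha, sub_self, sub_self, add_zero, uIcc_self] at h
        exact h
      have hnot : a ∉ C ∨ b ∉ C := by
        by_contra hc
        push Not at hc
        rw [hFC a hc.1, hFC b hc.2] at hfab
        exact hab.ne hfab
      show ∃ c d μ, G.Adj c d ∧ μ ∈ Icc (0:ℝ) 1 ∧ F c = F a ∧ F d = F a ∧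
          Lv (fun v => (x v - x (F v)) + (y v - y (F v))) c d μ = τ
      have tob : ∀ h : b ∉ C, τ ∈ uIcc 0 ((x b - x (F b)) + (y b - y (F b))) →
          ∃ c d μ, G.Adj c d ∧ μ ∈ Icc (0:ℝ) 1 ∧ F c = F a ∧ F d = F a ∧
          Lv (fun v => (x v - x (F v)) + (y v - y (F v))) c d μ = τ := by
        intro h hτ
        obtain ⟨c, d, μ, g1, g2, g3, g4, g5⟩ := key b hτ h
        exact ⟨c, d, μ, g1, g2, g3.trans hfab.symm, g4.trans hfab.symm, g5⟩
      rcases hτ with hτ | hτ
      · by_cases ha : a ∈ C
        · have h0 := hz a ha hτ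
          have hb : b ∉ C := hnot.resolve_left (fun h => h ha)
          exact tob hb (h0 ▸ left_mem_uIcc)
        · exact key a hτ ha
      · by_cases hb : b ∈ C
        · have h0 := hz b hb hτ
          have ha : a ∉ C := hnot.resolve_right (fun h => h hb)
          exact key a (h0 ▸ left_mem_uIcc) ha
        · exact tob hb hτ
  have hnb : ∀ w : V, ∃ w', G.Adj w w' := by
    intro w
    by_cases h : w = r
    · exact ⟨s, h ▸ L.rs⟩
    · obtain ⟨u, hu, _⟩ := exists_parent hG h
      exact ⟨u, hu.symm⟩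
  have injp := vertex_inj hp.2 (by
    rintro a b hab ⟨h1, h2⟩
    rcases L.ax a b hab with ⟨a1, _, _, _⟩ | ⟨_, a2, _, _⟩
    · exact a1 h1
    · exact a2 h2) hnb
  have injq := vertex_inj hq.2 (by
    rintro a b hab ⟨h1, h2⟩
    rcases L.ax a b hab with ⟨_, _, a3, _⟩ | ⟨_, _, _, a4⟩
    · exact a3 h1
    · exact a4 h2) hnb
  -- the first state
  obtain ⟨D1, d1, d2, d3, d4, d5⟩ := mk (fun _ => 1) (fun _ => Or.inl rfl) (fun _ => rfl)
  obtain ⟨D2, d1', d2', d3', d4', d5'⟩ := mk (fun v => if hor0 (F v) then e2 (F v) else e1 (F v))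
    (by
      intro v
      split_ifs
      · exact he2s _
      · exact he1s _)
    (by intro v; rw [hFF])
  have ex : ∀ v, x (F v) + (x v - x (F v)) = x v := fun v => by ring
  have ey : ∀ v, y (F v) + (y v - y (F v)) = y v := fun v => by ring
  have qx : ∀ v, x (F v) + (if hor0 (F v) then e2 (F v) else e1 (F v)) * (x v - x (F v)) = x' v := by
    intro v
    by_cases hv : v ∈ C
    · rw [hFC v hv, L.hx v hv, sub_self, mul_zero, add_zero]
    · by_cases hh : hor0 (F v)
      · rw [if_pos hh]
        exact ((inv v hv).2.1 hh).2.2.2.symm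
      · rw [if_neg hh, hxz v hh, mul_zero, add_zero]
        exact ((inv v hv).2.2 hh).2.2.1.symm
  have qy : ∀ v, y (F v) + (if hor0 (F v) then e2 (F v) else e1 (F v)) * (y v - y (F v)) = y' v := by
    intro v
    by_cases hv : v ∈ C
    · rw [hFC v hv, L.hy v hv, sub_self, mul_zero, add_zero]
    · by_cases hh : hor0 (F v)
      · rw [if_pos hh, hyz v hh, mul_zero, add_zero]
        exact ((inv v hv).2.1 hh).2.2.1.symm
      · rw [if_neg hh]
        exact ((inv v hv).2.2 hh).2.2.2.symm
  have J1 := D1.lift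
  have J2 := D2.lift
  simp only [d1, d2, d3, d4, d5, one_mul, ex, ey] at J1
  simp only [d1', d2', d3', d4', d5', ex, ey, qx, qy] at J2
  have K1 := J1 hp (fun a b h1 h2 => injp a b h1 h2)
  have K2 := J2 hq (fun a b h1 h2 => injq a b h1 h2)
  exact K1.symm.trans K2

end Pool.FS79
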