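import Pool.Agent.H79.FS.Main
import Pool.Agent.H79.FS.LeafB
import Pool.Agent.H79.FS.Half

set_option autoImplicit false

/-! From states in space to coordinates. -/

namespace Pool.FS79

open SimpleGraph Set Module

variable {V : Type*} {G : SimpleGraph V}

theorem right_angle {p : V → E3} {u v w : V} (hvu : p v ≠ p u) (hwu : p w ≠ p u)
    (h : ∃ k : ℕ, EuclideanGeometry.angle (p v) (p u) (p w) = (k : ℝ) * (Real.pi / 2)) :
    inner ℝ (p v - p u) (p w - p u) = 0 ∨
      (inner ℝ (p v - p u) (p w - p u)) ^ 2 = inner ℝ (p v - p u) (p v - p u) *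
        inner ℝ (p w - p u) (p w - p u) := by
  obtain ⟨k, hk⟩ := h
  have hpi := Real.pi_pos
  have hle : EuclideanGeometry.angle (p v) (p u) (p w) ≤ Real.pi := EuclideanGeometry.angle_le_pi _ _ _
  have hin : inner ℝ (p v - p u) (p w - p u) =
      Real.cos (EuclideanGeometry.angle (p v) (p u) (p w)) * (‖p v - p u‖ * ‖p w - p u‖) := by
    have := InnerProductGeometry.cos_angle_mul_norm_mul_norm (p v - p u) (p w - p u)
    rw [← this]
    rfl
  have hk2 : k ≤ 2 := by
    by_contra hcon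
    have h3 : (3:ℝ) ≤ k := by exact_mod_cast (by omega : 3 ≤ k)
    rw [hk] at hle
    nlinarith
  rw [hk] at hin
  interval_cases k
  · right
    simp only [Nat.cast_zero, zero_mul, Real.cos_zero, one_mul] at hin
    rw [hin, real_inner_self_eq_norm_sq, real_inner_self_eq_norm_sq]
    ring
  · left
    simp only [Nat.cast_one, one_mul, Real.cos_pi_div_two, zero_mul] at hin
    exact hin
  · right
    have h2 : ((2:ℕ):ℝ) * (Real.pi / 2) = Real.pi := by push_cast; ring
    rw [h2, Real.cos_pi] at hin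
    rw [hin, real_inner_self_eq_norm_sq, real_inner_self_eq_norm_sq]
    ring

theorem perp_all {p : V → E3} (hnd : ∀ a b, G.Adj a b → p a ≠ p b)
    (hang : ∀ u v w, G.Adj u v → G.Adj u w → v ≠ w →
      ∃ k : ℕ, EuclideanGeometry.angle (p v) (p u) (p w) = (k : ℝ) * (Real.pi / 2)) :
    ∀ u v w, G.Adj u v → G.Adj u w → inner ℝ (p v - p u) (p w - p u) = 0 ∨
      (inner ℝ (p v - p u) (p w - p u)) ^ 2 = inner ℝ (p v - p u) (p v - p u) *
        inner ℝ (p w - p u) (p w - p u) := by
  intro u v w huv huw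
  by_cases h : v = w
  · subst h
    right; ring
  · exact right_angle (hnd u v huv).symm (hnd u w huw).symm (hang u v w huv huw h)

theorem nd_of_free {p q : V → E3} (hnd : ∀ a b, G.Adj a b → p a ≠ p b) (hq : q ∈ Free G p) :
    ∀ a b, G.Adj a b → q a ≠ q b := by
  intro a b hab he
  have h := hq.1 a b b hab hab
  rw [he, sub_self, inner_zero_left] at h
  exact hnd a b hab (sub_eq_zero.mp (inner_self_eq_zero.mp h.symm)).symm

theorem cf_of_free {p q : V → E3} {x y x' y' : V → ℝ} {c u w : E3}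
    (hnd : ∀ a b, G.Adj a b → p a ≠ p b) (hq : q ∈ Free G p) (hop : (u, w) ∈ OP)
    (hql : q = pl c u w x' y')
    (hp : ∀ u v w, G.Adj u v → G.Adj u w → inner ℝ (p v - p u) (p w - p u) =
      (x v - x u) * (x w - x u) + (y v - y u) * (y w - y u)) :
    (fun v => (x' v, y' v, (0:ℝ))) ∈ CF G x y := by
  obtain ⟨z, hz, h1, h2⟩ := exists_perp_pair u w
  have hg : Orthonormal ℝ ![u, w, z] := frame_of hop.1 hop.2.1 hz hop.2.2 h1 h2
  have hst : q = st c ![u, w, z] x' y' (fun _ => 0) := by
    rw [hql, pl_eq_toE c u w z]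
    rfl
  refine ⟨?_, ?_⟩
  · intro a b d hab had
    have e1 := pl_inner (c := c) hop x' y' a b d
    rw [← hql, hq.1 a b d hab had, hp a b d hab had] at e1
    simp only
    linarith
  · have hnc := hq.2
    rw [hst] at hnc
    refine hnc.sep ?_
    have := nd_of_free hnd hq
    rw [hst] at this
    exact this

/-- two flat states in space, read in coordinates; the frame of the first one is moved to the
frame of the second one at the end -/
theorem joined_of_coords {p q : V → E3} {x y x' y' : V → ℝ} {c u w c' u' w' : E3}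
    (hop : (u, w) ∈ OP) (hpl : p = pl c u w x y) (hop' : (u', w') ∈ OP)
    (hql : q = pl c' u' w' x' y')
    (hq : (fun v => (x' v, y' v, (0:ℝ))) ∈ CF G x y)
    (J : JoinedIn (CF G x y) (fun v => (x v, y v, (0:ℝ))) (fun v => (x' v, y' v, (0:ℝ)))) :
    JoinedIn (Free G p) p q := by
  have hin : ∀ u v w, G.Adj u v → G.Adj u w → inner ℝ (p v - p u) (p w - p u) =
      (x v - x u) * (x w - x u) + (y v - y u) * (y w - y u) := by
    intro a b d _ _
    rw [hpl]
    exact pl_inner hop x y a b d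
  obtain ⟨z, hz, h1, h2⟩ := exists_perp_pair u w
  have hg : Orthonormal ℝ ![u, w, z] := frame_of hop.1 hop.2.1 hz hop.2.2 h1 h2
  have J1 := joined_toE (p := p) c hg hin J
  rw [← pl_eq_toE, ← pl_eq_toE, ← hpl] at J1
  have J2 := planar_joined (c := c) (c' := c') hin hq hop hop'
  rw [← hql] at J2
  exact J1.trans J2

theorem coords_pair (hG : G.IsTree) {p q : V → E3} (hnd : ∀ a b, G.Adj a b → p a ≠ p b)
    (hang : ∀ u v w, G.Adj u v → G.Adj u w → v ≠ w →
      ∃ k : ℕ, EuclideanGeometry.angle (p v) (p u) (p w) = (k : ℝ) * (Real.pi / 2))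
    (hp : p ∈ Free G p) (hq : q ∈ Free G p)
    (hpf : finrank ℝ (vectorSpan ℝ (Set.range p)) ≤ 2)
    (hqf : finrank ℝ (vectorSpan ℝ (Set.range q)) ≤ 2) {r s : V} (hrs : G.Adj r s) :
    ∃ (u w u' w' : E3) (x y x' y' : V → ℝ), (u, w) ∈ OP ∧ p = pl (p r) u w x y ∧
      (u', w') ∈ OP ∧ q = pl (q r) u' w' x' y' ∧ x r = 0 ∧ y r = 0 ∧ 0 < x s ∧ y s = 0 ∧
      x' r = 0 ∧ y' r = 0 ∧ 0 < x' s ∧ y' s = 0 ∧ (∀ a b, G.Adj a b → Ax2 x y x' y' a b) ∧
      (fun v => (x v, y v, (0:ℝ))) ∈ CF G x y ∧ (fun v => (x' v, y' v, (0:ℝ))) ∈ CF G x y := by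
  have hperp := perp_all hnd hang
  obtain ⟨u, w, x, y, hop, hpl, hxr, hyr, hxs, hys, hA⟩ := planar_coords hG hrs hnd hperp hpf
  have hperp' : ∀ u v w, G.Adj u v → G.Adj u w → inner ℝ (q v - q u) (q w - q u) = 0 ∨
      (inner ℝ (q v - q u) (q w - q u)) ^ 2 = inner ℝ (q v - q u) (q v - q u) *
        inner ℝ (q w - q u) (q w - q u) := by
    intro a b d hab had
    rw [hq.1 a b d hab had, hq.1 a b b hab hab, hq.1 a d d had had]
    exact hperp a b d hab had
  obtain ⟨u', w', x', y', hop', hql, hxr', hyr', hxs', hys', hA'⟩ :=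
    planar_coords hG hrs (nd_of_free hnd hq) hperp' hqf
  have hin : ∀ u v w, G.Adj u v → G.Adj u w → inner ℝ (p v - p u) (p w - p u) =
      (x v - x u) * (x w - x u) + (y v - y u) * (y w - y u) := by
    intro a b d _ _
    have := pl_inner (c := p r) hop x y a b d
    rw [← hpl] at this
    exact this
  have hin' : ∀ u v w, G.Adj u v → G.Adj u w →
      (x v - x u) * (x w - x u) + (y v - y u) * (y w - y u) =
      (x' v - x' u) * (x' w - x' u) + (y' v - y' u) * (y' w - y' u) := by
    intro a b d hab had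
    rw [← hin a b d hab had, ← hq.1 a b d hab had]
    have := pl_inner (c := q r) hop' x' y' a b d
    rw [← hql] at this
    exact this
  refine ⟨u, w, u', w', x, y, x', y', hop, hpl, hop', hql, hxr, hyr, hxs, hys, hxr', hyr', hxs',
    hys', ?_, ?_, ?_⟩
  · exact types hG hrs hA hA' hin' (by rw [hyr, hys]) (by rw [hyr', hys'])
  · exact cf_of_free hnd hp hop hpl hin
  · exact cf_of_free hnd hq hop' hql hin

theorem four_turns (hG : G.IsTree) {p q : V → E3} (hnd : ∀ a b, G.Adj a b → p a ≠ p b)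
    (hang : ∀ u v w, G.Adj u v → G.Adj u w → v ≠ w →
      ∃ k : ℕ, EuclideanGeometry.angle (p v) (p u) (p w) = (k : ℝ) * (Real.pi / 2))
    (hp : p ∈ Free G p) (hq : q ∈ Free G p)
    (hpf : finrank ℝ (vectorSpan ℝ (Set.range p)) ≤ 2)
    (hqf : finrank ℝ (vectorSpan ℝ (Set.range q)) ≤ 2)
    (h4 : ∀ (a b : V) (w : G.Walk a b), w.IsPath → turns p w.support ≤ 4) :
    JoinedIn (Free G p) p q := by
  by_cases hE : ∃ a b, G.Adj a b
  · obtain ⟨a0, b0, hab⟩ := hE
    have h4' : ∀ l, NB G l → turns p l ≤ 4 := by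
      intro l hl
      cases l with
      | nil => simp [turns]
      | cons a l =>
        obtain ⟨b, w, hw, hw'⟩ := nb_path hG hl
        rw [← hw]
        exact h4 a b w hw'
    obtain ⟨r, s, hrs, hc1, hc2⟩ := exists_centre p hab h4'
    obtain ⟨u, w, u', w', x, y, x', y', hop, hpl, hop', hql, hxr, hyr, hxs, hys, hxr', hyr', hxs',
      hys', hA, hpc, hqc⟩ := coords_pair hG hnd hang hp hq hpf hqf hrs
    refine joined_of_coords hop hpl hop' hql hqc ?_
    refine coord_main hG (c := p r) hop hrs hxr hyr hxs hys hxr' hyr' hxs' hys' hA hpc hqc ?_ ?_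
    · rw [← hpl]; exact hc1
    · rw [← hpl]; exact hc2
  · push Not at hE
    have : Free G p = univ := by
      ext f
      simp only [mem_univ, iff_true]
      exact ⟨fun a b _ hab => absurd hab (hE a b), fun a b _ _ hab => absurd hab (hE a b)⟩
    rw [this]
    exact (isPathConnected_univ (X := V → E3)).joinedIn p (mem_univ _) q (mem_univ _)

end Pool.FS79
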