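import Pool.Agent.H79.FS.Fin1

set_option autoImplicit false

/-! The leaf theorem, the lifting lemma and the half-turn lemma in space. -/

namespace Pool.FS79

open SimpleGraph Set Module

variable {V : Type*} {G : SimpleGraph V}

theorem pl_dist {c u w : E3} (h : (u, w) ∈ OP) (x y : V → ℝ) (a b : V) :
    dist (pl c u w x y a) (pl c u w x y b) ^ 2 = (x a - x b) ^ 2 + (y a - y b) ^ 2 := by
  have h1 := pl_inner (c := c) h x y b a a
  rw [real_inner_self_eq_norm_sq] at h1
  rw [dist_eq_norm, h1]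
  ring

theorem congruent_coords {C : Set V} {x y x' y' : V → ℝ} {r s : V} (hr : r ∈ C) (hs : s ∈ C)
    (hxr : x r = 0) (hyr : y r = 0) (hxs : 0 < x s) (hys : y s = 0)
    (hxr' : x' r = 0) (hyr' : y' r = 0) (hxs' : 0 < x' s) (hys' : y' s = 0)
    (hd : ∀ a ∈ C, ∀ b ∈ C, (x' a - x' b) ^ 2 + (y' a - y' b) ^ 2 =
      (x a - x b) ^ 2 + (y a - y b) ^ 2) :
    (∀ v ∈ C, x' v = x v) ∧ ((∀ v ∈ C, y' v = y v) ∨ (∀ v ∈ C, - y' v = y v)) := by
  have hss : x' s = x s := by
    have := hd s hs r hr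
    rw [hxr, hyr, hxr', hyr', hys, hys'] at this
    have h2 : x' s ^ 2 = x s ^ 2 := by linarith
    rcases sq_eq_sq_iff_eq_or_eq_neg.mp h2 with h | h
    · exact h
    · linarith
  have h1 : ∀ v ∈ C, x' v ^ 2 + y' v ^ 2 = x v ^ 2 + y v ^ 2 := by
    intro v hv
    have := hd v hv r hr
    rw [hxr, hyr, hxr', hyr'] at this
    linarith
  have hx : ∀ v ∈ C, x' v = x v := by
    intro v hv
    have := hd v hv s hs
    rw [hss, hys, hys'] at this
    have h2 := h1 v hv
    have h3 : x s * (x' v - x v) = 0 := by linarith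
    have := (mul_eq_zero.mp h3).resolve_left hxs.ne'
    linarith
  refine ⟨hx, ?_⟩
  have h2 : ∀ v ∈ C, y' v ^ 2 = y v ^ 2 := by
    intro v hv
    have := h1 v hv
    rw [hx v hv] at this
    linarith
  have h3 : ∀ v ∈ C, ∀ w ∈ C, y' v * y' w = y v * y w := by
    intro v hv w hw
    have e := hd v hv w hw
    rw [hx v hv, hx w hw] at e
    have e1 := h2 v hv
    have e2 := h2 w hw
    nlinarith
  by_cases hw : ∃ w ∈ C, y w ≠ 0
  · obtain ⟨w, hwC, hw0⟩ := hw
    rcases sq_eq_sq_iff_eq_or_eq_neg.mp (h2 w hwC) with h | h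
    · left
      intro v hv
      have := h3 v hv w hwC
      rw [h] at this
      exact mul_right_cancel₀ hw0 this
    · right
      intro v hv
      have := h3 v hv w hwC
      rw [h] at this
      have h5 : (- y' v) * y w = y v * y w := by linarith
      exact mul_right_cancel₀ hw0 h5
  · push Not at hw
    left
    intro v hv
    have := h2 v hv
    rw [hw v hv] at this ⊢
    nlinarith

theorem leaf_space (hG : G.IsTree) {p q : V → E3} (hnd : ∀ a b, G.Adj a b → p a ≠ p b)
    (hang : ∀ u v w, G.Adj u v → G.Adj u w → v ≠ w →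
      ∃ k : ℕ, EuclideanGeometry.angle (p v) (p u) (p w) = (k : ℝ) * (Real.pi / 2))
    (hp : p ∈ Free G p) (hq : q ∈ Free G p)
    (hpf : finrank ℝ (vectorSpan ℝ (Set.range p)) ≤ 2)
    (hqf : finrank ℝ (vectorSpan ℝ (Set.range q)) ≤ 2)
    {C : Set V} (hC : (G.induce C).Preconnected) {r s : V} (hrs : G.Adj r s) (hr : r ∈ C)
    (hs : s ∈ C)
    (hcore : ∀ a b c, G.Adj b a → G.Adj b c → a ∈ C → b ∈ C → c ∉ C →
      inner ℝ (p a - p b) (p c - p b) = 0)
    (hout : ∀ a b c, G.Adj b a → G.Adj b c → b ∉ C → inner ℝ (p a - p b) (p c - p b) ≠ 0)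
    (hcong : ∀ a ∈ C, ∀ b ∈ C, dist (q a) (q b) = dist (p a) (p b)) :
    JoinedIn (Free G p) p q := by
  obtain ⟨u, w, u', w', x, y, x', y', hop, hpl, hop', hql, hxr, hyr, hxs, hys, hxr', hyr', hxs',
      hys', hA, hpc, hqc⟩ := coords_pair hG hnd hang hp hq hpf hqf hrs
  have hinp : ∀ a b d, inner ℝ (p b - p a) (p d - p a) =
      (x b - x a) * (x d - x a) + (y b - y a) * (y d - y a) := by
    intro a b d
    have := pl_inner (c := p r) hop x y a b d
    rw [← hpl] at this
    exact this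
  have hdist : ∀ a ∈ C, ∀ b ∈ C, (x' a - x' b) ^ 2 + (y' a - y' b) ^ 2 =
      (x a - x b) ^ 2 + (y a - y b) ^ 2 := by
    intro a ha b hb
    have e1 := pl_dist (c := p r) hop x y a b
    have e2 := pl_dist (c := q r) hop' x' y' a b
    rw [← hpl] at e1
    rw [← hql] at e2
    rw [← e1, ← e2, hcong a ha b hb]
  have hcore' : ∀ a b c, G.Adj b a → G.Adj b c → a ∈ C → b ∈ C → c ∉ C →
      ¬ (y b = y a ↔ y b = y c) := by
    intro a b c hba hbc ha hb hc hiff
    have e := hcore a b c hba hbc ha hb hc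
    rw [hinp b a c] at e
    rcases hA b a hba with ⟨a1, a2, _, _⟩ | ⟨a1, a2, _, _⟩
    · have a3 := hiff.mp a2
      rcases hA b c hbc with ⟨b1, b2, _, _⟩ | ⟨b1, b2, _, _⟩
      · rw [← a2, sub_self, zero_mul, add_zero] at e
        rcases mul_eq_zero.mp e with h | h
        · exact a1 (by linarith)
        · exact b1 (by linarith)
      · exact b2 a3
    · rcases hA b c hbc with ⟨b1, b2, _, _⟩ | ⟨b1, b2, _, _⟩
      · exact a2 (hiff.mpr b2)
      · rw [← a1, sub_self, zero_mul, zero_add] at e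
        rcases mul_eq_zero.mp e with h | h
        · exact a2 (by linarith)
        · exact b2 (by linarith)
  have hout' : ∀ a b c, G.Adj b a → G.Adj b c → b ∉ C → (y b = y a ↔ y b = y c) := by
    intro a b c hba hbc hb
    have e := hout a b c hba hbc hb
    rw [hinp b a c] at e
    rcases hA b a hba with ⟨a1, a2, _, _⟩ | ⟨a1, a2, _, _⟩
    · rcases hA b c hbc with ⟨b1, b2, _, _⟩ | ⟨b1, b2, _, _⟩
      · exact ⟨fun _ => b2, fun _ => a2⟩
      · exfalso
        apply e
        rw [← a2, ← b1]; ring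
    · rcases hA b c hbc with ⟨b1, b2, _, _⟩ | ⟨b1, b2, _, _⟩
      · exfalso
        apply e
        rw [← a1, ← b2]; ring
      · exact ⟨fun h => absurd h a2, fun h => absurd h b2⟩
  obtain ⟨hx, hy⟩ := congruent_coords hr hs hxr hyr hxs hys hxr' hyr' hxs' hys' hdist
  rcases hy with hy | hy
  · refine joined_of_coords hop hpl hop' hql hqc ?_
    exact leaf_main hG ⟨hr, hs, hrs, hC, hA, hcore', hout', hx, hy⟩ hpc hqc
  · have hop2 : (u', -w') ∈ OP := ⟨hop'.1, by simpa using hop'.2.1, by simpa using hop'.2.2⟩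
    have hql2 : q = pl (q r) u' (-w') x' (fun v => - y' v) := by
      rw [hql]
      funext v
      simp [pl, hxr', hyr']
    have hA2 : ∀ a b, G.Adj a b → Ax2 x y x' (fun v => - y' v) a b := by
      intro a b hab
      rcases hA a b hab with ⟨a1, a2, a3, a4⟩ | ⟨a1, a2, a3, a4⟩
      · exact Or.inl ⟨a1, a2, a3, by simp [a4]⟩
      · exact Or.inr ⟨a1, a2, a3, by simpa using a4⟩
    have hqc2 : (fun v => (x' v, - y' v, (0:ℝ))) ∈ CF G x y := by
      refine cf_of_free hnd hq hop2 hql2 ?_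
      intro a b d _ _
      exact hinp a b d
    refine joined_of_coords hop hpl hop2 hql2 hqc2 ?_
    exact leaf_main hG ⟨hr, hs, hrs, hC, hA2, hcore', hout', hx, hy⟩ hpc hqc2

theorem lift_space {p q : V → E3} (hnd : ∀ a b, G.Adj a b → p a ≠ p b)
    (hp : p ∈ Free G p) (hq : q ∈ Free G p) {x y y' : V → ℝ} {c u w c' u' w' : E3}
    (hop : (u, w) ∈ OP) (hop' : (u', w') ∈ OP)
    (hpl : ∀ v, p v = c + (x v • u + y v • w)) (hql : ∀ v, q v = c' + (x v • u' + y' v • w')) :
    JoinedIn (Free G p) p q := by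
  have hpl' : p = pl c u w x y := funext hpl
  have hql' : q = pl c' u' w' x y' := funext hql
  have hin : ∀ u v w, G.Adj u v → G.Adj u w → inner ℝ (p v - p u) (p w - p u) =
      (x v - x u) * (x w - x u) + (y v - y u) * (y w - y u) := by
    intro a b d _ _
    have := pl_inner (c := c) hop x y a b d
    rw [← hpl'] at this
    exact this
  have h1 := cf_of_free hnd hp hop hpl' hin
  have h2 := cf_of_free hnd hq hop' hql' hin
  exact joined_of_coords hop hpl' hop' hql' h2 (same_abscissa h1 h2)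

theorem hang_space {p q : V → E3} (hnd : ∀ a b, G.Adj a b → p a ≠ p b)
    (hp : p ∈ Free G p) (hq : q ∈ Free G p) {a h y S : V → ℝ} {c u w c' u' w' : E3}
    (hop : (u, w) ∈ OP) (hop' : (u', w') ∈ OP) (D : Hang G a h y S)
    (hpl : ∀ v, p v = c + ((a v + h v) • u + y v • w))
    (hql : ∀ v, q v = c' + ((a v + S v * h v) • u' + (S v * y v) • w')) :
    JoinedIn (Free G p) p q := by
  have hpl' : p = pl c u w (fun v => a v + h v) y := funext hpl
  have hql' : q = pl c' u' w' (fun v => a v + S v * h v) (fun v => S v * y v) := funext hql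
  have hin : ∀ u v w, G.Adj u v → G.Adj u w → inner ℝ (p v - p u) (p w - p u) =
      ((a v + h v) - (a u + h u)) * ((a w + h w) - (a u + h u)) +
        (y v - y u) * (y w - y u) := by
    intro b1 b2 b3 _ _
    have := pl_inner (c := c) hop (fun v => a v + h v) y b1 b2 b3
    rw [← hpl'] at this
    exact this
  have h1 := cf_of_free hnd hp hop hpl' hin
  have h2 := cf_of_free hnd hq hop' hql' hin
  exact joined_of_coords hop hpl' hop' hql' h2 (D.joined h1 h2)

end Pool.FS79
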