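import Pool.Agent.H79.FS.Crs

set_option autoImplicit false

/-! Frames of space: existence and connectedness; planar states. -/

namespace Pool.FS79

open SimpleGraph Set Module

variable {V : Type*}

theorem exists_unit_perp (K : Submodule ℝ E3) (hK : finrank ℝ K < 3) :
    ∃ z : E3, ‖z‖ = 1 ∧ ∀ w ∈ K, inner ℝ w z = 0 := by
  have h3 : finrank ℝ E3 = 3 := by simp
  have hs := K.finrank_add_finrank_orthogonal
  have hpos : 0 < finrank ℝ Kᗮ := by omega
  have : Nontrivial Kᗮ := Module.finrank_pos_iff.mp hpos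
  obtain ⟨z, hz⟩ := exists_ne (0 : Kᗮ)
  have hz' : (z : E3) ≠ 0 := by simpa using hz
  refine ⟨(‖(z : E3)‖)⁻¹ • (z : E3), ?_, ?_⟩
  · rw [norm_smul, norm_inv, norm_norm, inv_mul_cancel₀ (norm_ne_zero_iff.mpr hz')]
  · intro w hw
    rw [inner_smul_right, z.2 w hw, mul_zero]

theorem exists_perp_pair (u w : E3) :
    ∃ z : E3, ‖z‖ = 1 ∧ inner ℝ u z = 0 ∧ inner ℝ w z = 0 := by
  have h2 : finrank ℝ (Submodule.span ℝ ({u, w} : Set E3)) < 3 := by
    have h := finrank_span_finset_le_card (R := ℝ) (M := E3) ({u, w} : Finset E3)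
    have h' : (({u, w} : Finset E3) : Set E3) = {u, w} := by simp
    rw [Set.finrank, h'] at h
    have := Finset.card_le_two (a := u) (b := w)
    omega
  obtain ⟨z, hz, hz'⟩ := exists_unit_perp _ h2
  exact ⟨z, hz, hz' u (Submodule.subset_span (by simp)), hz' w (Submodule.subset_span (by simp))⟩

theorem frame_of {u w z : E3} (hu : ‖u‖ = 1) (hw : ‖w‖ = 1) (hz : ‖z‖ = 1)
    (huw : inner ℝ u w = 0) (huz : inner ℝ u z = 0) (hwz : inner ℝ w z = 0) :
    Orthonormal ℝ ![u, w, z] := by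
  have huw' : inner ℝ w u = 0 := by rw [real_inner_comm]; exact huw
  have huz' : inner ℝ z u = 0 := by rw [real_inner_comm]; exact huz
  have hwz' : inner ℝ z w = 0 := by rw [real_inner_comm]; exact hwz
  constructor
  · intro i
    fin_cases i <;> simpa
  · intro i j hij
    fin_cases i <;> fin_cases j <;> simp_all

theorem sphere_perp_connected {e : E3} (he : ‖e‖ = 1) :
    IsPathConnected {u : E3 | ‖u‖ = 1 ∧ inner ℝ e u = 0} := by
  have h1 : 1 < Module.rank ℝ ((ℝ ∙ e)ᗮ : Submodule ℝ E3) := by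
    have h3 : finrank ℝ E3 = 3 := by simp
    have hs := (ℝ ∙ e).finrank_add_finrank_orthogonal
    have he0 : e ≠ 0 := by
      rintro rfl
      simp at he
    rw [finrank_span_singleton he0, h3] at hs
    have h2 : finrank ℝ ((ℝ ∙ e)ᗮ : Submodule ℝ E3) = 2 := by omega
    rw [← Module.finrank_eq_rank, h2]
    norm_num
  have h2 := isPathConnected_sphere h1 (0 : ((ℝ ∙ e)ᗮ : Submodule ℝ E3)) (zero_le_one (α := ℝ))
  have h3 := h2.image (f := fun z : ((ℝ ∙ e)ᗮ : Submodule ℝ E3) => (z : E3)) continuous_subtype_val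
  convert h3 using 1
  ext u
  simp only [mem_ofPred_eq, mem_image, mem_sphere_iff_norm, sub_zero, Submodule.coe_norm]
  constructor
  · rintro ⟨hu, hu'⟩
    exact ⟨⟨u, by rw [Submodule.mem_orthogonal_singleton_iff_inner_right]; exact hu'⟩, hu, rfl⟩
  · rintro ⟨⟨z, hz⟩, hz1, rfl⟩
    rw [Submodule.mem_orthogonal_singleton_iff_inner_right] at hz
    exact ⟨hz1, hz⟩

/-- Orthonormal pairs. -/
def OP : Set (E3 × E3) := {q | ‖q.1‖ = 1 ∧ ‖q.2‖ = 1 ∧ inner ℝ q.1 q.2 = 0}

theorem op_step {e a b : E3} (he : ‖e‖ = 1) (ha : ‖a‖ = 1) (hb : ‖b‖ = 1)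
    (hea : inner ℝ e a = 0) (heb : inner ℝ e b = 0) : JoinedIn OP (e, a) (e, b) := by
  have h := (sphere_perp_connected he).joinedIn a ⟨ha, hea⟩ b ⟨hb, heb⟩
  have h2 := h.map (f := fun u : E3 => (e, u)) (by fun_prop)
  refine h2.mono ?_
  rintro _ ⟨u, hu, rfl⟩
  exact ⟨he, hu.1, hu.2⟩

theorem op_step' {e a b : E3} (he : ‖e‖ = 1) (ha : ‖a‖ = 1) (hb : ‖b‖ = 1)
    (hea : inner ℝ e a = 0) (heb : inner ℝ e b = 0) : JoinedIn OP (a, e) (b, e) := by
  have h := (sphere_perp_connected he).joinedIn a ⟨ha, hea⟩ b ⟨hb, heb⟩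
  have h2 := h.map (f := fun u : E3 => (u, e)) (by fun_prop)
  refine h2.mono ?_
  rintro _ ⟨u, hu, rfl⟩
  exact ⟨hu.1, he, by rw [real_inner_comm]; exact hu.2⟩

theorem op_joined {a b a' b' : E3} (h : (a, b) ∈ OP) (h' : (a', b') ∈ OP) :
    JoinedIn OP (a, b) (a', b') := by
  obtain ⟨z, hz, h1, h2⟩ := exists_perp_pair a a'
  have s1 : JoinedIn OP (a, b) (a, z) := op_step h.1 h.2.1 hz h.2.2 h1
  have s2 : JoinedIn OP (a, z) (a', z) :=
    op_step' hz h.1 h'.1 (by rw [real_inner_comm]; exact h1) (by rw [real_inner_comm]; exact h2)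
  have s3 : JoinedIn OP (a', z) (a', b') := op_step h'.1 hz h'.2.1 h2 h'.2.2
  exact (s1.trans s2).trans s3

/-- Planar state. -/
def pl (c u w : E3) (x y : V → ℝ) : V → E3 := fun v => c + (x v • u + y v • w)

theorem pl_eq_toE (c u w z : E3) (x y : V → ℝ) :
    pl c u w x y = toE c ![u, w, z] (fun v => (x v, y v, 0)) := by
  funext v
  simp [pl, toE]

theorem planar_joined {G : SimpleGraph V} {x y x' y' : V → ℝ} {p : V → E3}
    (hp : ∀ u v w, G.Adj u v → G.Adj u w → inner ℝ (p v - p u) (p w - p u) =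
      (x v - x u) * (x w - x u) + (y v - y u) * (y w - y u))
    (hf : (fun v => (x' v, y' v, (0:ℝ))) ∈ CF G x y)
    {c u w c' u' w' : E3} (h : (u, w) ∈ OP) (h' : (u', w') ∈ OP) :
    JoinedIn (Free G p) (pl c u w x' y') (pl c' u' w' x' y') := by
  have h1 : JoinedIn (univ ×ˢ OP) ((c, (u, w)) : E3 × E3 × E3) (c', (u', w')) := by
    have hc : JoinedIn (univ : Set E3) c c' := by
      have := (isPathConnected_univ (X := E3)).joinedIn c (mem_univ _) c' (mem_univ _)
      exact this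
    exact hc.prod (op_joined h h')
  have h2 := h1.map (f := fun q : E3 × E3 × E3 => pl (V := V) q.1 q.2.1 q.2.2 x' y')
    (by unfold pl; fun_prop)
  refine h2.mono ?_
  rintro _ ⟨⟨d, a, b⟩, ⟨_, hab⟩, rfl⟩
  obtain ⟨z, hz, h1, h2⟩ := exists_perp_pair a b
  have hg : Orthonormal ℝ ![a, b, z] := frame_of hab.1 hab.2.1 hz hab.2.2 h1 h2
  show pl d a b x' y' ∈ Free G p
  rw [pl_eq_toE d a b z]
  exact toE_mem hg hp hf

end Pool.FS79
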