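import Pool.Agent.H79.FS.Rone

set_option autoImplicit false

/-! Leaf segments can be turned over. -/

namespace Pool.FS79

open SimpleGraph Set

variable {V : Type*} {G : SimpleGraph V}

/-- A planar core with straight teeth. `fx, fy` the position of the foot, `u` and `w` the
horizontal and vertical offset. -/
structure Teeth (G : SimpleGraph V) where
  fx : V → ℝ
  fy : V → ℝ
  u : V → ℝ
  w : V → ℝ
  δ : V → ℝ
  foot : V → V
  hor : V → Prop
  hδ : ∀ v, δ v = 1 ∨ δ v = -1
  hu : ∀ v, ¬ hor v → u v = 0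
  hw : ∀ v, hor v → w v = 0
  foot_fx : ∀ v, fx v = fx (foot v)
  foot_fy : ∀ v, fy v = fy (foot v)
  foot_δ : ∀ v, δ v = δ (foot v)
  foot_hor : ∀ v, hor v ↔ hor (foot v)
  foot_u : ∀ v, u (foot v) = 0
  foot_w : ∀ v, w (foot v) = 0
  edge : ∀ a b, G.Adj a b → (foot a = a ∧ foot b = b) ∨ foot a = foot b
  perp : ∀ a b c, G.Adj a b → G.Adj a c → foot a = a → foot b = b → foot a = foot c →
    (hor a → fx a = fx b) ∧ (¬ hor a → fy a = fy b)
  int : ∀ a b, G.Adj a b → foot a = foot b →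
    ∀ τ ∈ uIcc 0 (u a + w a) ∪ uIcc 0 (u b + w b),
    ∃ c d μ, G.Adj c d ∧ μ ∈ Icc (0:ℝ) 1 ∧ foot c = foot a ∧ foot d = foot a ∧
      Lv (fun v => u v + w v) c d μ = τ

namespace Teeth

variable (D : Teeth G)

/-- The lifted state. -/
noncomputable def F (t : ℝ) (v : V) : ℝ × ℝ × ℝ :=
  (D.fx v + D.δ v * D.u v * Real.sin t, D.fy v + D.δ v * D.w v * Real.sin t,
    (D.u v + D.w v) * Real.cos t)

theorem core_uw {v : V} (h : D.foot v = v) : D.u v = 0 ∧ D.w v = 0 :=
  ⟨h ▸ D.foot_u v, h ▸ D.foot_w v⟩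

theorem same_foot {a b : V} (h : D.foot a = D.foot b) :
    D.fx a = D.fx b ∧ D.fy a = D.fy b ∧ D.δ a = D.δ b ∧ (D.hor a ↔ D.hor b) := by
  refine ⟨?_, ?_, ?_, ?_⟩
  · rw [D.foot_fx a, D.foot_fx b, h]
  · rw [D.foot_fy a, D.foot_fy b, h]
  · rw [D.foot_δ a, D.foot_δ b, h]
  · rw [D.foot_hor a, D.foot_hor b, h]

theorem inner_F (t : ℝ) : ∀ a b c, G.Adj a b → G.Adj a c →
      ((D.F t b).1 - (D.F t a).1) * ((D.F t c).1 - (D.F t a).1)
        + ((D.F t b).2.1 - (D.F t a).2.1) * ((D.F t c).2.1 - (D.F t a).2.1)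
        + ((D.F t b).2.2 - (D.F t a).2.2) * ((D.F t c).2.2 - (D.F t a).2.2)
      = ((D.fx b + D.u b) - (D.fx a + D.u a)) * ((D.fx c + D.u c) - (D.fx a + D.u a)) +
        ((D.fy b + D.w b) - (D.fy a + D.w a)) * ((D.fy c + D.w c) - (D.fy a + D.w a)) := by
  have mixed : ∀ a b c, G.Adj a b → G.Adj a c → D.foot a = a → D.foot b = b →
      D.foot a = D.foot c →
      ((D.F t b).1 - (D.F t a).1) * ((D.F t c).1 - (D.F t a).1)
        + ((D.F t b).2.1 - (D.F t a).2.1) * ((D.F t c).2.1 - (D.F t a).2.1)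
        + ((D.F t b).2.2 - (D.F t a).2.2) * ((D.F t c).2.2 - (D.F t a).2.2)
      = ((D.fx b + D.u b) - (D.fx a + D.u a)) * ((D.fx c + D.u c) - (D.fx a + D.u a)) +
        ((D.fy b + D.w b) - (D.fy a + D.w a)) * ((D.fy c + D.w c) - (D.fy a + D.w a)) := by
    intro a b c hab hac ha hb hac'
    obtain ⟨u1, w1⟩ := D.core_uw ha
    obtain ⟨u2, w2⟩ := D.core_uw hb
    obtain ⟨s1, s2, s3, s4⟩ := D.same_foot hac'
    obtain ⟨p1, p2⟩ := D.perp a b c hab hac ha hb hac'
    simp only [F, u1, w1, u2, w2, ← s1, ← s2, ← s3]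
    by_cases hh : D.hor a
    · have hwc : D.w c = 0 := D.hw c (s4.mp hh)
      rw [← p1 hh, hwc]; ring
    · have huc : D.u c = 0 := D.hu c (fun h => hh (s4.mpr h))
      rw [← p2 hh, huc]; ring
  intro a b c hab hac
  rcases D.edge a b hab with ⟨h1, h2⟩ | h1
  · rcases D.edge a c hac with ⟨h3, h4⟩ | h3
    · obtain ⟨u1, w1⟩ := D.core_uw h1
      obtain ⟨u2, w2⟩ := D.core_uw h2
      obtain ⟨u3, w3⟩ := D.core_uw h4
      simp only [F, u1, w1, u2, w2, u3, w3]
      ring
    · exact mixed a b c hab hac h1 h2 h3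
  · rcases D.edge a c hac with ⟨h3, h4⟩ | h3
    · have := mixed a c b hac hab h3 h4 h1
      linarith
    · obtain ⟨s1, s2, s3, s4⟩ := D.same_foot h1
      obtain ⟨t1, t2, t3, t4⟩ := D.same_foot h3
      simp only [F, ← s1, ← s2, ← s3, ← t1, ← t2, ← t3]
      have hcs := Real.sin_sq_add_cos_sq t
      have e1 : D.δ a ^ 2 = 1 := by rcases D.hδ a with h | h <;> rw [h] <;> norm_num
      by_cases hh : D.hor a
      · have w1 := D.hw a hh
        have w2 := D.hw b (s4.mp hh)
        have w3 := D.hw c (t4.mp hh)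
        simp only [w1, w2, w3]
        linear_combination (D.u b - D.u a) * (D.u c - D.u a) * hcs +
          (D.u b - D.u a) * (D.u c - D.u a) * Real.sin t ^ 2 * e1
      · have u1 := D.hu a hh
        have u2 := D.hu b (fun h => hh (s4.mpr h))
        have u3 := D.hu c (fun h => hh (t4.mpr h))
        simp only [u1, u2, u3]
        linear_combination (D.w b - D.w a) * (D.w c - D.w a) * hcs +
          (D.w b - D.w a) * (D.w c - D.w a) * Real.sin t ^ 2 * e1

/-- link form -/
theorem lvF (a b : V) (hab : G.Adj a b) (s : ℝ) :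
    (Lv D.u a b s = 0 ∧ Lv D.w a b s = 0 ∧ Lv (fun v => D.δ v * D.u v) a b s = 0 ∧
      Lv (fun v => D.δ v * D.w v) a b s = 0) ∨
    (D.foot a = D.foot b ∧ Lv D.fx a b s = D.fx a ∧ Lv D.fy a b s = D.fy a ∧
      Lv (fun v => D.δ v * D.u v) a b s = D.δ a * Lv D.u a b s ∧
      Lv (fun v => D.δ v * D.w v) a b s = D.δ a * Lv D.w a b s ∧
      (D.hor a → Lv D.w a b s = 0) ∧ (¬ D.hor a → Lv D.u a b s = 0)) := by
  rcases D.edge a b hab with ⟨h1, h2⟩ | h1
  · left
    obtain ⟨u1, w1⟩ := D.core_uw h1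
    obtain ⟨u2, w2⟩ := D.core_uw h2
    simp [Lv, u1, w1, u2, w2]
  · right
    obtain ⟨s1, s2, s3, s4⟩ := D.same_foot h1
    refine ⟨h1, ?_, ?_, ?_, ?_, ?_, ?_⟩
    · simp only [Lv, ← s1]; ring
    · simp only [Lv, ← s2]; ring
    · simp only [Lv, ← s3]; ring
    · simp only [Lv, ← s3]; ring
    · intro h
      simp [Lv, D.hw a h, D.hw b (s4.mp h)]
    · intro h
      simp [Lv, D.hu a h, D.hu b (fun h' => h (s4.mpr h'))]

theorem sep_mid (x y : V → ℝ)
    (hq : (fun v => (D.fx v + D.δ v * D.u v, D.fy v + D.δ v * D.w v, (0:ℝ))) ∈ CF G x y)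
    (hinj : ∀ a b, D.fx a + D.δ a * D.u a = D.fx b + D.δ b * D.u b →
      D.fy a + D.δ a * D.w a = D.fy b + D.δ b * D.w b → a = b)
    (t : ℝ) (ht : t ∈ Ico (0:ℝ) (Real.pi / 2)) :
    Sep G (fun v => (D.F t v).1) (fun v => (D.F t v).2.1) (fun v => (D.F t v).2.2) := by
  intro a b a' b' hab hab' hne s s' hs hs' hX hY hZ
  have hsin : 0 ≤ Real.sin t := Real.sin_nonneg_of_nonneg_of_le_pi ht.1
    (by linarith [ht.2, Real.pi_pos])
  have hcos : 0 < Real.cos t := Real.cos_pos_of_mem_Ioo ⟨by linarith [ht.1, Real.pi_pos], ht.2⟩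
  simp only [F] at hX hY hZ
  rw [lv_mul, lv_mul] at hZ
  have hη := mul_right_cancel₀ hcos.ne' hZ
  rw [lv_add, lv_add] at hη
  rw [lv_comb, lv_comb] at hX hY
  -- reduction to `q`
  have fin : Lv D.fx a b s = Lv D.fx a' b' s' → Lv D.fy a b s = Lv D.fy a' b' s' →
      Lv (fun v => D.δ v * D.u v) a b s = Lv (fun v => D.δ v * D.u v) a' b' s' →
      Lv (fun v => D.δ v * D.w v) a b s = Lv (fun v => D.δ v * D.w v) a' b' s' →
      Same a b s a' b' s' := by
    intro h1 h2 h3 h4
    refine hq.2 a b a' b' hab hab' hne s s' hs hs' ?_ ?_ (by simp [Lv])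
    · show Lv (fun v => D.fx v + D.δ v * D.u v) a b s = Lv (fun v => D.fx v + D.δ v * D.u v) a' b' s'
      rw [lv_add, lv_add, h1, h3]
    · show Lv (fun v => D.fy v + D.δ v * D.w v) a b s = Lv (fun v => D.fy v + D.δ v * D.w v) a' b' s'
      rw [lv_add, lv_add, h2, h4]
  by_cases h0 : Lv D.u a b s + Lv D.w a b s = 0
  · -- all offsets vanish
    have z : ∀ a b, G.Adj a b → ∀ s, Lv D.u a b s + Lv D.w a b s = 0 →
        Lv (fun v => D.δ v * D.u v) a b s = 0 ∧ Lv (fun v => D.δ v * D.w v) a b s = 0 := by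
      intro a b hab s h
      rcases D.lvF a b hab s with ⟨z1, z2, z3, z4⟩ | ⟨_, _, _, z4, z5, z6, z7⟩
      · exact ⟨z3, z4⟩
      · rw [z4, z5]
        by_cases hh : D.hor a
        · have := z6 hh
          rw [this, add_zero] at h
          rw [h, this]; simp
        · have := z7 hh
          rw [this, zero_add] at h
          rw [h, this]; simp
    obtain ⟨z1, z2⟩ := z a b hab s h0
    obtain ⟨z1', z2'⟩ := z a' b' hab' s' (hη ▸ h0)
    rw [z1, z1', zero_mul, add_zero, add_zero] at hX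
    rw [z2, z2', zero_mul, add_zero, add_zero] at hY
    exact fin hX hY (z1.trans z1'.symm) (z2.trans z2'.symm)
  · have h0' : Lv D.u a' b' s' + Lv D.w a' b' s' ≠ 0 := hη ▸ h0
    rcases D.lvF a b hab s with ⟨z1, z2, _, _⟩ | ⟨f1, f2, f3, f4, f5, f6, f7⟩
    · exact absurd (by rw [z1, z2, add_zero]) h0
    rcases D.lvF a' b' hab' s' with ⟨z1, z2, _, _⟩ | ⟨f1', f2', f3', f4', f5', f6', f7'⟩
    · exact absurd (by rw [z1, z2, add_zero]) h0'
    -- it is enough that the feet agree
    have fin2 : D.foot a = D.foot a' → Same a b s a' b' s' := by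
      intro hf
      obtain ⟨s1, s2, s3, s4⟩ := D.same_foot hf
      have huw : Lv D.u a b s = Lv D.u a' b' s' ∧ Lv D.w a b s = Lv D.w a' b' s' := by
        by_cases hh : D.hor a
        · have h1 := f6 hh
          have h2 := f6' (s4.mp hh)
          exact ⟨by linarith, by rw [h1, h2]⟩
        · have h1 := f7 hh
          have h2 := f7' (fun h => hh (s4.mpr h))
          exact ⟨by rw [h1, h2], by linarith⟩
      apply fin
      · rw [f2, f2', s1]
      · rw [f3, f3', s2]
      · rw [f4, f4', s3, huw.1]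
      · rw [f5, f5', s3, huw.2]
    have hmem : ∀ a b : V, ∀ s : ℝ, s ∈ Icc (0:ℝ) 1 →
        Real.sin t * (Lv D.u a b s + Lv D.w a b s) ∈
        uIcc 0 (D.u a + D.w a) ∪ uIcc 0 (D.u b + D.w b) := by
      intro a b s hs
      have hs1 : Real.sin t ≤ 1 := Real.sin_le_one t
      have e : Lv D.u a b s + Lv D.w a b s = (1 - s) * (D.u a + D.w a) + s * (D.u b + D.w b) := by
        unfold Lv; ring
      rw [e]
      generalize D.u a + D.w a = A
      generalize D.u b + D.w b = B
      rcases le_total 0 ((1 - s) * A + s * B) with hn | hn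
      · rcases le_total A B with hl | hl
        · right
          have hvn : (1 - s) * A + s * B ≤ B := by nlinarith [hs.1, hs.2]
          rw [uIcc_of_le (by linarith)]
          constructor
          · positivity
          · nlinarith
        · left
          have hvn : (1 - s) * A + s * B ≤ A := by nlinarith [hs.1, hs.2]
          rw [uIcc_of_le (by linarith)]
          constructor
          · positivity
          · nlinarith
      · rcases le_total A B with hl | hl
        · left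
          have hvn : A ≤ (1 - s) * A + s * B := by nlinarith [hs.1, hs.2]
          rw [uIcc_of_ge (by linarith)]
          constructor
          · nlinarith
          · nlinarith
        · right
          have hvn : B ≤ (1 - s) * A + s * B := by nlinarith [hs.1, hs.2]
          rw [uIcc_of_ge (by linarith)]
          constructor
          · nlinarith
          · nlinarith
    obtain ⟨c, d, μ, hcd, hμ, g1, g2, g3⟩ := D.int a b hab f1 _ (hmem a b s hs)
    obtain ⟨c', d', μ', hcd', hμ', g1', g2', g3'⟩ := D.int a' b' hab' f1' _ (hmem a' b' s' hs')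
    -- values at the new points
    have new : ∀ a b c d : V, ∀ s μ : ℝ, G.Adj c d → D.foot c = D.foot a → D.foot d = D.foot a →
        (D.hor a → Lv D.w a b s = 0) → (¬ D.hor a → Lv D.u a b s = 0) →
        Lv (fun v => D.u v + D.w v) c d μ = Real.sin t * (Lv D.u a b s + Lv D.w a b s) →
        Lv D.fx c d μ = D.fx a ∧ Lv D.fy c d μ = D.fy a ∧
        Lv (fun v => D.δ v * D.u v) c d μ = D.δ a * (Real.sin t * Lv D.u a b s) ∧
        Lv (fun v => D.δ v * D.w v) c d μ = D.δ a * (Real.sin t * Lv D.w a b s) := by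
      intro a b c d s μ hcd hc hd k1 k2 k3
      obtain ⟨s1, s2, s3, s4⟩ := D.same_foot hc
      obtain ⟨t1, t2, t3, t4⟩ := D.same_foot hd
      rw [lv_add] at k3
      refine ⟨?_, ?_, ?_, ?_⟩
      · simp only [Lv, s1, t1]; ring
      · simp only [Lv, s2, t2]; ring
      · have e : Lv (fun v => D.δ v * D.u v) c d μ = D.δ a * Lv D.u c d μ := by
          simp only [Lv, s3, t3]; ring
        rw [e]
        by_cases hh : D.hor a
        · have e1 : Lv D.w c d μ = 0 := by
            simp [Lv, D.hw c (s4.mpr hh), D.hw d (t4.mpr hh)]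
          rw [e1, k1 hh, add_zero, add_zero] at k3
          rw [k3]
        · have e1 : Lv D.u c d μ = 0 := by
            simp [Lv, D.hu c (fun h => hh (s4.mp h)), D.hu d (fun h => hh (t4.mp h))]
          simp [e1, k2 hh]
      · have e : Lv (fun v => D.δ v * D.w v) c d μ = D.δ a * Lv D.w c d μ := by
          simp only [Lv, s3, t3]; ring
        rw [e]
        by_cases hh : D.hor a
        · have e1 : Lv D.w c d μ = 0 := by
            simp [Lv, D.hw c (s4.mpr hh), D.hw d (t4.mpr hh)]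
          simp [e1, k1 hh]
        · have e1 : Lv D.u c d μ = 0 := by
            simp [Lv, D.hu c (fun h => hh (s4.mp h)), D.hu d (fun h => hh (t4.mp h))]
          rw [e1, k2 hh, zero_add, zero_add] at k3
          rw [k3]
    obtain ⟨n1, n2, n3, n4⟩ := new a b c d s μ hcd g1 g2 f6 f7 g3
    obtain ⟨n1', n2', n3', n4'⟩ := new a' b' c' d' s' μ' hcd' g1' g2' f6' f7' g3'
    have eX : Lv (fun v => D.fx v + D.δ v * D.u v) c d μ =
        Lv (fun v => D.fx v + D.δ v * D.u v) c' d' μ' := by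
      rw [lv_add, lv_add, n1, n1', n3, n3']
      rw [f2, f2', f4, f4'] at hX
      linarith
    have eY : Lv (fun v => D.fy v + D.δ v * D.w v) c d μ =
        Lv (fun v => D.fy v + D.δ v * D.w v) c' d' μ' := by
      rw [lv_add, lv_add, n2, n2', n4, n4']
      rw [f3, f3', f5, f5'] at hY
      linarith
    apply fin2
    by_cases hsame : (c = c' ∧ d = d') ∨ (c = d' ∧ d = c')
    · rw [← g1, ← g1']
      rcases hsame with ⟨h, _⟩ | ⟨h, _⟩
      · rw [h]
      · rw [h, g2', g1']
    · have S := hq.2 c d c' d' hcd hcd' hsame μ μ' hμ hμ' eX eY (by simp [Lv])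
      have k1 := S.lv D.fx
      have k2 := S.lv D.fy
      rw [n1, n1', D.foot_fx a, D.foot_fx a'] at k1
      rw [n2, n2', D.foot_fy a, D.foot_fy a'] at k2
      apply hinj
      · rw [D.foot_u, D.foot_u, k1, mul_zero, mul_zero]
      · rw [D.foot_w, D.foot_w, k2, mul_zero, mul_zero]

/-- lifting all teeth, from the flat state -/
theorem lift (hq : (fun v => (D.fx v + D.δ v * D.u v, D.fy v + D.δ v * D.w v, (0:ℝ))) ∈
      CF G (fun v => D.fx v + D.u v) (fun v => D.fy v + D.w v))
    (hinj : ∀ a b, D.fx a + D.δ a * D.u a = D.fx b + D.δ b * D.u b →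
      D.fy a + D.δ a * D.w a = D.fy b + D.δ b * D.w b → a = b) :
    JoinedIn (CF G (fun v => D.fx v + D.u v) (fun v => D.fy v + D.w v))
      (fun v => (D.fx v, D.fy v, D.u v + D.w v))
      (fun v => (D.fx v + D.δ v * D.u v, D.fy v + D.δ v * D.w v, (0:ℝ))) := by
  have hpi := Real.pi_pos
  have j : JoinedIn (CF G (fun v => D.fx v + D.u v) (fun v => D.fy v + D.w v)) (D.F 0)
      (D.F (Real.pi / 2)) := by
    refine joined_path D.F (fun v => by unfold F; fun_prop) (by linarith) ?_
    intro t ht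
    rcases eq_or_lt_of_le ht.2 with h | h
    · subst h
      have e : D.F (Real.pi / 2) =
          fun v => (D.fx v + D.δ v * D.u v, D.fy v + D.δ v * D.w v, (0:ℝ)) := by
        funext v; simp [F]
      rw [e]
      exact hq
    · exact ⟨D.inner_F t, D.sep_mid _ _ hq hinj t ⟨ht.1, h⟩⟩
  have e0 : D.F 0 = fun v => (D.fx v, D.fy v, D.u v + D.w v) := by
    funext v; simp [F]
  have e1 : D.F (Real.pi / 2) =
      fun v => (D.fx v + D.δ v * D.u v, D.fy v + D.δ v * D.w v, (0:ℝ)) := by
    funext v; simp [F]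
  rw [e0, e1] at j
  exact j

end Teeth

end Pool.FS79
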