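import Pool.Agent.H79.FS.Build

set_option autoImplicit false

/-! Main theorem in coordinates and in space. -/

namespace Pool.FS79

open SimpleGraph Set Module

variable {V : Type*} {G : SimpleGraph V}

theorem int_all (hG : G.IsTree) {x y x' y' e1 e2 : V → ℝ} {r s : V}
    (hA : ∀ a b, G.Adj a b → Ax2 x y x' y' a b)
    (F : V → Rc V) (hF0 : F r = ⟨0, r, r, [r, s]⟩)
    (hF : ∀ u v, G.Adj u v → G.dist r v = G.dist r u + 1 → F v = stepf y r s u v (F u))
    (hlev : ∀ v, (F v).lev ≤ 2) (hI : ∀ v, Inv x y x' y' e1 e2 F v) :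
    ∀ v, (F v).lev = 2 → ∀ τ ∈ uIcc 0 (x v - x (F v).foot),
      ∃ c d μ, G.Adj c d ∧ μ ∈ Icc (0:ℝ) 1 ∧ (F c).lev ≠ 0 ∧ (F d).lev ≠ 0 ∧
        (F c).foot = (F v).foot ∧ (F d).foot = (F v).foot ∧ (F c).rho = (F v).rho ∧
        (F d).rho = (F v).rho ∧ Lv (fun w => x w - x (F w).foot) c d μ = τ := by
  classical
  refine tree_induction hG r (P := fun v => (F v).lev = 2 → ∀ τ ∈ uIcc 0 (x v - x (F v).foot),
      ∃ c d μ, G.Adj c d ∧ μ ∈ Icc (0:ℝ) 1 ∧ (F c).lev ≠ 0 ∧ (F d).lev ≠ 0 ∧
        (F c).foot = (F v).foot ∧ (F d).foot = (F v).foot ∧ (F c).rho = (F v).rho ∧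
        (F d).rho = (F v).rho ∧ Lv (fun w => x w - x (F w).foot) c d μ = τ) ?_ ?_
  · intro h
    rw [hF0] at h
    simp at h
  · intro u v huv hd ih h2 τ hτ
    have hFv := hF u v huv hd
    have hl : (F v).lev = if (y u = y v ↔ Even (F u).lev) then (F u).lev else (F u).lev + 1 := by
      rw [hFv]; rfl
    have hf : (F v).foot = (F u).foot := by
      have : (F v).foot = if (F v).lev = 0 then v else (F u).foot := by
        rw [hFv]; rfl
      rw [this, if_neg (by omega)]
    have hr : (F v).rho = (F u).rho := by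
      have : (F v).rho = if (F v).lev ≤ 1 then v else (F u).rho := by
        rw [hFv]; rfl
      rw [this, if_neg (by omega)]
    have hlu := hlev u
    have hu : (F u).lev = 1 ∨ (F u).lev = 2 := by
      by_cases hc : (y u = y v ↔ Even (F u).lev)
      · rw [if_pos hc] at hl; omega
      · rw [if_neg hc] at hl; omega
    have hy : y u = y v := by
      by_cases hc : (y u = y v ↔ Even (F u).lev)
      · rw [if_pos hc] at hl
        have : (F u).lev = 2 := by omega
        rw [this] at hc
        exact hc.mpr (by simp)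
      · rw [if_neg hc] at hl
        have : (F u).lev = 1 := by omega
        rw [this] at hc
        by_contra h'
        exact hc ⟨fun h => absurd h h', fun h => by simp at h⟩
    have hx : x u ≠ x v := by
      rcases hA u v huv with ⟨a1, _, _, _⟩ | ⟨_, a2, _, _⟩
      · exact a1
      · exact absurd hy a2
    have hu0 : (F u).lev ≠ 0 := by omega
    have new : τ ∈ uIcc (x u - x (F u).foot) (x v - x (F v).foot) →
        ∃ c d μ, G.Adj c d ∧ μ ∈ Icc (0:ℝ) 1 ∧ (F c).lev ≠ 0 ∧ (F d).lev ≠ 0 ∧
        (F c).foot = (F v).foot ∧ (F d).foot = (F v).foot ∧ (F c).rho = (F v).rho ∧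
        (F d).rho = (F v).rho ∧ Lv (fun w => x w - x (F w).foot) c d μ = τ := by
      intro hm
      rw [hf] at hm
      have hne : (x v - x (F u).foot) - (x u - x (F u).foot) ≠ 0 := by
        intro h
        exact hx (by linarith)
      refine ⟨u, v, (τ - (x u - x (F u).foot)) / ((x v - x (F u).foot) - (x u - x (F u).foot)),
        huv, ?_, hu0, by omega, hf.symm, rfl, hr.symm, rfl, ?_⟩
      · rcases le_total (x u - x (F u).foot) (x v - x (F u).foot) with hle | hle
        · rw [uIcc_of_le hle] at hm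
          have hpos : 0 < (x v - x (F u).foot) - (x u - x (F u).foot) :=
            lt_of_le_of_ne (by linarith) hne.symm
          constructor
          · exact div_nonneg (by linarith [hm.1]) hpos.le
          · rw [div_le_one hpos]; linarith [hm.2]
        · rw [uIcc_of_ge hle] at hm
          have hneg : (x v - x (F u).foot) - (x u - x (F u).foot) < 0 :=
            lt_of_le_of_ne (by linarith) hne
          constructor
          · exact div_nonneg_of_nonpos (by linarith [hm.2]) hneg.le
          · rw [div_le_one_of_neg hneg]; linarith [hm.1]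
      · simp only [Lv, hf]
        field_simp
        ring
    rcases hu with h1 | h1
    · apply new
      have := ((hI u).i1 (by omega)).2.1
      rw [← this, sub_self]
      exact hτ
    · rcases uIcc_subset_uIcc_union_uIcc (a := (0:ℝ)) (b := x u - x (F u).foot) hτ with h | h
      · obtain ⟨c, d, μ, g1, g2, g3, g4, g5, g6, g7, g8, g9⟩ := ih h1 τ h
        exact ⟨c, d, μ, g1, g2, g3, g4, g5.trans hf.symm, g6.trans hf.symm, g7.trans hr.symm,
          g8.trans hr.symm, g9⟩
      · exact new h

/-- The spine data of a tree with a link from which every list turns at most twice. -/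
theorem coord_main (hG : G.IsTree) {x y x' y' : V → ℝ} {c e f : E3} (hop : (e, f) ∈ OP) {r s : V}
    (hrs : G.Adj r s) (hxr : x r = 0) (hyr : y r = 0) (hxs : 0 < x s) (hys : y s = 0)
    (hxr' : x' r = 0) (hyr' : y' r = 0) (hxs' : 0 < x' s) (hys' : y' s = 0)
    (hA : ∀ a b, G.Adj a b → Ax2 x y x' y' a b)
    (hp : (fun v => (x v, y v, (0:ℝ))) ∈ CF G x y)
    (hq : (fun v => (x' v, y' v, (0:ℝ))) ∈ CF G x y)
    (hc1 : ∀ l, NB G (l ++ [r, s]) → turns (pl c e f x y) (l ++ [r, s]) ≤ 2)
    (hc2 : ∀ l, NB G (l ++ [s, r]) → turns (pl c e f x y) (l ++ [s, r]) ≤ 2) :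
    JoinedIn (CF G x y) (fun v => (x v, y v, (0:ℝ))) (fun v => (x' v, y' v, (0:ℝ))) := by
  classical
  obtain ⟨F, hF0, hF⟩ := exists_rec hG r (⟨0, r, r, [r, s]⟩ : Rc V) (stepf y r s)
  have hys0 : y r = y s := by rw [hyr, hys]
  have hlist := list_inv hG (c := c) hop hrs hys0 hA F hF0 hF
  have hlev : ∀ v, (F v).lev ≤ 2 := by
    intro v
    obtain ⟨t, l, _, h2, h3, _, _, h6, _⟩ := hlist v
    rw [← h3]
    rcases h6 with ⟨l0, h⟩ | ⟨l0, h⟩
    · rw [h] at h2 ⊢
      exact hc1 l0 h2
    · rw [h] at h2 ⊢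
      exact hc2 l0 h2
  -- signs
  have hin := hq.1
  simp only at hin
  obtain ⟨e1, he1s, he1⟩ := sign_exists (x := y) (x' := y') (fun u v => G.Adj u v ∧ y u ≠ y v)
    (by
      rintro u v ⟨huv, hne⟩
      have h := hin u v v huv huv
      rcases hA u v huv with ⟨_, a2, _, _⟩ | ⟨a1, _, a3, _⟩
      · exact absurd a2 hne
      · rw [← a1, ← a3] at h
        nlinarith)
    (by
      rintro u v ⟨_, hne⟩
      exact sub_ne_zero.mpr hne.symm)
    (by
      rintro u v w ⟨huv, hne⟩ ⟨huw, hne'⟩
      have h := hin u v w huv huw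
      rcases hA u v huv with ⟨_, a2, _, _⟩ | ⟨a1, _, a3, _⟩
      · exact absurd a2 hne
      · rw [← a1, ← a3] at h
        linarith)
  obtain ⟨e2, he2s, he2⟩ := sign_exists (x := x) (x' := x') (fun u v => G.Adj u v ∧ y u = y v)
    (by
      rintro u v ⟨huv, hne⟩
      have h := hin u v v huv huv
      rcases hA u v huv with ⟨_, a2, _, a4⟩ | ⟨_, a2, _, _⟩
      · rw [← a2, ← a4] at h
        nlinarith
      · exact absurd hne a2)
    (by
      rintro u v ⟨huv, hne⟩
      rcases hA u v huv with ⟨a1, a2, _, a4⟩ | ⟨_, a2, _, _⟩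
      · exact sub_ne_zero.mpr a1.symm
      · exact absurd hne a2)
    (by
      rintro u v w ⟨huv, hne⟩ ⟨huw, hne'⟩
      have h := hin u v w huv huw
      rcases hA u v huv with ⟨_, a2, _, a4⟩ | ⟨_, a2, _, _⟩
      · rw [← a2, ← a4] at h
        linarith
      · exact absurd hne a2)
  have hI := inv_all hG hrs hys0 hyr (by rw [hxr, hxr']) hyr' (by rw [hxr]; exact hxs)
    (by rw [hxr']; exact hxs') hA (fun u v h h' => he1 u v ⟨h, h'⟩) he2s
    (fun u v h h' => he2 u v ⟨h, h'⟩) F hF0 hF hlev
  have hint := int_all hG hA F hF0 hF hlev hI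
  have foot_lev : ∀ v, (F (F v).foot).lev = 0 := fun v => (hI v).i2
  have foot_foot : ∀ v, (F (F v).foot).foot = (F v).foot := fun v =>
    ((hI (F v).foot).i0 (foot_lev v)).1
  have rho_rho : ∀ v, (F v).lev ≠ 0 → (F (F v).rho).rho = (F v).rho := by
    intro v h
    have h1 := ((hI v).i3 h).1
    exact ((hI (F v).rho).i1 (by omega)).1
  have edge0 : ∀ u v, G.Adj u v → G.dist r v = G.dist r u + 1 →
    ((F u).lev = 0 ∧ (F v).lev = 0) ∨
    ((F u).lev ≤ 1 ∧ (F v).lev = 1 ∧ (F u).foot = (F v).foot) ∨
    ((F u).lev ≠ 0 ∧ (F v).lev = 2 ∧ (F u).foot = (F v).foot ∧ (F u).rho = (F v).rho) := by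
    intro u v huv hd
    have hFv := hF u v huv hd
    have hl : (F v).lev = if (y u = y v ↔ Even (F u).lev) then (F u).lev else (F u).lev + 1 := by
      rw [hFv]; rfl
    have hf : (F v).foot = if (F v).lev = 0 then v else (F u).foot := by
      rw [hFv]; rfl
    have hr : (F v).rho = if (F v).lev ≤ 1 then v else (F u).rho := by
      rw [hFv]; rfl
    have h2 := hlev v
    have hll : (F v).lev = (F u).lev ∨ (F v).lev = (F u).lev + 1 := by
      rw [hl]
      split_ifs
      · exact Or.inl rfl
      · exact Or.inr rfl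
    have h012 : (F v).lev = 0 ∨ (F v).lev = 1 ∨ (F v).lev = 2 := by omega
    rcases h012 with h | h | h
    · left; exact ⟨by omega, h⟩
    · right; left
      exact ⟨by omega, h, by rw [hf, if_neg (by omega)]⟩
    · right; right
      exact ⟨by omega, h, by rw [hf, if_neg (by omega)], by rw [hr, if_neg (by omega)]⟩
  let D : Spine G :=
    { a := fun v => x (F v).foot
      b := y
      h := fun v => x v - x (F v).foot
      σ := fun v => e1 (F v).foot
      ε := fun v => e2 (F v).rho
      foot := fun v => (F v).foot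
      rho := fun v => (F v).rho
      lev := fun v => (F v).lev
      hσ := fun v => he1s _
      hε := fun v => he2s _
      lev0 := by
        intro v h
        have h1 := (hI v).i0 h
        exact ⟨h1.2.1, by rw [h1.1, sub_self]⟩
      lev1 := by
        intro v h
        have h1 := (hI v).i1 (by omega)
        rw [← h1.2.1, sub_self]
      foot_a := by
        intro v
        show x (F v).foot = x (F (F v).foot).foot
        rw [foot_foot]
      foot_lev := foot_lev
      foot_σ := by
        intro v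
        show e1 (F v).foot = e1 (F (F v).foot).foot
        rw [foot_foot]
      rho_b := fun v h => ((hI v).i3 h).2.1
      rho_ε := by
        intro v h
        show e2 (F v).rho = e2 (F (F v).rho).rho
        rw [rho_rho v h]
      edge := by
        intro u v huv
        rcases hG.dist_eq_dist_add_one_of_adj r huv with hd | hd
        · rcases edge0 v u huv.symm hd with ⟨h1, h2⟩ | ⟨h1, h2, h3⟩ | ⟨h1, h2, h3, h4⟩
          · exact Or.inl ⟨h2, h1⟩
          · exact Or.inr (Or.inl ⟨by omega, h1, Or.inl h2, h3.symm⟩)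
          · exact Or.inr (Or.inr ⟨by omega, h1, Or.inl h2, h3.symm, h4.symm⟩)
        · rcases edge0 u v huv hd with ⟨h1, h2⟩ | ⟨h1, h2, h3⟩ | ⟨h1, h2, h3, h4⟩
          · exact Or.inl ⟨h1, h2⟩
          · exact Or.inr (Or.inl ⟨h1, by omega, Or.inr h2, h3⟩)
          · exact Or.inr (Or.inr ⟨h1, by omega, Or.inr h2, h3, h4⟩)
      int := by
        intro u v huv h2 τ hτ
        have key : ∀ u v, G.Adj u v → (F u).lev = 2 → (F v).lev ≠ 0 → (F u).foot = (F v).foot →
            (F u).rho = (F v).rho → τ ∈ uIcc 0 (x u - x (F u).foot) ∪ uIcc 0 (x v - x (F v).foot) →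
            ∃ c d μ, G.Adj c d ∧ μ ∈ Icc (0:ℝ) 1 ∧ (F c).lev ≠ 0 ∧ (F d).lev ≠ 0 ∧
            (F c).foot = (F u).foot ∧ (F d).foot = (F u).foot ∧ (F c).rho = (F u).rho ∧
            (F d).rho = (F u).rho ∧ Lv (fun w => x w - x (F w).foot) c d μ = τ := by
          intro u v huv h2 h0 hf hr hm
          rcases hm with hm | hm
          · exact hint u h2 τ hm
          · have h12 : (F v).lev = 1 ∨ (F v).lev = 2 := by
              have := hlev v
              omega
            rcases h12 with h | h
            · apply hint u h2 τ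
              have := ((hI v).i1 (by omega)).2.1
              rw [← this, sub_self, uIcc_self] at hm
              rw [hm]
              exact left_mem_uIcc
            · obtain ⟨c, d, μ, g1, g2, g3, g4, g5, g6, g7, g8, g9⟩ := hint v h τ hm
              exact ⟨c, d, μ, g1, g2, g3, g4, g5.trans hf.symm, g6.trans hf.symm,
                g7.trans hr.symm, g8.trans hr.symm, g9⟩
        have hty : ((F u).lev ≠ 0 ∧ (F v).lev ≠ 0 ∧ (F u).foot = (F v).foot ∧
            (F u).rho = (F v).rho) := by
          rcases hG.dist_eq_dist_add_one_of_adj r huv with hd | hd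
          · rcases edge0 v u huv.symm hd with ⟨h1, h2'⟩ | ⟨h1, h2', h3⟩ | ⟨h1, h2', h3, h4⟩
            · omega
            · omega
            · exact ⟨by omega, h1, h3.symm, h4.symm⟩
          · rcases edge0 u v huv hd with ⟨h1, h2'⟩ | ⟨h1, h2', h3⟩ | ⟨h1, h2', h3, h4⟩
            · omega
            · omega
            · exact ⟨h1, by omega, h3, h4⟩
        obtain ⟨t1, t2, t3, t4⟩ := hty
        rcases h2 with h2 | h2
        · exact key u v huv h2 t2 t3 t4 hτ
        · obtain ⟨c, d, μ, g1, g2, g3, g4, g5, g6, g7, g8, g9⟩ :=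
            key v u huv.symm h2 t1 t3.symm t4.symm hτ.symm
          exact ⟨c, d, μ, g1, g2, g3, g4, g5.trans t3.symm, g6.trans t3.symm,
                g7.trans t4.symm, g8.trans t4.symm, g9⟩ }
  have ex : (fun v => D.a v + D.h v) = x := by
    funext v
    show x (F v).foot + (x v - x (F v).foot) = x v
    ring
  have ex' : ∀ v, D.a v + D.h v = x v := fun v => congrFun ex v
  have eb : D.b = y := rfl
  have eq1 : ∀ v, D.a v + D.ε v * D.h v = x' v := fun v => ((hI v).i4).symm
  have eq2 : ∀ v, D.σ v * y v = y' v := fun v => ((hI v).i5).symm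
  -- vertices are determined by their position
  have hinj : ∀ u v, D.a u + D.h u = D.a v + D.h v → D.b u = D.b v → u = v := by
    intro u v h1 h2
    rw [ex', ex'] at h1
    rw [eb] at h2
    by_contra hne
    have hnb : ∀ w : V, ∃ w', G.Adj w w' := by
      intro w
      obtain ⟨t, _, _, _, _, h, _⟩ := hlist w
      exact ⟨t, h⟩
    obtain ⟨u', hu'⟩ := hnb u
    obtain ⟨v', hv'⟩ := hnb v
    by_cases hs : (u = v ∧ u' = v') ∨ (u = v' ∧ u' = v)
    · rcases hs with ⟨h, _⟩ | ⟨_, h⟩
      · exact hne h
      · rw [h] at hu'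
        rcases hA u v hu' with ⟨a1, _, _, _⟩ | ⟨_, a2, _, _⟩
        · exact a1 h1
        · exact a2 h2
    · obtain ⟨w, w1, w2⟩ := hp.2 u u' v v' hu' hv' hs 0 0 ⟨le_refl _, zero_le_one⟩
        ⟨le_refl _, zero_le_one⟩ (by simp [Lv, h1]) (by simp [Lv, h2]) (by simp [Lv])
      have a1 : w = u := by
        rcases w1 with ⟨h, _⟩ | ⟨_, h⟩
        · exact h
        · exact absurd h (by norm_num)
      have a2 : w = v := by
        rcases w2 with ⟨h, _⟩ | ⟨_, h⟩
        · exact h
        · exact absurd h (by norm_num)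
      exact hne (a1.symm.trans a2)
  have J := D.joined (by simpa only [ex', eb] using hp) hinj (by
    simpa only [ex', eb, eq1, eq2] using hq)
  simpa only [ex', eb, eq1, eq2] using J

end Pool.FS79
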