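import Pool.Agent.H79.FS.Crs

set_option autoImplicit false

/-! Two flat states with the same first coordinate. -/

namespace Pool.FS79

open SimpleGraph Set

variable {V : Type*} {G : SimpleGraph V}

theorem joined_path {x y : V → ℝ} (F : ℝ → V → ℝ × ℝ × ℝ) (hc : ∀ v, Continuous (fun t => F t v))
    {a b : ℝ} (hab : a ≤ b) (h : ∀ t ∈ Icc a b, F t ∈ CF G x y) :
    JoinedIn (CF G x y) (F a) (F b) := by
  have hF : Continuous F := continuous_pi hc
  refine JoinedIn.ofLine (f := fun s : ℝ => F (a + s * (b - a))) ?_ ?_ ?_ ?_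
  · exact (hF.comp (by fun_prop)).continuousOn
  · simp
  · simp
  · rintro _ ⟨s, hs, rfl⟩
    apply h
    constructor
    · nlinarith [hs.1, hs.2]
    · nlinarith [hs.1, hs.2]

theorem lv_comb (F F' : V → ℝ) (k : ℝ) (a b : V) (s : ℝ) :
    Lv (fun v => F v + F' v * k) a b s = Lv F a b s + Lv F' a b s * k := by
  unfold Lv; ring

theorem lv_mul (F : V → ℝ) (k : ℝ) (a b : V) (s : ℝ) :
    Lv (fun v => F v * k) a b s = Lv F a b s * k := by
  unfold Lv; ring

theorem lv_add (F F' : V → ℝ) (a b : V) (s : ℝ) :
    Lv (fun v => F v + F' v) a b s = Lv F a b s + Lv F' a b s := by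
  unfold Lv; ring

/-- **Lifting lemma.** Two flat states with the same first coordinate are connected by rotating
all changed parts together; any graph, any angles. -/
theorem same_abscissa {x y y' : V → ℝ}
    (hp : (fun v => (x v, y v, (0:ℝ))) ∈ CF G x y)
    (hq : (fun v => (x v, y' v, (0:ℝ))) ∈ CF G x y) :
    JoinedIn (CF G x y) (fun v => (x v, y v, (0:ℝ))) (fun v => (x v, y' v, (0:ℝ))) := by
  set B : V → ℝ := fun v => (y v + y' v) / 2 with hB
  set A : V → ℝ := fun v => (y v - y' v) / 2 with hA
  have hAB : ∀ v, y v = B v + A v := fun v => by simp only [hA, hB]; ring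
  have hAB' : ∀ v, y' v = B v - A v := fun v => by simp only [hA, hB]; ring
  let F : ℝ → V → ℝ × ℝ × ℝ := fun t v => (x v, B v + A v * Real.cos t, A v * Real.sin t)
  have h0 : F 0 = fun v => (x v, y v, (0:ℝ)) := by
    funext v
    simp [F, hAB v]
  have hpi : F Real.pi = fun v => (x v, y' v, (0:ℝ)) := by
    funext v
    simp only [F, Real.cos_pi, Real.sin_pi, hAB' v]
    refine Prod.ext rfl (Prod.ext ?_ ?_)
    · show B v + A v * (-1) = B v - A v
      ring
    · show A v * 0 = 0
      ring
  rw [← h0, ← hpi]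
  refine joined_path F (fun v => ?_) Real.pi_pos.le ?_
  · simp only [F]
    fun_prop
  intro t ht
  refine ⟨?_, ?_⟩
  · intro u v w huv huw
    have e1 := hq.1 u v v huv huv
    have e2 := hq.1 u w w huw huw
    have e3 := hq.1 u v w huv huw
    simp only [F]
    simp only at e1 e2 e3
    have hcs := Real.sin_sq_add_cos_sq t
    generalize Real.cos t = c at *
    generalize Real.sin t = s at *
    have d1 : (y' v - y' u) ^ 2 = (y v - y u) ^ 2 := by nlinarith
    have d2 : (y' w - y' u) ^ 2 = (y w - y u) ^ 2 := by nlinarith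
    have d3 : (y' v - y' u) * (y' w - y' u) = (y v - y u) * (y w - y u) := by nlinarith
    have key : (B v + A v * c - (B u + A u * c)) * (B w + A w * c - (B u + A u * c)) +
        (A v * s - A u * s) * (A w * s - A u * s) = (y v - y u) * (y w - y u) := by
      simp only [hA, hB]
      generalize hp1 : y' v - y' u = p' at *
      generalize hp2 : y v - y u = p at *
      generalize hq1 : y' w - y' u = q' at *
      generalize hq2 : y w - y u = q at *
      have r1 : (y v + y' v) / 2 + (y v - y' v) / 2 * c - ((y u + y' u) / 2 + (y u - y' u) / 2 * c)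
        = (p + p') / 2 + (p - p') / 2 * c := by rw [← hp1, ← hp2]; ring
      have r2 : (y w + y' w) / 2 + (y w - y' w) / 2 * c - ((y u + y' u) / 2 + (y u - y' u) / 2 * c)
        = (q + q') / 2 + (q - q') / 2 * c := by rw [← hq1, ← hq2]; ring
      have r3 : (y v - y' v) / 2 * s - (y u - y' u) / 2 * s = (p - p') / 2 * s := by
        rw [← hp1, ← hp2]; ring
      have r4 : (y w - y' w) / 2 * s - (y u - y' u) / 2 * s = (q - q') / 2 * s := by
        rw [← hq1, ← hq2]; ring
      rw [r1, r2, r3, r4]
      have hs : s ^ 2 = 1 - c ^ 2 := by linarith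
      have e : ((p + p') / 2 + (p - p') / 2 * c) * ((q + q') / 2 + (q - q') / 2 * c) +
          (p - p') / 2 * s * ((q - q') / 2 * s) =
          (p + p') / 2 * ((q + q') / 2) + (p - p') / 2 * ((q - q') / 2) * (c ^ 2 + s ^ 2) +
          ((p + p') * (q - q') + (p - p') * (q + q')) / 4 * c := by ring
      rw [e, hs]
      have e5 : (p + p') * (q - q') + (p - p') * (q + q') = 2 * (p * q - p' * q') := by ring
      rw [e5, d3, sub_self]
      have e6 : (p + p') / 2 * ((q + q') / 2) + (p - p') / 2 * ((q - q') / 2) * (c ^ 2 + (1 - c ^ 2))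
        = (p * q + p' * q') / 2 := by ring
      rw [e6, d3]
      ring
    linarith
  · intro a b a' b' hab hab' hne s s' hs hs' hX hY hZ
    simp only [F] at hX hY hZ
    rw [lv_comb, lv_comb] at hY
    rw [lv_mul, lv_mul] at hZ
    rcases eq_or_lt_of_le ht.1 with h1 | h1
    · subst h1
      rw [Real.cos_zero] at hY
      refine hp.2 a b a' b' hab hab' hne s s' hs hs' hX ?_ ?_
      · have e : (fun v => ((x v, y v, (0:ℝ)) : ℝ × ℝ × ℝ).2.1) = fun v => B v + A v := by
          funext v; exact hAB v
        rw [e, lv_add, lv_add]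
        linarith
      · simp [Lv]
    rcases eq_or_lt_of_le ht.2 with h2 | h2
    · subst h2
      rw [Real.cos_pi] at hY
      refine hq.2 a b a' b' hab hab' hne s s' hs hs' hX ?_ ?_
      · have e : (fun v => ((x v, y' v, (0:ℝ)) : ℝ × ℝ × ℝ).2.1) = fun v => B v + A v * (-1) := by
          funext v
          show y' v = B v + A v * (-1)
          rw [hAB' v]; ring
        rw [e, lv_comb, lv_comb]
        exact hY
      · simp [Lv]
    · have hsin : Real.sin t ≠ 0 := (Real.sin_pos_of_pos_of_lt_pi h1 h2).ne'
      have hAeq : Lv A a b s = Lv A a' b' s' := mul_right_cancel₀ hsin hZ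
      refine hp.2 a b a' b' hab hab' hne s s' hs hs' hX ?_ ?_
      · have e : (fun v => ((x v, y v, (0:ℝ)) : ℝ × ℝ × ℝ).2.1) = fun v => B v + A v := by
          funext v; exact hAB v
        rw [e, lv_add, lv_add]
        rw [hAeq] at hY ⊢
        linarith
      · simp [Lv]

end Pool.FS79
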