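import Pool.Agent.H79.FS.Rone

set_option autoImplicit false

/-! The three phases for trees in which every maximal segment is within distance two of a spine. -/

namespace Pool.FS79

open SimpleGraph Set

variable {V : Type*} {G : SimpleGraph V}

/-- Data of a tree with a spine: `a` abscissa of the foot on the spine, `b` ordinate, `h`
horizontal offset beyond the first level; `σ`, `ε` the signs of the changes. -/
structure Spine (G : SimpleGraph V) where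
  a : V → ℝ
  b : V → ℝ
  h : V → ℝ
  σ : V → ℝ
  ε : V → ℝ
  foot : V → V
  rho : V → V
  lev : V → ℕ
  hσ : ∀ v, σ v = 1 ∨ σ v = -1
  hε : ∀ v, ε v = 1 ∨ ε v = -1
  lev0 : ∀ v, lev v = 0 → b v = 0 ∧ h v = 0
  lev1 : ∀ v, lev v = 1 → h v = 0
  foot_a : ∀ v, a v = a (foot v)
  foot_lev : ∀ v, lev (foot v) = 0
  foot_σ : ∀ v, σ v = σ (foot v)
  rho_b : ∀ v, lev v ≠ 0 → b v = b (rho v)
  rho_ε : ∀ v, lev v ≠ 0 → ε v = ε (rho v)
  edge : ∀ u v, G.Adj u v →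
    (lev u = 0 ∧ lev v = 0) ∨
    (lev u ≤ 1 ∧ lev v ≤ 1 ∧ (lev u = 1 ∨ lev v = 1) ∧ foot u = foot v) ∨
    (lev u ≠ 0 ∧ lev v ≠ 0 ∧ (lev u = 2 ∨ lev v = 2) ∧ foot u = foot v ∧ rho u = rho v)
  int : ∀ u v, G.Adj u v → (lev u = 2 ∨ lev v = 2) → ∀ τ ∈ uIcc 0 (h u) ∪ uIcc 0 (h v),
    ∃ c d μ, G.Adj c d ∧ μ ∈ Icc (0:ℝ) 1 ∧ lev c ≠ 0 ∧ lev d ≠ 0 ∧ foot c = foot u ∧
      foot d = foot u ∧ rho c = rho u ∧ rho d = rho u ∧ Lv h c d μ = τ

namespace Spine

variable (D : Spine G)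

/-- the type of a link -/
theorem cases (u v : V) (huv : G.Adj u v) :
    (D.b u = 0 ∧ D.b v = 0 ∧ D.h u = 0 ∧ D.h v = 0 ∧ D.lev u = 0 ∧ D.lev v = 0) ∨
    (D.a u = D.a v ∧ D.h u = 0 ∧ D.h v = 0 ∧ D.σ u = D.σ v ∧ D.foot u = D.foot v ∧
      D.lev u ≤ 1 ∧ D.lev v ≤ 1) ∨
    (D.a u = D.a v ∧ D.b u = D.b v ∧ D.σ u = D.σ v ∧ D.ε u = D.ε v ∧ D.foot u = D.foot v ∧
      D.lev u ≠ 0 ∧ D.lev v ≠ 0 ∧ (D.lev u = 2 ∨ D.lev v = 2) ∧ D.rho u = D.rho v) := by
  rcases D.edge u v huv with ⟨h1, h2⟩ | ⟨h1, h2, h3, h4⟩ | ⟨h1, h2, h3, h4, h5⟩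
  · exact Or.inl ⟨(D.lev0 u h1).1, (D.lev0 v h2).1, (D.lev0 u h1).2, (D.lev0 v h2).2, h1, h2⟩
  · have hz : ∀ w, D.lev w ≤ 1 → D.h w = 0 := by
      intro w hw
      rcases Nat.le_one_iff_eq_zero_or_eq_one.mp hw with h | h
      · exact (D.lev0 w h).2
      · exact D.lev1 w h
    refine Or.inr (Or.inl ⟨?_, hz u h1, hz v h2, ?_, h4, h1, h2⟩)
    · rw [D.foot_a u, D.foot_a v, h4]
    · rw [D.foot_σ u, D.foot_σ v, h4]
  · refine Or.inr (Or.inr ⟨?_, ?_, ?_, ?_, h4, h1, h2, h3, h5⟩)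
    · rw [D.foot_a u, D.foot_a v, h4]
    · rw [D.rho_b u h1, D.rho_b v h2, h5]
    · rw [D.foot_σ u, D.foot_σ v, h4]
    · rw [D.rho_ε u h1, D.rho_ε v h2, h5]

theorem foot_b (v : V) : D.b (D.foot v) = 0 := (D.lev0 _ (D.foot_lev v)).1
theorem foot_h (v : V) : D.h (D.foot v) = 0 := (D.lev0 _ (D.foot_lev v)).2

/-- coordinates of the first flat state -/
def x (v : V) : ℝ := D.a v + D.h v

/-- Phase one. -/
noncomputable def F1 (t : ℝ) (v : V) : ℝ × ℝ × ℝ := (D.a v + D.h v * Real.cos t, D.b v, D.h v * Real.sin t)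

theorem phase1 (hp : (fun v => (D.a v + D.h v, D.b v, (0:ℝ))) ∈ CF G (fun v => D.a v + D.h v) D.b)
    (t : ℝ) (ht : t ∈ Icc (0:ℝ) (Real.pi / 2)) :
    D.F1 t ∈ CF G (fun v => D.a v + D.h v) D.b := by
  refine ⟨?_, ?_⟩
  · intro u v w huv huw
    have hcs := Real.sin_sq_add_cos_sq t
    simp only [F1]
    generalize Real.cos t = c at *
    generalize Real.sin t = s at *
    rcases D.cases u v huv with ⟨a1, a2, a3, a4, a5, a6⟩ | ⟨a1, a2, a3, a4, a5, a6, a7⟩ |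
      ⟨a1, a2, a3, a4, a5, a6, a7, a8, a9⟩ <;>
    rcases D.cases u w huw with ⟨b1, b2, b3, b4, b5, b6⟩ | ⟨b1, b2, b3, b4, b5, b6, b7⟩ |
      ⟨b1, b2, b3, b4, b5, b6, b7, b8, b9⟩
    · rw [a1, a2, b2, a3, a4, b4]; ring
    · rw [a1, a2, a3, a4, b3, ← b1]; ring
    · exact absurd a5 b6
    · rw [b1, b2, b4, a2, a3, ← a1]; ring
    · rw [a2, a3, b3, ← a1, ← b1]; ring
    · rw [← a1, ← b1, ← b2, a2, a3]; ring
    · exact absurd b5 a6
    · rw [← a1, ← a2, ← b1, b2, b3]; ring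
    · rw [← a1, ← a2, ← b1, ← b2]
      have : (D.h v - D.h u) * (D.h w - D.h u) * (s ^ 2 + c ^ 2) =
        (D.h v - D.h u) * (D.h w - D.h u) := by rw [hcs, mul_one]
      linarith
  · intro u v u' v' huv huv' hne s s' hs hs' hX hY hZ
    simp only [F1] at hX hY hZ
    rw [lv_comb, lv_comb] at hX
    rw [lv_mul, lv_mul] at hZ
    refine hp.2 u v u' v' huv huv' hne s s' hs hs' ?_ hY (by simp [Lv])
    show Lv (fun v => D.a v + D.h v) u v s = Lv (fun v => D.a v + D.h v) u' v' s'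
    rw [lv_add, lv_add]
    rcases eq_or_lt_of_le ht.1 with h1 | h1
    · subst h1
      rw [Real.cos_zero] at hX
      linarith
    · have hsin : Real.sin t ≠ 0 :=
        (Real.sin_pos_of_pos_of_lt_pi h1 (by linarith [ht.2, Real.pi_pos])).ne'
      have := mul_right_cancel₀ hsin hZ
      rw [this] at hX ⊢
      linarith

/-- Phase two. -/
noncomputable def F2 (t : ℝ) (v : V) : ℝ × ℝ × ℝ :=
  (D.a v, D.b v * Real.cos ((1 - D.σ v) / 2 * t) - D.h v * Real.sin ((1 - D.σ v) / 2 * t),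
    D.b v * Real.sin ((1 - D.σ v) / 2 * t) + D.h v * Real.cos ((1 - D.σ v) / 2 * t))

theorem rot_inv {b h b' h' c s : ℝ} (hcs : s ^ 2 + c ^ 2 = 1)
    (h1 : b * c - h * s = b' * c - h' * s) (h2 : b * s + h * c = b' * s + h' * c) :
    b = b' ∧ h = h' := by
  constructor
  · have : (b - b') * (s ^ 2 + c ^ 2) = 0 := by linear_combination c * h1 + s * h2
    rw [hcs, mul_one] at this
    linarith
  · have : (h - h') * (s ^ 2 + c ^ 2) = 0 := by linear_combination c * h2 - s * h1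
    rw [hcs, mul_one] at this
    linarith

/-- link form of phase two -/
theorem lvF2 (t : ℝ) (u v : V) (huv : G.Adj u v) (s : ℝ) :
    ∃ τ : ℝ, (Lv (fun v => (D.F2 t v).2.1) u v s =
        Lv D.b u v s * Real.cos τ - Lv D.h u v s * Real.sin τ) ∧
      (Lv (fun v => (D.F2 t v).2.2) u v s =
        Lv D.b u v s * Real.sin τ + Lv D.h u v s * Real.cos τ) ∧
      ((Lv D.b u v s = 0 ∧ Lv D.h u v s = 0) ∨
        (τ = (1 - D.σ (D.foot u)) / 2 * t ∧ Lv D.a u v s = D.a (D.foot u))) := by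
  rcases D.cases u v huv with ⟨a1, a2, a3, a4, a5, a6⟩ | ⟨a1, a2, a3, a4, a5, a6, a7⟩ |
      ⟨a1, a2, a3, a4, a5, a6, a7, a8, a9⟩
  · refine ⟨0, ?_, ?_, Or.inl ⟨?_, ?_⟩⟩
    · simp only [F2, Lv, a1, a2, a3, a4]; simp
    · simp only [F2, Lv, a1, a2, a3, a4]; simp
    · simp only [Lv, a1, a2]; simp
    · simp only [Lv, a3, a4]; simp
  · refine ⟨(1 - D.σ (D.foot u)) / 2 * t, ?_, ?_, Or.inr ⟨rfl, ?_⟩⟩
    · simp only [F2, Lv, ← a4, D.foot_σ u, a2, a3]; ring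
    · simp only [F2, Lv, ← a4, D.foot_σ u, a2, a3]; ring
    · rw [← D.foot_a u]
      simp only [Lv, ← a1]; ring
  · refine ⟨(1 - D.σ (D.foot u)) / 2 * t, ?_, ?_, Or.inr ⟨rfl, ?_⟩⟩
    · simp only [F2, Lv, ← a3, D.foot_σ u, ← a2]; ring
    · simp only [F2, Lv, ← a3, D.foot_σ u, ← a2]; ring
    · rw [← D.foot_a u]
      simp only [Lv, ← a1]; ring

theorem phase2 (hp : (fun v => (D.a v + D.h v, D.b v, (0:ℝ))) ∈ CF G (fun v => D.a v + D.h v) D.b)
    (hinj : ∀ u v, D.a u + D.h u = D.a v + D.h v → D.b u = D.b v → u = v)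
    (t : ℝ) : D.F2 t ∈ CF G (fun v => D.a v + D.h v) D.b := by
  refine ⟨?_, ?_⟩
  · intro u v w huv huw
    have hcs := Real.sin_sq_add_cos_sq ((1 - D.σ u) / 2 * t)
    simp only [F2]
    rcases D.cases u v huv with ⟨a1, a2, a3, a4, a5, a6⟩ | ⟨a1, a2, a3, a4, a5, a6, a7⟩ |
      ⟨a1, a2, a3, a4, a5, a6, a7, a8, a9⟩ <;>
    rcases D.cases u w huw with ⟨b1, b2, b3, b4, b5, b6⟩ | ⟨b1, b2, b3, b4, b5, b6, b7⟩ |
      ⟨b1, b2, b3, b4, b5, b6, b7, b8, b9⟩
    · simp only [a1, a2, a3, a4, b2, b4]; ring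
    · simp only [a1, a2, a3, a4, b3, ← b1]; ring
    · exact absurd a5 b6
    · simp only [b1, b2, b4, a2, a3, ← a1]; ring
    · simp only [a2, a3, b3, ← a1, ← b1, ← a4, ← b4]
      linear_combination (D.b v - D.b u) * (D.b w - D.b u) * hcs
    · simp only [← a1, ← b1, ← b2, a2, a3, ← a4, ← b3]
      ring
    · exact absurd b5 a6
    · simp only [← a1, ← b1, ← a2, b2, b3, ← a3, ← b4]
      ring
    · simp only [← a1, ← a2, ← b1, ← b2, ← a3, ← b3]
      linear_combination (D.h v - D.h u) * (D.h w - D.h u) * hcs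
  · intro u v u' v' huv huv' hne s s' hs hs' hX hY hZ
    obtain ⟨τ, e1, e2, e3⟩ := D.lvF2 t u v huv s
    obtain ⟨τ', e1', e2', e3'⟩ := D.lvF2 t u' v' huv' s'
    rw [e1, e1'] at hY
    rw [e2, e2'] at hZ
    have hX' : Lv D.a u v s = Lv D.a u' v' s' := hX
    have hbh : Lv D.b u v s = Lv D.b u' v' s' ∧ Lv D.h u v s = Lv D.h u' v' s' := by
      rcases e3 with ⟨z1, z2⟩ | ⟨z1, z2⟩
      · rw [z1, z2] at hY hZ
        have := rot_inv (b := 0) (h := 0) (b' := Lv D.b u' v' s') (h' := Lv D.h u' v' s')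
          (Real.sin_sq_add_cos_sq τ') (by linarith) (by linarith)
        rw [z1, z2]
        exact this
      · rcases e3' with ⟨w1, w2⟩ | ⟨w1, w2⟩
        · rw [w1, w2] at hY hZ
          have := rot_inv (b := Lv D.b u v s) (h := Lv D.h u v s) (b' := 0) (h' := 0)
            (Real.sin_sq_add_cos_sq τ) (by linarith) (by linarith)
          rw [w1, w2]
          exact this
        · have hf : D.foot u = D.foot u' := by
            apply hinj
            · rw [D.foot_h, D.foot_h, ← z2, ← w2, hX']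
            · rw [D.foot_b, D.foot_b]
          have hττ : τ = τ' := by rw [z1, w1, hf]
          rw [← hττ] at hY hZ
          exact rot_inv (Real.sin_sq_add_cos_sq τ) hY hZ
    refine hp.2 u v u' v' huv huv' hne s s' hs hs' ?_ hbh.1 (by simp [Lv])
    show Lv (fun v => D.a v + D.h v) u v s = Lv (fun v => D.a v + D.h v) u' v' s'
    rw [lv_add, lv_add, hX', hbh.2]

/-- Phase three. -/
noncomputable def F3 (t : ℝ) (v : V) : ℝ × ℝ × ℝ :=
  (D.a v + D.ε v * D.h v * Real.sin t, D.σ v * D.b v, D.σ v * D.h v * Real.cos t)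

/-- link form of phase three -/
theorem lvε (u v : V) (huv : G.Adj u v) (s : ℝ) :
    ∃ δ : ℝ, (δ = 1 ∨ δ = -1) ∧
      Lv (fun v => D.ε v * D.h v) u v s = δ * Lv (fun v => D.σ v * D.h v) u v s ∧
      (Lv (fun v => D.σ v * D.h v) u v s ≠ 0 →
        δ = D.ε u * D.σ u ∧ (D.lev u = 2 ∨ D.lev v = 2) ∧ D.lev u ≠ 0) := by
  rcases D.cases u v huv with ⟨a1, a2, a3, a4, a5, a6⟩ | ⟨a1, a2, a3, a4, a5, a6, a7⟩ |
      ⟨a1, a2, a3, a4, a5, a6, a7, a8, a9⟩
  · refine ⟨1, Or.inl rfl, ?_, ?_⟩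
    · simp [Lv, a3, a4]
    · intro h; exact absurd (by simp [Lv, a3, a4]) h
  · refine ⟨1, Or.inl rfl, ?_, ?_⟩
    · simp [Lv, a2, a3]
    · intro h; exact absurd (by simp [Lv, a2, a3]) h
  · refine ⟨D.ε u * D.σ u, ?_, ?_, ?_⟩
    · rcases D.hε u with h | h <;> rcases D.hσ u with h' | h' <;> rw [h, h'] <;> norm_num
    · simp only [Lv, ← a3, ← a4]
      rcases D.hσ u with h' | h' <;> rw [h'] <;> ring
    · intro _
      exact ⟨rfl, a8, a6⟩

theorem phase3_mid (hq : (fun v => (D.a v + D.ε v * D.h v, D.σ v * D.b v, (0:ℝ))) ∈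
      CF G (fun v => D.a v + D.h v) D.b)
    (t : ℝ) (ht : t ∈ Ioo (0:ℝ) (Real.pi / 2)) :
    Sep G (fun v => (D.F3 t v).1) (fun v => (D.F3 t v).2.1) (fun v => (D.F3 t v).2.2) := by
  intro u v u' v' huv huv' hne s s' hs hs' hX hY hZ
  have hsin : 0 < Real.sin t := Real.sin_pos_of_pos_of_lt_pi ht.1 (by linarith [ht.2, Real.pi_pos])
  have hcos : 0 < Real.cos t := Real.cos_pos_of_mem_Ioo ⟨by linarith [ht.1, Real.pi_pos], ht.2⟩
  simp only [F3] at hX hY hZ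
  rw [lv_mul, lv_mul] at hZ
  have hη := mul_right_cancel₀ hcos.ne' hZ
  rw [lv_comb, lv_comb] at hX
  obtain ⟨δ, hδ, e1, e2⟩ := D.lvε u v huv s
  obtain ⟨δ', hδ', e1', e2'⟩ := D.lvε u' v' huv' s'
  -- reduction to the second flat state when the signs agree or `η = 0`
  have fin : Lv (fun v => D.ε v * D.h v) u v s = Lv (fun v => D.ε v * D.h v) u' v' s' →
      Same u v s u' v' s' := by
    intro h
    refine hq.2 u v u' v' huv huv' hne s s' hs hs' ?_ hY (by simp [Lv])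
    show Lv (fun v => D.a v + D.ε v * D.h v) u v s = Lv (fun v => D.a v + D.ε v * D.h v) u' v' s'
    rw [lv_add, lv_add]
    rw [h] at hX ⊢
    linarith
  by_cases h0 : Lv (fun v => D.σ v * D.h v) u v s = 0
  · apply fin
    rw [e1, e1', ← hη, h0]; simp
  by_cases hdd : δ = δ'
  · apply fin
    rw [e1, e1', hη, hdd]
  exfalso
  obtain ⟨f1, f2, f3⟩ := e2 h0
  obtain ⟨f1', f2', f3'⟩ := e2' (hη ▸ h0)
  -- the intermediate points
  have hmem : ∀ u v : V, ∀ s : ℝ, s ∈ Icc (0:ℝ) 1 → Real.sin t * Lv D.h u v s ∈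
      uIcc 0 (D.h u) ∪ uIcc 0 (D.h v) := by
    intro u v s hs
    have hs1 : Real.sin t ≤ 1 := Real.sin_le_one t
    unfold Lv
    rcases le_total 0 ((1 - s) * D.h u + s * D.h v) with hn | hn
    · rcases le_total (D.h u) (D.h v) with hl | hl
      · right
        have hvn : (1 - s) * D.h u + s * D.h v ≤ D.h v := by nlinarith [hs.1, hs.2]
        rw [uIcc_of_le (by linarith)]
        constructor
        · positivity
        · nlinarith
      · left
        have hvn : (1 - s) * D.h u + s * D.h v ≤ D.h u := by nlinarith [hs.1, hs.2]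
        rw [uIcc_of_le (by linarith)]
        constructor
        · positivity
        · nlinarith
    · rcases le_total (D.h u) (D.h v) with hl | hl
      · left
        have hvn : D.h u ≤ (1 - s) * D.h u + s * D.h v := by nlinarith [hs.1, hs.2]
        rw [uIcc_of_ge (by linarith)]
        constructor
        · nlinarith
        · nlinarith
      · right
        have hvn : D.h v ≤ (1 - s) * D.h u + s * D.h v := by nlinarith [hs.1, hs.2]
        rw [uIcc_of_ge (by linarith)]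
        constructor
        · nlinarith
        · nlinarith
  obtain ⟨c, d, μ, hcd, hμ, g1, g2, g3, g4, g5, g6, g7⟩ := D.int u v huv f2 _ (hmem u v s hs)
  obtain ⟨c', d', μ', hcd', hμ', g1', g2', g3', g4', g5', g6', g7'⟩ :=
    D.int u' v' huv' f2' _ (hmem u' v' s' hs')
  -- signs at the new links
  have sg : ∀ u w : V, D.lev u ≠ 0 → D.lev w ≠ 0 → D.foot w = D.foot u → D.rho w = D.rho u →
      D.σ w = D.σ u ∧ D.ε w = D.ε u ∧ D.a w = D.a u ∧ D.b w = D.b u := by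
    intro u w hu hw h1 h2
    refine ⟨?_, ?_, ?_, ?_⟩
    · rw [D.foot_σ w, h1, ← D.foot_σ]
    · rw [D.rho_ε w hw, h2, ← D.rho_ε u hu]
    · rw [D.foot_a w, h1, ← D.foot_a]
    · rw [D.rho_b w hw, h2, ← D.rho_b u hu]
  have hc := sg u c f3 g1 g3 g5
  have hd := sg u d f3 g2 g4 g6
  have hc' := sg u' c' f3' g1' g3' g5'
  have hd' := sg u' d' f3' g2' g4' g6'
  -- `u v` and `u' v'` are of the third type
  have ty : ∀ u v : V, G.Adj u v → D.lev u ≠ 0 → (D.lev u = 2 ∨ D.lev v = 2) →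
      ∀ s, Lv D.a u v s = D.a u ∧ Lv (fun v => D.σ v * D.b v) u v s = D.σ u * D.b u ∧
        Lv (fun v => D.σ v * D.h v) u v s = D.σ u * Lv D.h u v s ∧
        Lv (fun v => D.ε v * D.h v) u v s = D.ε u * Lv D.h u v s := by
    intro u v huv hu h2 s
    rcases D.cases u v huv with ⟨a1, a2, a3, a4, a5, a6⟩ | ⟨a1, a2, a3, a4, a5, a6, a7⟩ |
      ⟨a1, a2, a3, a4, a5, a6, a7, a8, a9⟩
    · exact absurd a5 hu
    · omega
    · simp only [Lv, ← a1, ← a2, ← a3, ← a4]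
      refine ⟨by ring, by ring, by ring, by ring⟩
  obtain ⟨t1, t2, t3, t4⟩ := ty u v huv f3 f2 s
  obtain ⟨t1', t2', t3', t4'⟩ := ty u' v' huv' f3' f2' s'
  have new : ∀ c d u : V, ∀ μ : ℝ, (D.σ c = D.σ u ∧ D.ε c = D.ε u ∧ D.a c = D.a u ∧ D.b c = D.b u) →
      (D.σ d = D.σ u ∧ D.ε d = D.ε u ∧ D.a d = D.a u ∧ D.b d = D.b u) →
      Lv (fun v => D.a v + D.ε v * D.h v) c d μ = D.a u + D.ε u * Lv D.h c d μ ∧
      Lv (fun v => D.σ v * D.b v) c d μ = D.σ u * D.b u ∧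
      Lv (fun v => D.ε v * D.h v) c d μ = D.ε u * Lv D.h c d μ := by
    intro c d u μ h1 h2
    simp only [Lv, h1.1, h1.2.1, h1.2.2.1, h1.2.2.2, h2.1, h2.2.1, h2.2.2.1, h2.2.2.2]
    refine ⟨by ring, by ring, by ring⟩
  obtain ⟨n1, n2, n3⟩ := new c d u μ hc hd
  obtain ⟨n1', n2', n3'⟩ := new c' d' u' μ' hc' hd'
  have eX : Lv (fun v => D.a v + D.ε v * D.h v) c d μ =
      Lv (fun v => D.a v + D.ε v * D.h v) c' d' μ' := by
    rw [n1, n1', g7, g7']
    rw [t1, t1', t4, t4'] at hX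
    linarith
  have eY : Lv (fun v => D.σ v * D.b v) c d μ = Lv (fun v => D.σ v * D.b v) c' d' μ' := by
    rw [n2, n2', ← t2, ← t2']
    exact hY
  by_cases hsame : (c = c' ∧ d = d') ∨ (c = d' ∧ d = c')
  · apply hdd
    rw [f1, f1', ← hc.1, ← hc.2.1]
    rcases hsame with ⟨h, _⟩ | ⟨h, _⟩
    · rw [h, hc'.1, hc'.2.1]
    · rw [h, hd'.1, hd'.2.1]
  · have S := hq.2 c d c' d' hcd hcd' hsame μ μ' hμ hμ' eX eY (by simp [Lv])
    have := S.lv (fun v => D.ε v * D.h v)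
    rw [n3, n3', g7, g7'] at this
    have h5 : D.ε u * Lv D.h u v s = D.ε u' * Lv D.h u' v' s' := by
      have : Real.sin t * (D.ε u * Lv D.h u v s) = Real.sin t * (D.ε u' * Lv D.h u' v' s') := by
        linarith
      exact mul_left_cancel₀ hsin.ne' this
    rw [← t4, ← t4', e1, e1', ← hη] at h5
    exact hdd (mul_right_cancel₀ h0 h5)

theorem phase3_inner (t : ℝ) : ∀ u v w, G.Adj u v → G.Adj u w →
      ((D.F3 t v).1 - (D.F3 t u).1) * ((D.F3 t w).1 - (D.F3 t u).1)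
        + ((D.F3 t v).2.1 - (D.F3 t u).2.1) * ((D.F3 t w).2.1 - (D.F3 t u).2.1)
        + ((D.F3 t v).2.2 - (D.F3 t u).2.2) * ((D.F3 t w).2.2 - (D.F3 t u).2.2)
      = ((D.a v + D.h v) - (D.a u + D.h u)) * ((D.a w + D.h w) - (D.a u + D.h u)) +
        (D.b v - D.b u) * (D.b w - D.b u) := by
  intro u v w huv huw
  have hcs := Real.sin_sq_add_cos_sq t
  simp only [F3]
  generalize Real.cos t = c at *
  generalize Real.sin t = s at *
  rcases D.cases u v huv with ⟨a1, a2, a3, a4, a5, a6⟩ | ⟨a1, a2, a3, a4, a5, a6, a7⟩ |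
      ⟨a1, a2, a3, a4, a5, a6, a7, a8, a9⟩ <;>
  rcases D.cases u w huw with ⟨b1, b2, b3, b4, b5, b6⟩ | ⟨b1, b2, b3, b4, b5, b6, b7⟩ |
      ⟨b1, b2, b3, b4, b5, b6, b7, b8, b9⟩
  · simp only [a1, a2, a3, a4, b2, b4]; ring
  · simp only [a1, a2, a3, a4, b3, ← b1]; ring
  · exact absurd a5 b6
  · simp only [b1, b2, b4, a2, a3, ← a1]; ring
  · simp only [a2, a3, b3, ← a1, ← b1, ← a4, ← b4]
    rcases D.hσ u with h | h <;> rw [h] <;> ring
  · simp only [← a1, ← b1, ← b2, a2, a3, ← a4, ← b3, ← b4]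
    ring
  · exact absurd b5 a6
  · simp only [← a1, ← b1, ← a2, b2, b3, ← a3, ← b4, ← a4]
    ring
  · simp only [← a1, ← a2, ← b1, ← b2, ← a3, ← b3, ← a4, ← b4]
    have e1 : D.σ u ^ 2 = 1 := by rcases D.hσ u with h | h <;> rw [h] <;> norm_num
    have e2 : D.ε u ^ 2 = 1 := by rcases D.hε u with h | h <;> rw [h] <;> norm_num
    linear_combination (D.h v - D.h u) * (D.h w - D.h u) * hcs +
      (D.h v - D.h u) * (D.h w - D.h u) * s ^ 2 * e2 +
      (D.h v - D.h u) * (D.h w - D.h u) * c ^ 2 * e1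

theorem joined (hp : (fun v => (D.a v + D.h v, D.b v, (0:ℝ))) ∈ CF G (fun v => D.a v + D.h v) D.b)
    (hinj : ∀ u v, D.a u + D.h u = D.a v + D.h v → D.b u = D.b v → u = v)
    (hq : (fun v => (D.a v + D.ε v * D.h v, D.σ v * D.b v, (0:ℝ))) ∈
      CF G (fun v => D.a v + D.h v) D.b) :
    JoinedIn (CF G (fun v => D.a v + D.h v) D.b)
      (fun v => (D.a v + D.h v, D.b v, (0:ℝ)))
      (fun v => (D.a v + D.ε v * D.h v, D.σ v * D.b v, (0:ℝ))) := by
  have hpi := Real.pi_pos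
  have j1 : JoinedIn (CF G (fun v => D.a v + D.h v) D.b) (D.F1 0) (D.F1 (Real.pi / 2)) :=
    joined_path D.F1 (fun v => by unfold F1; fun_prop) (by linarith) (D.phase1 hp)
  have j2 : JoinedIn (CF G (fun v => D.a v + D.h v) D.b) (D.F2 0) (D.F2 Real.pi) :=
    joined_path D.F2 (fun v => by unfold F2; fun_prop) hpi.le (fun t _ => D.phase2 hp hinj t)
  have e0 : D.F1 0 = fun v => (D.a v + D.h v, D.b v, (0:ℝ)) := by
    funext v; simp [F1]
  have e1 : D.F1 (Real.pi / 2) = D.F2 0 := by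
    funext v; simp [F1, F2]
  have e2 : D.F2 Real.pi = D.F3 0 := by
    funext v
    rcases D.hσ v with h | h
    · simp [F2, F3, h]
    · simp [F2, F3, h]
  have e3 : D.F3 (Real.pi / 2) = fun v => (D.a v + D.ε v * D.h v, D.σ v * D.b v, (0:ℝ)) := by
    funext v; simp [F3]
  have j3 : JoinedIn (CF G (fun v => D.a v + D.h v) D.b) (D.F3 0) (D.F3 (Real.pi / 2)) := by
    refine joined_path D.F3 (fun v => by unfold F3; fun_prop) (by linarith) ?_
    intro t ht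
    rcases eq_or_lt_of_le ht.1 with h | h
    · subst h
      rw [← e2]
      exact D.phase2 hp hinj _
    rcases eq_or_lt_of_le ht.2 with h' | h'
    · subst h'
      rw [e3]
      exact hq
    · exact ⟨D.phase3_inner t, D.phase3_mid hq t ⟨h, h'⟩⟩
  rw [e0] at j1
  rw [e3] at j3
  rw [e1] at j1
  rw [e2] at j2
  exact (j1.trans j2).trans j3

end Spine

end Pool.FS79
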